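import Mathlib

/-!
# Least fixed points with ordinal ranks
-/

set_option autoImplicit false

namespace Q222.CM

section

variable {V : Type} (F : Set V → Set V)

/-- the stages of the least fixed point -/
noncomputable def Stg : Ordinal.{0} → Set V :=
  WellFounded.fix Ordinal.lt_wf fun a ih => {v | ∃ b, ∃ h : b < a, v ∈ F (ih b h)}

theorem mem_Stg {a : Ordinal.{0}} {v : V} : v ∈ Stg F a ↔ ∃ b, b < a ∧ v ∈ F (Stg F b) := by
  unfold Stg
  rw [WellFounded.fix_eq]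
  simp only [Set.mem_setOf_eq, exists_prop]

theorem Stg_mono {a b : Ordinal.{0}} (h : a ≤ b) : Stg F a ⊆ Stg F b := by
  intro v hv
  rw [mem_Stg] at hv ⊢
  obtain ⟨c, hc, hv⟩ := hv
  exact ⟨c, hc.trans_le h, hv⟩

/-- For every monotone operator there are a set `A` and a rank such that `A` is closed under the
operator and every element of `A` comes from elements of smaller rank. -/
theorem exists_rank (hF : ∀ X Y : Set V, X ⊆ Y → F X ⊆ F Y) :
    ∃ (A : Set V) (r : V → Ordinal.{0}), F A ⊆ A ∧ ∀ v ∈ A, v ∈ F {u | u ∈ A ∧ r u < r v} := by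
  classical
  refine ⟨{v | ∃ a, v ∈ Stg F a}, fun v => sInf {a | v ∈ Stg F a}, ?_, ?_⟩
  · intro v hv
    have hsub : {v | ∃ a, v ∈ Stg F a} ⊆ Stg F (⨆ v : V, sInf {a | v ∈ Stg F a}) := by
      rintro u ⟨a, ha⟩
      have h1 : u ∈ Stg F (sInf {a | u ∈ Stg F a}) :=
        csInf_mem (s := {a | u ∈ Stg F a}) ⟨a, ha⟩
      exact Stg_mono F (Ordinal.le_iSup (fun v : V => sInf {a | v ∈ Stg F a}) u) h1
    refine ⟨Order.succ (⨆ v : V, sInf {a | v ∈ Stg F a}), ?_⟩
    rw [mem_Stg]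
    exact ⟨_, Order.lt_succ _, hF _ _ hsub hv⟩
  · rintro v ⟨a, ha⟩
    have h1 : v ∈ Stg F (sInf {a | v ∈ Stg F a}) :=
      csInf_mem (s := {a | v ∈ Stg F a}) ⟨a, ha⟩
    rw [mem_Stg] at h1
    obtain ⟨b, hb, h2⟩ := h1
    refine hF _ _ ?_ h2
    intro u hu
    refine ⟨⟨b, hu⟩, ?_⟩
    exact lt_of_le_of_lt (csInf_le' hu) hb

end

/-- Following a function of the history. -/
theorem exists_path {C V : Type} (v : V) (nx : List (C × V) → C × V) :
    ∃ (ρ : ℕ → V) (γ : ℕ → C) (st : ℕ → List (C × V)), ρ 0 = v ∧ st 0 = [] ∧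
      (∀ n, st (n + 1) = st n ++ [(γ n, ρ (n + 1))]) ∧ ∀ n, (γ n, ρ (n + 1)) = nx (st n) := by
  let st : ℕ → List (C × V) := fun n => Nat.rec [] (fun _ l => l ++ [nx l]) n
  let ρ : ℕ → V := fun n => Nat.casesOn n v (fun n => (nx (st n)).2)
  let γ : ℕ → C := fun n => (nx (st n)).1
  exact ⟨ρ, γ, st, rfl, rfl, fun n => rfl, fun n => rfl⟩

end Q222.CM
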