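import Mathlib

/-!
# Games on coloured graphs, chromatic strategies
-/

set_option autoImplicit false

open Filter

namespace Q222.CM

/-- A game with colours in `C`: a possibly infinite directed graph whose edges are coloured, in
which every vertex has an outgoing edge; `eve v` says that the vertex `v` belongs to Eve (the other
vertices belong to Adam). -/
structure Game (C : Type) where
  V : Type
  edge : V → C → V → Prop
  eve : V → Prop
  total : ∀ v, ∃ c v', edge v c v'

/-- one-player games: Eve owns every vertex -/
def OnePlayer {C : Type} (G : Game C) : Prop := ∀ v, G.eve v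

/-- arbitrary games -/
def Arbitrary {C : Type} (_ : Game C) : Prop := True

section

variable {C : Type}

/-- `ρ` (vertices) and `γ` (colours) form an infinite play from `v`. -/
structure IsPlay (G : Game C) (v : G.V) (ρ : ℕ → G.V) (γ : ℕ → C) : Prop where
  start : ρ 0 = v
  step : ∀ n, G.edge (ρ n) (γ n) (ρ (n + 1))

/-- The history of a play after `n` steps: the list of the colours and vertices seen. -/
def hist {V : Type} (ρ : ℕ → V) (γ : ℕ → C) (n : ℕ) : List (C × V) :=
  (List.range n).map fun i => (γ i, ρ (i + 1))

/-- A strategy of Eve for the plays from `v`: it gives the next step (colour and vertex) as a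
function of the history, and is legal whenever it is her turn. -/
structure Strategy (G : Game C) (v : G.V) where
  next : List (C × G.V) → C × G.V
  legal : ∀ (ρ : ℕ → G.V) (γ : ℕ → C) (n : ℕ), ρ 0 = v →
    (∀ i, i < n → G.edge (ρ i) (γ i) (ρ (i + 1))) → G.eve (ρ n) →
    G.edge (ρ n) (next (hist ρ γ n)).1 (next (hist ρ γ n)).2

/-- Eve has a winning strategy from `v` for the objective `W`. -/
def EveWins (G : Game C) (W : Set (ℕ → C)) (v : G.V) : Prop :=
  ∃ s : Strategy G v, ∀ ρ γ, IsPlay G v ρ γ →
    (∀ n, G.eve (ρ n) → (γ n, ρ (n + 1)) = s.next (hist ρ γ n)) → γ ∈ W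

/-- A chromatic memory skeleton with `k` states: an initial state and an update function which
depends on the state and the colour only. -/
structure Skeleton (C : Type) (k : ℕ) where
  init : Fin k
  upd : Fin k → C → Fin k

/-- the state of the memory after `n` colours -/
def Skeleton.mem {k : ℕ} (S : Skeleton C k) (γ : ℕ → C) : ℕ → Fin k
  | 0 => S.init
  | n + 1 => S.upd (S.mem γ n) (γ n)

/-- A choice function: an outgoing edge for each vertex of Eve and each state. -/
structure Choice (G : Game C) (k : ℕ) where
  next : G.V → Fin k → C × G.V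
  legal : ∀ v m, G.eve v → G.edge v (next v m).1 (next v m).2

/-- The chromatic strategy given by the skeleton `S` and the choice function `ch` wins from `v`. -/
def ChromWins (G : Game C) (W : Set (ℕ → C)) {k : ℕ} (S : Skeleton C k) (ch : Choice G k)
    (v : G.V) : Prop :=
  ∀ ρ γ, IsPlay G v ρ γ →
    (∀ n, G.eve (ρ n) → (γ n, ρ (n + 1)) = ch.next (ρ n) (S.mem γ n)) → γ ∈ W

/-- The skeleton `S` suffices for the objective `W` over the games with `P`: in each of them some
strategy with this skeleton wins from all vertices from which Eve has a winning strategy. -/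
def Suffices (P : Game C → Prop) (W : Set (ℕ → C)) {k : ℕ} (S : Skeleton C k) : Prop :=
  ∀ G, P G → ∃ ch : Choice G k, ∀ v, EveWins G W v → ChromWins G W S ch v

/-- The chromatic memory of `W` over the games with `P` is at most `k`: in each of these games some
chromatic strategy with `k` states wins from all vertices from which Eve has a winning strategy. -/
def MemLE (P : Game C → Prop) (W : Set (ℕ → C)) (k : ℕ) : Prop :=
  ∀ G, P G → ∃ (S : Skeleton C k) (ch : Choice G k), ∀ v, EveWins G W v → ChromWins G W S ch v

/-- the run of a deterministic automaton -/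
def run {Q : Type} (δ : Q → C → Q) (q : Q) (γ : ℕ → C) : ℕ → Q
  | 0 => q
  | n + 1 => δ (run δ q γ n) (γ n)

/-- `W` is recognised by a finite deterministic parity automaton (priorities on the transitions; a
word is accepted if the largest priority which occurs infinitely often is even). -/
def OmegaRegular (W : Set (ℕ → C)) : Prop :=
  ∃ (Q : Type) (_ : Fintype Q) (q : Q) (δ : Q → C → Q) (p : Q → C → ℕ), ∀ γ : ℕ → C,
    γ ∈ W ↔ ∃ d, Even d ∧ (∃ᶠ n in atTop, p (run δ q γ n) (γ n) = d) ∧
      ∀ᶠ n in atTop, p (run δ q γ n) (γ n) ≤ d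

/-- The objective derived from the skeleton `S` and the objective `W`, over the alphabet of the
pairs (label, colour). A word is in it if all labels are the states of the skeleton and the
colours form a word of `W`, or if the first label which is not the state of the skeleton is
larger than this state. -/
def derived {k : ℕ} (S : Skeleton C k) (W : Set (ℕ → C)) : Set (ℕ → Fin k × C) :=
  {w | (∀ n, (w n).1 = S.mem (fun i => (w i).2) n) ∧ (fun i => (w i).2) ∈ W} ∪
  {w | ∃ n, (∀ j, j < n → (w j).1 = S.mem (fun i => (w i).2) j) ∧
    S.mem (fun i => (w i).2) n < (w n).1}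

end

section basic

variable {C : Type}

theorem hist_succ {V : Type} (ρ : ℕ → V) (γ : ℕ → C) (n : ℕ) :
    hist ρ γ (n + 1) = hist ρ γ n ++ [(γ n, ρ (n + 1))] := by
  simp [hist, List.range_succ]

theorem hist_zero {V : Type} (ρ : ℕ → V) (γ : ℕ → C) : hist ρ γ 0 = [] := rfl

theorem hist_length {V : Type} (ρ : ℕ → V) (γ : ℕ → C) (n : ℕ) : (hist ρ γ n).length = n := by
  simp [hist]

theorem hist_congr {V : Type} {ρ ρ' : ℕ → V} {γ γ' : ℕ → C} {n : ℕ} (h0 : ρ 0 = ρ' 0)
    (h : hist ρ γ n = hist ρ' γ' n) : (∀ i, i < n → γ i = γ' i) ∧ ∀ i, i ≤ n → ρ i = ρ' i := by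
  induction n with
  | zero =>
    refine ⟨fun i hi => absurd hi (Nat.not_lt_zero _), fun i hi => ?_⟩
    have : i = 0 := by omega
    rw [this, h0]
  | succ n ih =>
    rw [hist_succ, hist_succ] at h
    have h1 := List.append_inj' h (by simp)
    obtain ⟨i1, i2⟩ := ih h1.1
    have h2 : (γ n, ρ (n + 1)) = (γ' n, ρ' (n + 1)) := by simpa using h1.2
    refine ⟨fun i hi => ?_, fun i hi => ?_⟩
    · rcases Nat.lt_succ_iff_lt_or_eq.1 hi with h3 | h3
      · exact i1 i h3
      · rw [h3]; exact congrArg Prod.fst h2
    · rcases Nat.of_le_succ hi with h3 | h3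
      · exact i2 i h3
      · rw [h3]; exact congrArg Prod.snd h2

/-- In a one-player game Eve wins from `v` iff some play from `v` is in the objective. -/
theorem eveWins_one {G : Game C} (hG : OnePlayer G) {W : Set (ℕ → C)} {v : G.V} :
    EveWins G W v ↔ ∃ ρ γ, IsPlay G v ρ γ ∧ γ ∈ W := by
  classical
  constructor
  · rintro ⟨s, hs⟩
    let st : ℕ → List (C × G.V) := fun n => Nat.rec [] (fun _ l => l ++ [s.next l]) n
    have st0 : st 0 = [] := rfl
    have st1 : ∀ n, st (n + 1) = st n ++ [s.next (st n)] := fun n => rfl
    let ρ : ℕ → G.V := fun n => Nat.casesOn n v (fun n => (s.next (st n)).2)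
    let γ : ℕ → C := fun n => (s.next (st n)).1
    have r1 : ∀ n, ρ (n + 1) = (s.next (st n)).2 := fun n => rfl
    have hh : ∀ n, hist ρ γ n = st n := by
      intro n
      induction n with
      | zero => rfl
      | succ n ih => rw [hist_succ, ih, st1]
    have hstep : ∀ n, G.edge (ρ n) (γ n) (ρ (n + 1)) := by
      intro n
      induction n using Nat.strong_induction_on with
      | _ n ih =>
        have := s.legal ρ γ n rfl ih (hG _)
        rw [hh n] at this
        exact this
    refine ⟨ρ, γ, ⟨rfl, hstep⟩, hs ρ γ ⟨rfl, hstep⟩ fun n _ => ?_⟩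
    rw [hh n]
  · rintro ⟨ρ, γ, hp, hw⟩
    choose c v' hcv using G.total
    let lastv : List (C × G.V) → G.V := fun l => (l.getLast?.map Prod.snd).getD v
    have hlast : ∀ (ρ' : ℕ → G.V) (γ' : ℕ → C) (n : ℕ), ρ' 0 = v → lastv (hist ρ' γ' n) = ρ' n := by
      intro ρ' γ' n h0
      cases n with
      | zero => simp [lastv, hist_zero, h0]
      | succ n => simp [lastv, hist_succ]
    refine ⟨⟨fun l => if l = hist ρ γ l.length then (γ l.length, ρ (l.length + 1)) else
      (c (lastv l), v' (lastv l)), ?_⟩, ?_⟩
    · intro ρ' γ' n h0 hst _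

      rw [hist_length]
      by_cases h : hist ρ' γ' n = hist ρ γ n
      · rw [if_pos h]
        have := (hist_congr (h0.trans hp.start.symm) h).2 n le_rfl
        rw [this]
        exact hp.step n
      · rw [if_neg h, hlast ρ' γ' n h0]
        exact hcv _
    · intro ρ' γ' hp' hc
      have key : ∀ n, hist ρ' γ' n = hist ρ γ n := by
        intro n
        induction n with
        | zero => rfl
        | succ n ih =>
          have : (γ' n, ρ' (n + 1)) = if hist ρ' γ' n = hist ρ γ (hist ρ' γ' n).length then
              (γ (hist ρ' γ' n).length, ρ ((hist ρ' γ' n).length + 1)) else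
              (c (lastv (hist ρ' γ' n)), v' (lastv (hist ρ' γ' n))) := hc n (hG _)
          rw [hist_length, if_pos ih] at this
          rw [hist_succ, hist_succ, ih, this]
      have : γ' = γ := by
        funext n
        exact (hist_congr (hp'.start.trans hp.start.symm) (key (n + 1))).1 n (by omega)
      rw [this]
      exact hw

theorem mem_congr {k : ℕ} (S : Skeleton C k) {γ γ' : ℕ → C} (n : ℕ)
    (h : ∀ i, i < n → γ i = γ' i) : S.mem γ n = S.mem γ' n := by
  induction n with
  | zero => rfl
  | succ n ih =>
    simp only [Skeleton.mem]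
    rw [ih fun i hi => h i (by omega), h n (by omega)]

end basic

end Q222.CM
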