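import Mathlib
import Pool.Agent.Q222.CM.Defs

/-!
# Words, residuals, flat words, rejecting cycles
-/

set_option autoImplicit false

open Filter

namespace Q222.CM

variable {C : Type}

/-- prepend a letter -/
def cons (c : C) (γ : ℕ → C) : ℕ → C := fun n => Nat.casesOn n c γ

/-- the rest of a word -/
def tl (γ : ℕ → C) : ℕ → C := fun i => γ (i + 1)

theorem cons_tl (γ : ℕ → C) : cons (γ 0) (tl γ) = γ := by
  funext i; cases i <;> rfl

theorem tl_cons (c : C) (γ : ℕ → C) : tl (cons c γ) = γ := rfl

/-- prepend a finite word -/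
def app : List C → (ℕ → C) → ℕ → C
  | [], γ => γ
  | c :: u, γ => cons c (app u γ)

theorem app_append (u v : List C) (γ : ℕ → C) : app (u ++ v) γ = app u (app v γ) := by
  induction u with
  | nil => rfl
  | cons c u ih => simp only [List.cons_append, app, ih]

theorem app_lt (u : List C) (γ : ℕ → C) (i : ℕ) (h : i < u.length) : app u γ i = u[i] := by
  induction u generalizing i with
  | nil => exact absurd h (Nat.not_lt_zero _)
  | cons c u ih =>
    cases i with
    | zero => rfl
    | succ i =>
      have : app (c :: u) γ (i + 1) = app u γ i := rfl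
      rw [this, ih i (by simpa using h)]
      rfl

theorem app_add (u : List C) (γ : ℕ → C) (i : ℕ) : app u γ (u.length + i) = γ i := by
  induction u with
  | nil => simp [app]
  | cons c u ih =>
    have : (c :: u).length + i = (u.length + i) + 1 := by simp; omega
    rw [this]
    exact ih

/-- the quotient of an objective by a letter -/
def der (L : Set (ℕ → C)) (c : C) : Set (ℕ → C) := {γ | cons c γ ∈ L}

/-- the quotient by a finite word -/
def ders (L : Set (ℕ → C)) (u : List C) : Set (ℕ → C) := u.foldl der L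

theorem ders_nil (L : Set (ℕ → C)) : ders L [] = L := rfl

theorem ders_cons (L : Set (ℕ → C)) (c : C) (u : List C) : ders L (c :: u) = ders (der L c) u :=
  rfl

theorem ders_append (L : Set (ℕ → C)) (u v : List C) : ders L (u ++ v) = ders (ders L u) v := by
  simp [ders, List.foldl_append]

theorem mem_ders (L : Set (ℕ → C)) (u : List C) (γ : ℕ → C) : γ ∈ ders L u ↔ app u γ ∈ L := by
  induction u generalizing L with
  | nil => rfl
  | cons c u ih => rw [ders_cons, ih]; rfl

theorem der_mono {L L' : Set (ℕ → C)} (h : L ⊆ L') (c : C) : der L c ⊆ der L' c :=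
  fun _ hγ => h hγ

theorem ders_mono {L L' : Set (ℕ → C)} (h : L ⊆ L') (u : List C) : ders L u ⊆ ders L' u := by
  intro γ hγ
  rw [mem_ders] at hγ ⊢
  exact h hγ

theorem mem_der_tl (L : Set (ℕ → C)) (γ : ℕ → C) : γ ∈ L ↔ tl γ ∈ der L (γ 0) := by
  change γ ∈ L ↔ cons (γ 0) (tl γ) ∈ L
  rw [cons_tl]

/-- `γ` is the concatenation of the words `f 0, f 1, ...` -/
def Flat (f : ℕ → List C) (γ : ℕ → C) : Prop :=
  ∃ g : ℕ → ℕ → C, g 0 = γ ∧ ∀ s, g s = app (f s) (g (s + 1))

/-- the power `x x x ...` exists -/
theorem exists_pow {x : List C} (hx : x ≠ []) : ∃ γ, Flat (fun _ => x) γ := by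
  have hl : 0 < x.length := List.length_pos_of_ne_nil hx
  let γ : ℕ → C := fun i => x[i % x.length]'(Nat.mod_lt _ hl)
  refine ⟨γ, fun _ => γ, rfl, fun s => ?_⟩
  funext i
  change x[i % x.length]'(Nat.mod_lt _ hl) = _
  rcases Nat.lt_or_ge i x.length with h | h
  · rw [app_lt x γ i h]
    congr 1
    exact Nat.mod_eq_of_lt h
  · obtain ⟨j, rfl⟩ := Nat.exists_eq_add_of_le h
    rw [app_add]
    change _ = x[j % x.length]'(Nat.mod_lt _ hl)
    congr 1
    exact Nat.add_mod_left _ _

theorem Flat.rot {x y : List C} {γ : ℕ → C} (h : Flat (fun _ => y ++ x) γ) :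
    Flat (fun _ => x ++ y) (app x γ) := by
  obtain ⟨g, h0, hs⟩ := h
  refine ⟨fun s => app x (g s), congrArg (app x) h0, fun s => ?_⟩
  beta_reduce
  conv_lhs => rw [hs s]
  rw [app_append, app_append]

theorem Flat.split {x y : List C} {γ : ℕ → C} (h : Flat (fun _ => x ++ y) γ) :
    Flat (fun n => if n % 2 = 0 then x else y) γ := by
  obtain ⟨g, h0, hs⟩ := h
  refine ⟨fun n => if n % 2 = 0 then g (n / 2) else app y (g (n / 2 + 1)), by simp [h0],
    fun n => ?_⟩
  rcases Nat.mod_two_eq_zero_or_one n with h1 | h1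
  · have h2 : (n + 1) % 2 = 1 := by omega
    have h3 : (n + 1) / 2 = n / 2 := by omega
    simp only [h1, h2, h3, if_true, one_ne_zero, if_false]
    rw [hs, app_append]
  · have h2 : (n + 1) % 2 = 0 := by omega
    have h3 : (n + 1) / 2 = n / 2 + 1 := by omega
    simp only [h1, h2, h3, if_true, one_ne_zero, if_false]

/-- `x` is a rejecting cycle at the objective `L` -/
def Rej (L : Set (ℕ → C)) (x : List C) : Prop :=
  x ≠ [] ∧ ders L x = L ∧ ∀ γ, Flat (fun _ => x) γ → γ ∉ L

theorem Rej.rot {L : Set (ℕ → C)} {x y : List C} (h : Rej L (x ++ y)) : Rej (ders L x) (y ++ x) := by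
  obtain ⟨h1, h2, h3⟩ := h
  refine ⟨fun h4 => h1 ?_, ?_, fun γ hγ => ?_⟩
  · simp only [List.append_eq_nil_iff] at h4 ⊢
    exact ⟨h4.2, h4.1⟩
  · rw [ders_append, ← ders_append L x y, h2]
  · rw [mem_ders]
    exact h3 _ hγ.rot

/-- the conditions which follow from positional strategies in one-player games -/
structure Cond (W : Set (ℕ → C)) : Prop where
  total : ∀ u v, ders W u ⊆ ders W v ∨ ders W v ⊆ ders W u
  progress : ∀ u x, x ≠ [] → ders W u ⊂ ders (ders W u) x →
    ∃ γ, Flat (fun _ => x) γ ∧ γ ∈ ders W u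
  reject : ∀ u f γ, Flat f γ → (∀ s, Rej (ders W u) (f s)) → γ ∉ ders W u

theorem Rej.append {W : Set (ℕ → C)} (hW : Cond W) {u x y : List C} (hx : Rej (ders W u) x)
    (hy : Rej (ders W u) y) : Rej (ders W u) (x ++ y) := by
  refine ⟨?_, ?_, fun γ hγ => ?_⟩
  · intro h
    exact hx.1 (List.append_eq_nil_iff.1 h).1
  · rw [ders_append, hx.2.1, hy.2.1]
  · refine hW.reject u _ γ hγ.split fun s => ?_
    beta_reduce
    split_ifs
    · exact hx
    · exact hy

/-- the letter `c` begins a rejecting cycle -/
def U (L : Set (ℕ → C)) (c : C) : Prop := ∃ z, Rej L (c :: z)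

/-- all letters of the word begin rejecting cycles -/
def UP : Set (ℕ → C) → List C → Prop
  | _, [] => True
  | L, c :: x => U L c ∧ UP (der L c) x

theorem UP_snoc {L : Set (ℕ → C)} {x : List C} {c : C} :
    UP L (x ++ [c]) ↔ UP L x ∧ U (ders L x) c := by
  induction x generalizing L with
  | nil => simp [UP, ders_nil]
  | cons a x ih =>
    simp only [List.cons_append, UP, ders_cons, ih, and_assoc]

theorem UP.extend {W : Set (ℕ → C)} (hW : Cond W) {u x : List C} (hx : x ≠ [])
    (h : UP (ders W u) x) : ∃ y, Rej (ders W u) (x ++ y) := by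
  induction x generalizing u with
  | nil => exact absurd rfl hx
  | cons c x ih =>
    obtain ⟨⟨z, hz⟩, h2⟩ := h
    by_cases hx' : x = []
    · subst hx'
      exact ⟨z, hz⟩
    · have e1 : der (ders W u) c = ders W (u ++ [c]) := by rw [ders_append]; rfl
      rw [e1] at h2
      obtain ⟨y, hy⟩ := ih (u := u ++ [c]) hx' h2
      have hz' : Rej (ders W (u ++ [c])) (z ++ [c]) := by
        have := Rej.rot (L := ders W u) (x := [c]) (y := z) hz
        rw [← ders_append] at this
        exact this
      have h3 := hy.append hW hz'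
      -- rotate: the word `x y z c` at `W u c` becomes `c x y z` at `W u`
      have h4 : (x ++ y) ++ (z ++ [c]) = (x ++ y ++ z) ++ [c] := by simp
      rw [h4] at h3
      have h5 := h3.rot
      have h6 : ders (ders W (u ++ [c])) (x ++ y ++ z) = ders W u := by
        rw [ders_append, hy.2.1]
        have := hz.2.1
        rw [ders_cons, e1] at this
        exact this
      rw [h6] at h5
      exact ⟨y ++ z, by simpa using h5⟩

/-- the factor of `γ` with `k` letters from the position `a` on -/
def seg (γ : ℕ → C) (a k : ℕ) : List C := (List.range k).map fun j => γ (a + j)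

theorem seg_length (γ : ℕ → C) (a k : ℕ) : (seg γ a k).length = k := by simp [seg]

theorem seg_succ (γ : ℕ → C) (a k : ℕ) : seg γ a (k + 1) = seg γ a k ++ [γ (a + k)] := by
  simp [seg, List.range_succ]

theorem seg_zero (γ : ℕ → C) (a : ℕ) : seg γ a 0 = [] := rfl

theorem seg_add (γ : ℕ → C) (a k l : ℕ) : seg γ a (k + l) = seg γ a k ++ seg γ (a + k) l := by
  induction l with
  | zero => simp [seg_zero]
  | succ l ih => rw [← Nat.add_assoc, seg_succ, ih, seg_succ, List.append_assoc, Nat.add_assoc]

theorem seg_head (γ : ℕ → C) (a k : ℕ) : seg γ a (k + 1) = γ a :: seg γ (a + 1) k := by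
  have := seg_add γ a 1 k
  rw [Nat.add_comm 1 k] at this
  rw [this]
  simp [seg_succ, seg_zero]

theorem seg_ne (γ : ℕ → C) (a : ℕ) {k : ℕ} (hk : 0 < k) : seg γ a k ≠ [] := by
  intro h
  have := seg_length γ a k
  rw [h] at this
  simp at this
  omega

theorem app_seg (γ : ℕ → C) (a k : ℕ) :
    app (seg γ a k) (fun i => γ (a + k + i)) = fun i => γ (a + i) := by
  induction k generalizing a with
  | zero => simp [seg_zero, app]
  | succ k ih =>
    rw [seg_head]
    have h1 : (fun i => γ (a + (k + 1) + i)) = fun i => γ ((a + 1) + k + i) := by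
      funext i; congr 1; omega
    rw [h1]
    change cons (γ a) (app (seg γ (a + 1) k) fun i => γ ((a + 1) + k + i)) = _
    rw [ih (a + 1)]
    funext i
    cases i with
    | zero => rfl
    | succ i =>
      change γ (a + 1 + i) = γ (a + (i + 1))
      congr 1
      omega

theorem run_der (L : Set (ℕ → C)) (γ : ℕ → C) (a k : ℕ) :
    run der L γ (a + k) = ders (run der L γ a) (seg γ a k) := by
  induction k with
  | zero => rfl
  | succ k ih =>
    rw [seg_succ, ders_append, ← ih]
    rfl

theorem run_der' (L : Set (ℕ → C)) (γ : ℕ → C) (k : ℕ) :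
    run der L γ k = ders L (seg γ 0 k) := by
  have := run_der L γ 0 k
  rw [Nat.zero_add] at this
  exact this

theorem UP_seg (L : Set (ℕ → C)) (γ : ℕ → C) (a k : ℕ)
    (h : ∀ j, j < k → U (run der L γ (a + j)) (γ (a + j))) :
    UP (run der L γ a) (seg γ a k) := by
  induction k with
  | zero => trivial
  | succ k ih =>
    rw [seg_succ, UP_snoc, ← run_der]
    exact ⟨ih fun j hj => h j (by omega), h k (by omega)⟩

end Q222.CM
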