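import Mathlib
import Pool.Agent.Q222.CM.Words

/-!
# Objectives recognised by deterministic Büchi automata
-/

set_option autoImplicit false

open Filter

namespace Q222.CM

variable {C : Type}

/-- `W` is recognised by a finite deterministic Büchi automaton (infinitely many marked
transitions) -/
def BuchiRegular (W : Set (ℕ → C)) : Prop :=
  ∃ (Q : Type) (_ : Fintype Q) (q : Q) (δ : Q → C → Q) (β : Q → C → Prop), ∀ γ : ℕ → C,
    γ ∈ W ↔ ∃ᶠ n in atTop, β (run δ q γ n) (γ n)

section

variable {Q : Type} (δ : Q → C → Q) (β : Q → C → Prop)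

/-- the language of a state -/
def lang (q : Q) : Set (ℕ → C) := {γ | ∃ᶠ n in atTop, β (run δ q γ n) (γ n)}

theorem run_cons (q : Q) (c : C) (γ : ℕ → C) (n : ℕ) :
    run δ q (cons c γ) (n + 1) = run δ (δ q c) γ n := by
  induction n with
  | zero => rfl
  | succ n ih =>
    change δ (run δ q (cons c γ) (n + 1)) (γ n) = δ (run δ (δ q c) γ n) (γ n)
    rw [ih]

theorem freq_shift' {p : ℕ → Prop} : (∃ᶠ i in atTop, p (i + 1)) ↔ ∃ᶠ i in atTop, p i := by
  constructor
  · intro h
    exact (tendsto_add_atTop_nat 1).frequently h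
  · intro h
    rw [frequently_atTop] at h ⊢
    intro N
    obtain ⟨j, hj, hp⟩ := h (N + 1)
    refine ⟨j - 1, by omega, ?_⟩
    rwa [Nat.sub_add_cancel (by omega)]

theorem der_lang (q : Q) (c : C) : der (lang δ β q) c = lang δ β (δ q c) := by
  ext γ
  change (∃ᶠ n in atTop, β (run δ q (cons c γ) n) (cons c γ n)) ↔
    ∃ᶠ n in atTop, β (run δ (δ q c) γ n) (γ n)
  rw [← freq_shift' (p := fun n => β (run δ q (cons c γ) n) (cons c γ n))]
  simp only [run_cons]
  rfl

theorem ders_lang (q : Q) (u : List C) : ders (lang δ β q) u = lang δ β (u.foldl δ q) := by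
  induction u generalizing q with
  | nil => rfl
  | cons c u ih => rw [ders_cons, der_lang, ih]; rfl

/-- a marked transition occurs while reading the word -/
def Hit : Q → List C → Prop
  | _, [] => False
  | q, c :: u => β q c ∨ Hit (δ q c) u

theorem hit_append (q : Q) (u v : List C) :
    Hit δ β q (u ++ v) ↔ Hit δ β q u ∨ Hit δ β (u.foldl δ q) v := by
  induction u generalizing q with
  | nil => simp [Hit]
  | cons c u ih => simp only [List.cons_append, Hit, ih, List.foldl_cons, or_assoc]

theorem run_app (q : Q) (u : List C) (γ : ℕ → C) (i : ℕ) :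
    run δ q (app u γ) (u.length + i) = run δ (u.foldl δ q) γ i := by
  induction u generalizing q with
  | nil => simp [app]
  | cons c u ih =>
    have : (c :: u).length + i = (u.length + i) + 1 := by simp; omega
    rw [this]
    change run δ q (cons c (app u γ)) (u.length + i + 1) = _
    rw [run_cons, ih]
    rfl

/-- if no transition of the run on `u γ` is marked then none is on `u` and on `γ` -/
theorem not_hit_of (q : Q) (u : List C) (γ : ℕ → C)
    (h : ∀ i, ¬ β (run δ q (app u γ) i) (app u γ i)) :
    ¬ Hit δ β q u ∧ ∀ i, ¬ β (run δ (u.foldl δ q) γ i) (γ i) := by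
  induction u generalizing q with
  | nil => exact ⟨id, h⟩
  | cons c u ih =>
    have h1 : ∀ i, ¬ β (run δ (δ q c) (app u γ) i) (app u γ i) := by
      intro i
      have := h (i + 1)
      change ¬ β (run δ q (cons c (app u γ)) (i + 1)) (app u γ i) at this
      rwa [run_cons] at this
    obtain ⟨h2, h3⟩ := ih (δ q c) h1
    exact ⟨fun h4 => h4.elim (h 0) h2, h3⟩

theorem hit_of_not (q : Q) (u : List C) (γ : ℕ → C) (h1 : ¬ Hit δ β q u)
    (h2 : ∀ i, ¬ β (run δ (u.foldl δ q) γ i) (γ i)) :
    ∀ i, ¬ β (run δ q (app u γ) i) (app u γ i) := by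
  induction u generalizing q with
  | nil => exact h2
  | cons c u ih =>
    intro i
    simp only [Hit, not_or] at h1
    cases i with
    | zero => exact h1.1
    | succ i =>
      change ¬ β (run δ q (cons c (app u γ)) (i + 1)) (app u γ i)
      rw [run_cons]
      exact ih (δ q c) h1.2 h2 i

/-- the run on a flat word: if each block contains a marked transition then it is accepted -/
theorem mem_lang_of_hits (q : Q) (f : ℕ → List C) (γ : ℕ → C) (hγ : Flat f γ)
    (hne : ∀ s, f s ≠ []) (st : ℕ → Q) (h0 : st 0 = q)
    (hst : ∀ s, st (s + 1) = (f s).foldl δ (st s)) (hh : ∀ s, Hit δ β (st s) (f s)) :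
    γ ∈ lang δ β q := by
  obtain ⟨g, g0, gs⟩ := hγ
  -- positions of the blocks
  have hpos : ∀ s, ∃ p, s ≤ p ∧ (∀ i, γ (p + i) = g s i) ∧
      ∀ i, run δ q γ (p + i) = run δ (st s) (g s) i := by
    intro s
    induction s with
    | zero => exact ⟨0, le_rfl, fun i => by rw [g0, Nat.zero_add], fun i => by
        rw [g0, h0, Nat.zero_add]⟩
    | succ s ih =>
      obtain ⟨p, h1, h2, h3⟩ := ih
      have hl : 0 < (f s).length := List.length_pos_of_ne_nil (hne s)
      refine ⟨p + (f s).length, by omega, fun i => ?_, fun i => ?_⟩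
      · rw [Nat.add_assoc, h2, gs s, app_add]
      · rw [Nat.add_assoc, h3, gs s, run_app, hst]
  by_contra hno
  change ¬ ∃ᶠ n in atTop, β (run δ q γ n) (γ n) at hno
  rw [not_frequently, eventually_atTop] at hno
  obtain ⟨N, hN⟩ := hno
  obtain ⟨p, h1, h2, h3⟩ := hpos N
  have h4 : ∀ i, ¬ β (run δ (st N) (g N) i) (g N i) := by
    intro i
    have := hN (p + i) (by omega)
    rwa [h3, h2] at this
  rw [gs N] at h4
  exact (not_hit_of δ β _ _ _ h4).1 (hh N)

/-- no marked transition on a cycle of the automaton: the power is rejected -/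
theorem not_mem_lang_of (q : Q) (x : List C) (hx : x.foldl δ q = q) (hh : ¬ Hit δ β q x)
    (γ : ℕ → C) (hγ : Flat (fun _ => x) γ) (hx0 : x ≠ []) : γ ∉ lang δ β q := by
  obtain ⟨g, g0, gs⟩ := hγ
  have key : ∀ i s, ¬ β (run δ q (g s) i) (g s i) := by
    intro i
    induction i using Nat.strong_induction_on with
    | _ i ih =>
      intro s
      rw [gs s]
      rcases Nat.lt_or_ge i x.length with h | h
      · -- inside the first block: use a word without marks
        intro hb
        have : ∀ (u : List C) (q : Q) (γ : ℕ → C) (i : ℕ), i < u.length → ¬ Hit δ β q u →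
            ¬ β (run δ q (app u γ) i) (app u γ i) := by
          intro u
          induction u with
          | nil => intro q γ i hi; exact absurd hi (Nat.not_lt_zero _)
          | cons c u ihu =>
            intro q γ i hi hn
            simp only [Hit, not_or] at hn
            cases i with
            | zero => exact hn.1
            | succ i =>
              change ¬ β (run δ q (cons c (app u γ)) (i + 1)) (app u γ i)
              rw [run_cons]
              exact ihu (δ q c) γ i (by simpa using hi) hn.2
        exact this x q (g (s + 1)) i h hh hb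
      · obtain ⟨j, rfl⟩ := Nat.exists_eq_add_of_le h
        beta_reduce
        rw [run_app, app_add, hx]
        have hl : 0 < x.length := List.length_pos_of_ne_nil hx0
        exact ih j (by omega) (s + 1)
  intro hmem
  obtain ⟨i, hi⟩ := Frequently.exists (show ∃ᶠ n in atTop, β (run δ q γ n) (γ n) from hmem)
  rw [← g0] at hi
  exact key i 0 hi

end

/-- the word `x` repeated `n` times -/
def rep (x : List C) : ℕ → List C
  | 0 => []
  | n + 1 => x ++ rep x n

theorem rep_add (x : List C) (m n : ℕ) : rep x (m + n) = rep x m ++ rep x n := by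
  induction m with
  | zero => rw [Nat.zero_add]; rfl
  | succ m ih => rw [Nat.succ_add, rep, ih, rep, List.append_assoc]

theorem ders_rep {L : Set (ℕ → C)} {x : List C} (h : ders L x = L) (n : ℕ) :
    ders L (rep x n) = L := by
  induction n with
  | zero => rfl
  | succ n ih => rw [rep, ders_append, h, ih]

/-- In a Büchi objective the factors of rejecting cycles which are cycles are rejecting. -/
theorem Rej.of_append {W : Set (ℕ → C)} (hW : Cond W) (hB : BuchiRegular W) {u x y : List C}
    (hx0 : x ≠ []) (hx : ders (ders W u) x = ders W u) (hy : ders (ders W u) y = ders W u)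
    (h : Rej (ders W u) (x ++ y)) : Rej (ders W u) x := by
  classical
  obtain ⟨Q, _, q0, δ, β, hQ⟩ := hB
  have hWl : W = lang δ β q0 := by ext γ; exact hQ γ
  by_contra hno
  have h1 : ∃ γ, Flat (fun _ => x) γ ∧ γ ∈ ders W u := by
    by_contra h2
    push Not at h2
    exact hno ⟨hx0, hx, h2⟩
  obtain ⟨γ, hγ, hmem⟩ := h1
  -- from each state with this language some power of x hits
  have h3 : ∀ q, lang δ β q = ders W u → ∃ N, Hit δ β q (rep x N) := by
    intro q hq
    by_contra h4
    push Not at h4
    rw [← hq] at hmem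
    obtain ⟨g, g0, gs⟩ := hγ
    -- no transition of the run on γ is marked
    have h5 : ∀ n s, g s = app (rep x n) (g (s + n)) := by
      intro n
      induction n with
      | zero => intro s; rfl
      | succ n ih =>
        intro s
        rw [rep, app_append, gs s, ih (s + 1)]
        congr 3
        omega
    obtain ⟨i, hi⟩ := Frequently.exists (show ∃ᶠ n in atTop, β (run δ q γ n) (γ n) from hmem)
    have h6 : ∀ (v : List C) (q : Q) (γ : ℕ → C) (i : ℕ), i < v.length → ¬ Hit δ β q v →
        ¬ β (run δ q (app v γ) i) (app v γ i) := by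
      intro v
      induction v with
      | nil => intro q γ i hi; exact absurd hi (Nat.not_lt_zero _)
      | cons c v ihv =>
        intro q γ i hi hn
        simp only [Hit, not_or] at hn
        cases i with
        | zero => exact hn.1
        | succ i =>
          change ¬ β (run δ q (cons c (app v γ)) (i + 1)) (app v γ i)
          rw [run_cons]
          exact ihv (δ q c) γ i (by simpa using hi) hn.2
    have h7 : ∀ n, n ≤ (rep x n).length := by
      intro n
      induction n with
      | zero => exact le_rfl
      | succ n ih =>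
        have hl : 0 < x.length := List.length_pos_of_ne_nil hx0
        rw [rep, List.length_append]
        omega
    rw [← g0, h5 (i + 1) 0] at hi
    exact h6 (rep x (i + 1)) q _ i (by have := h7 (i + 1); omega) (h4 (i + 1)) hi
  -- a uniform exponent
  have h8 : ∃ N, ∀ q, lang δ β q = ders W u → Hit δ β q (rep x N) := by
    have h9 : ∀ q, ∃ N, lang δ β q = ders W u → Hit δ β q (rep x N) := by
      intro q
      by_cases hq : lang δ β q = ders W u
      · obtain ⟨N, hN⟩ := h3 q hq
        exact ⟨N, fun _ => hN⟩
      · exact ⟨0, fun h => absurd h hq⟩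
    choose N hN using h9
    refine ⟨∑ q, N q, fun q hq => ?_⟩
    have hle : N q ≤ ∑ q, N q := Finset.single_le_sum (fun _ _ => Nat.zero_le _) (Finset.mem_univ q)
    obtain ⟨k, hk⟩ := Nat.exists_eq_add_of_le hle
    rw [hk, rep_add, hit_append]
    exact Or.inl (hN q hq)
  obtain ⟨N, hN⟩ := h8
  -- large powers
  have h9 : ∀ n, Rej (ders W u) (rep x (2 ^ n) ++ rep y (2 ^ n)) := by
    intro n
    induction n with
    | zero => simpa [rep] using h
    | succ n ih =>
      have e1 : 2 ^ (n + 1) = 2 ^ n + 2 ^ n := by ring
      rw [e1, rep_add, rep_add]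
      generalize hX : rep x (2 ^ n) = X at ih ⊢
      generalize hY : rep y (2 ^ n) = Y at ih ⊢
      have dX : ders (ders W u) X = ders W u := by rw [← hX]; exact ders_rep hx _
      have dY : ders (ders W u) Y = ders W u := by rw [← hY]; exact ders_rep hy _
      have r1 := ih.rot
      rw [dX] at r1
      -- X Y Y X
      have r2 := ih.append hW r1
      have r3 : Rej (ders W u) (X ++ (Y ++ (Y ++ X))) := by simpa using r2
      have r4 := r3.rot
      rw [dX] at r4
      -- Y Y X X
      have r5 : Rej (ders W u) ((Y ++ Y) ++ (X ++ X)) := by simpa using r4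
      have r6 := r5.rot
      rw [ders_append, dY, dY] at r6
      exact r6
  -- the power is accepted
  obtain ⟨n, hn⟩ : ∃ n, N ≤ 2 ^ n := ⟨N, Nat.lt_two_pow_self.le⟩
  obtain ⟨k, hk⟩ := Nat.exists_eq_add_of_le hn
  have hr := h9 n
  obtain ⟨γ', hγ'⟩ := exists_pow hr.1
  refine hr.2.2 γ' hγ' ?_
  -- states
  obtain ⟨q1, hq1⟩ : ∃ q1, lang δ β q1 = ders W u := by
    refine ⟨u.foldl δ q0, ?_⟩
    rw [hWl, ders_lang]
  obtain ⟨Z, hZ⟩ : ∃ Z, Z = rep x (2 ^ n) ++ rep y (2 ^ n) := ⟨_, rfl⟩
  rw [← hZ] at hr hγ'
  let st : ℕ → Q := fun s => Nat.rec q1 (fun _ q => Z.foldl δ q) s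
  have hst : ∀ s, lang δ β (st s) = ders W u := by
    intro s
    induction s with
    | zero => exact hq1
    | succ s ih =>
      change lang δ β (Z.foldl δ (st s)) = _
      rw [← ders_lang, ih, hr.2.1]
  rw [← hq1]
  refine mem_lang_of_hits δ β q1 (fun _ => Z) γ' hγ' (fun _ => hr.1) st rfl (fun s => rfl)
    fun s => ?_
  rw [hZ, hk, rep_add, List.append_assoc, hit_append]
  exact Or.inl (hN _ (hst s))

end Q222.CM
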