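import Mathlib
import Pool.Agent.Q222.CM.Buchi

/-!
# Marked transitions of the residual automaton
-/

set_option autoImplicit false

open Filter

namespace Q222.CM

variable {C : Type}

theorem freq_pigeon {Q : Type} [Finite Q] {p : ℕ → Prop} (h : ∃ᶠ n in atTop, p n) (f : ℕ → Q) :
    ∃ q, ∃ᶠ n in atTop, p n ∧ f n = q := by
  by_contra hno
  have h2 : ∀ q : Q, ∀ᶠ n in atTop, ¬ (p n ∧ f n = q) :=
    fun q => not_frequently.1 fun h3 => hno ⟨q, h3⟩
  rw [← eventually_all] at h2
  obtain ⟨n, e1, e2⟩ := (h.and_eventually h2).exists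
  exact e2 (f n) ⟨e1, rfl⟩

theorem run_seg {Q : Type} (δ : Q → C → Q) (q : Q) (γ : ℕ → C) (a k : ℕ) :
    run δ q γ (a + k) = (seg γ a k).foldl δ (run δ q γ a) := by
  induction k with
  | zero => rfl
  | succ k ih =>
    rw [seg_succ, List.foldl_append, ← ih]
    rfl

theorem lang_run {Q : Type} (δ : Q → C → Q) (β : Q → C → Prop) (q : Q) (γ : ℕ → C) (n : ℕ) :
    run der (lang δ β q) γ n = lang δ β (run δ q γ n) := by
  induction n with
  | zero => rfl
  | succ n ih =>
    change der (run der (lang δ β q) γ n) (γ n) = lang δ β (δ (run δ q γ n) (γ n))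
    rw [ih, der_lang]

theorem not_hit_seg {Q : Type} (δ : Q → C → Q) (β : Q → C → Prop) (q : Q) (γ : ℕ → C) (a k : ℕ)
    (h : ∀ j, j < k → ¬ β (run δ q γ (a + j)) (γ (a + j))) :
    ¬ Hit δ β (run δ q γ a) (seg γ a k) := by
  induction k with
  | zero => exact id
  | succ k ih =>
    rw [seg_succ, hit_append, ← run_seg]
    rintro (h1 | h1)
    · exact ih (fun j hj => h j (by omega)) h1
    · exact h1.elim (h k (by omega)) id

theorem UP_seg' (L : Set (ℕ → C)) (γ : ℕ → C) (a k : ℕ)
    (h : ∀ j, j < k → U (ders L (seg γ a j)) (γ (a + j))) : UP L (seg γ a k) := by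
  induction k with
  | zero => trivial
  | succ k ih =>
    rw [seg_succ, UP_snoc]
    exact ⟨ih fun j hj => h j (by omega), h k (by omega)⟩

theorem mem_seg (L : Set (ℕ → C)) (γ : ℕ → C) (a k : ℕ) :
    (fun i => γ (a + k + i)) ∈ ders L (seg γ a k) ↔ (fun i => γ (a + i)) ∈ L := by
  rw [mem_ders, app_seg]

section

variable {W : Set (ℕ → C)} (hW : Cond W) (hB : BuchiRegular W)

include hW hB

theorem rej_of_UP {u x : List C} (hx0 : x ≠ []) (hx : ders (ders W u) x = ders W u)
    (h : UP (ders W u) x) : Rej (ders W u) x := by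
  obtain ⟨y, hy⟩ := h.extend hW hx0
  refine Rej.of_append hW hB hx0 hx ?_ hy
  have := hy.2.1
  rwa [ders_append, hx] at this

/-- if all letters begin rejecting cycles then the word is rejected -/
theorem exists_marked {u : List C} {γ : ℕ → C} (hγ : γ ∈ ders W u) :
    ∃ n, ¬ U (run der (ders W u) γ n) (γ n) := by
  by_contra hno
  push Not at hno
  obtain ⟨Q, _, q0, δ, β, hQ⟩ := id hB
  have hWl : W = lang δ β q0 := by ext γ; exact hQ γ
  have hL : ders W u = lang δ β (u.foldl δ q0) := by rw [hWl, ders_lang]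
  obtain ⟨p, hp⟩ := freq_pigeon (p := fun _ => True)
    (Frequently.of_forall fun _ => trivial) (run δ (u.foldl δ q0) γ)
  obtain ⟨φ, hφ, hφp⟩ := extraction_of_frequently_atTop hp
  have hT : ∀ s, run der (ders W u) γ (φ s) = lang δ β p := by
    intro s
    rw [hL, lang_run, (hφp s).2]
  have hlt : ∀ s, φ s < φ (s + 1) := fun s => hφ (Nat.lt_succ_self s)
  have hadd : ∀ s, φ s + (φ (s + 1) - φ s) = φ (s + 1) := fun s => by have := hlt s; omega
  obtain ⟨u', hu'⟩ : ∃ u', lang δ β p = ders W u' := by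
    refine ⟨u ++ seg γ 0 (φ 0), ?_⟩
    rw [ders_append, ← run_der', hT]
  have hrej : ∀ s, Rej (ders W u') (seg γ (φ s) (φ (s + 1) - φ s)) := by
    intro s
    refine rej_of_UP hW hB (seg_ne _ _ (by have := hlt s; omega)) ?_ ?_
    · rw [← hu', ← hT s, ← run_der, hadd, hT (s + 1), hT s]
    · rw [← hu', ← hT s]
      exact UP_seg _ _ _ _ fun j _ => hno _
  refine hW.reject u' (fun s => seg γ (φ s) (φ (s + 1) - φ s)) (fun i => γ (φ 0 + i))
    ⟨fun s i => γ (φ s + i), rfl, fun s => ?_⟩ hrej ?_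
  · have := app_seg γ (φ s) (φ (s + 1) - φ s)
    rw [hadd] at this
    exact this.symm
  · rw [← hu', ← hT 0, run_der']
    have := mem_seg (ders W u) γ 0 (φ 0)
    simp only [Nat.zero_add] at this
    exact this.2 hγ

/-- if infinitely many letters begin no rejecting cycle then the word is accepted -/
theorem mem_of_marked {u : List C} {γ : ℕ → C}
    (h : ∃ᶠ n in atTop, ¬ U (run der (ders W u) γ n) (γ n)) : γ ∈ ders W u := by
  classical
  by_contra hno
  obtain ⟨Q, _, q0, δ, β, hQ⟩ := hB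
  have hWl : W = lang δ β q0 := by ext γ; exact hQ γ
  have hL : ders W u = lang δ β (u.foldl δ q0) := by rw [hWl, ders_lang]
  generalize hq : u.foldl δ q0 = q at hL
  rw [hL] at hno h
  change ¬ ∃ᶠ n in atTop, β (run δ q γ n) (γ n) at hno
  rw [not_frequently, eventually_atTop] at hno
  obtain ⟨N, hN⟩ := hno
  obtain ⟨p, hp⟩ := freq_pigeon h (run δ q γ)
  obtain ⟨n, hn, hn1, hn2⟩ := frequently_atTop.1 hp N
  obtain ⟨m, hm, hm1, hm2⟩ := frequently_atTop.1 hp (n + 1)
  obtain ⟨k, rfl⟩ := Nat.exists_eq_add_of_le hm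
  apply hn1
  have e1 : n + 1 + k = n + (k + 1) := by omega
  rw [e1] at hm2
  have h1 : (seg γ n (k + 1)).foldl δ p = p := by
    rw [← hn2, ← run_seg, hm2, hn2]
  refine ⟨seg γ (n + 1) k, ?_⟩
  rw [← seg_head, lang_run, hn2]
  refine ⟨seg_ne _ _ (by omega), by rw [ders_lang, h1], fun γ' hγ' => ?_⟩
  refine not_mem_lang_of δ β p _ h1 ?_ γ' hγ' (seg_ne _ _ (by omega))
  rw [← hn2]
  exact not_hit_seg δ β q γ n (k + 1) fun j _ => hN _ (by omega)

/-- The combinatorial core: a sequence of residuals which falls infinitely often or has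
infinitely many marked transitions. -/
theorem mem_of_theta {γ : ℕ → C} {θ : ℕ → Set (ℕ → C)} (hθ : ∀ n, ∃ u, θ n = ders W u)
    (hsub : ∀ n, θ (n + 1) ⊆ der (θ n) (γ n))
    (hev : ∃ᶠ n in atTop, ¬ U (θ n) (γ n) ∨ θ (n + 1) ≠ der (θ n) (γ n)) : γ ∈ θ 0 := by
  classical
  obtain ⟨Q, _, q0, δ, β, hQ⟩ := id hB
  have hWl : W = lang δ β q0 := by ext γ; exact hQ γ
  have hsubk : ∀ a k, θ (a + k) ⊆ ders (θ a) (seg γ a k) := by
    intro a k
    induction k with
    | zero => exact subset_rfl
    | succ k ih =>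
      rw [seg_succ, ders_append]
      exact (hsub (a + k)).trans (der_mono ih _)
  have hlq : ∀ n, ∃ q, θ n = lang δ β q := by
    intro n
    obtain ⟨u, hu⟩ := hθ n
    exact ⟨u.foldl δ q0, by rw [hu, hWl, ders_lang]⟩
  choose qn hqn using hlq
  obtain ⟨p, hp⟩ := freq_pigeon (p := fun _ => True)
    (Frequently.of_forall fun _ => trivial) qn
  obtain ⟨R, hR⟩ : ∃ R, R = lang δ β p := ⟨_, rfl⟩
  have hpR : ∃ᶠ n in atTop, θ n = R := hp.mono fun n hn => by rw [hqn n, hn.2, hR]
  obtain ⟨j, -, hj⟩ := frequently_atTop.1 hpR 0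
  obtain ⟨uj, huj⟩ := hθ j
  rw [hj] at huj
  -- it is enough to treat the rest after the position `j`
  suffices hmain : (fun i => γ (j + i)) ∈ R by
    have h1 := hsubk 0 j
    rw [Nat.zero_add, hj] at h1
    have h2 := mem_seg (θ 0) γ 0 j
    simp only [Nat.zero_add] at h2
    exact h2.1 (h1 hmain)
  by_contra hno
  -- eventually all transitions of the right run are unmarked
  have h1 : ∀ᶠ n in atTop, U (ders R (seg γ j n)) (γ (j + n)) := by
    by_contra h2
    apply hno
    rw [huj]
    apply mem_of_marked hW hB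
    rw [not_eventually] at h2
    refine h2.mono fun n hn => ?_
    rw [run_der', ← huj]
    have : seg (fun i => γ (j + i)) 0 n = seg γ j n := by
      simp [seg]
    rw [this]
    exact hn
  rw [eventually_atTop] at h1
  obtain ⟨N, hN⟩ := h1
  -- positions with the same pair
  have hpRj : ∃ᶠ n in atTop, θ (j + n) = R := by
    rw [frequently_atTop] at hpR ⊢
    intro M
    obtain ⟨m, hm, hm1⟩ := hpR (j + M)
    refine ⟨m - j, by omega, ?_⟩
    rw [Nat.add_sub_cancel' (by omega)]
    exact hm1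
  obtain ⟨p', hp'⟩ := freq_pigeon hpRj fun n => (seg γ j n).foldl δ p
  have hT : ∀ n, ders R (seg γ j n) = lang δ β ((seg γ j n).foldl δ p) := by
    intro n
    rw [hR, ders_lang]
  obtain ⟨a, ha, ha1, ha2⟩ := frequently_atTop.1 hp' N
  obtain ⟨e, he, he1⟩ := frequently_atTop.1 hev (j + a)
  obtain ⟨b, hb, hb1, hb2⟩ := frequently_atTop.1 hp' (e + 1)
  obtain ⟨T, hTa⟩ : ∃ T, T = ders R (seg γ j a) := ⟨_, rfl⟩
  have hTb : ders R (seg γ j b) = T := by rw [hTa, hT, hT, ha2, hb2]
  obtain ⟨k, hk⟩ : ∃ k, b = a + k := ⟨b - a, by omega⟩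
  have hkpos : 0 < k := by omega
  obtain ⟨A, hA⟩ : ∃ A, A = j + a := ⟨_, rfl⟩
  obtain ⟨Y, hY⟩ : ∃ Y, Y = seg γ A k := ⟨_, rfl⟩
  have hYne : Y ≠ [] := by rw [hY]; exact seg_ne _ _ hkpos
  have hTY : ders T Y = T := by
    conv_rhs => rw [← hTb, hk, seg_add, ders_append, ← hTa, ← hA, ← hY]
  obtain ⟨uT, huT⟩ : ∃ u, T = ders W u := by
    refine ⟨uj ++ seg γ j a, ?_⟩
    rw [ders_append, ← huj, hTa]
  have hUPT : UP T Y := by
    rw [hY]
    refine UP_seg' _ _ _ _ fun i hi => ?_
    have h2 := hN (a + i) (by omega)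
    rw [seg_add, ders_append, ← hTa, ← hA, ← Nat.add_assoc, ← hA] at h2
    exact h2
  have hrejT : Rej T Y := by
    rw [huT] at hTY hUPT ⊢
    exact rej_of_UP hW hB hYne hTY hUPT
  have hθA : θ A = R := by rw [hA]; exact ha1
  have hθB : θ (A + k) = R := by
    rw [hA, Nat.add_assoc, ← hk]; exact hb1
  have hRT : R ⊆ T := by
    have := hsubk j a
    rw [hj, ← hA, hθA] at this
    rw [hTa]
    exact this
  suffices hex : ∃ γ', Flat (fun _ => Y) γ' ∧ γ' ∈ R by
    obtain ⟨γ', h2, h3⟩ := hex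
    exact hrejT.2.2 γ' h2 (hRT h3)
  by_cases hRY : ders R Y = R
  · by_cases hdrop : ∃ l, l < k ∧ θ (A + l + 1) ≠ der (θ (A + l)) (γ (A + l))
    · -- the last fall
      obtain ⟨l, hl, hd, hlast⟩ : ∃ l, l < k ∧ θ (A + l + 1) ≠ der (θ (A + l)) (γ (A + l)) ∧
          ∀ l', l < l' → l' < k → θ (A + l' + 1) = der (θ (A + l')) (γ (A + l')) := by
        obtain ⟨l0, hl0, hd0⟩ := hdrop
        have hsp := Nat.findGreatest_spec (P := fun l => l < k ∧
          θ (A + l + 1) ≠ der (θ (A + l)) (γ (A + l))) (n := k) hl0.le ⟨hl0, hd0⟩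
        refine ⟨_, hsp.1, hsp.2, fun l' h2 h3 => ?_⟩
        by_contra h4
        exact Nat.findGreatest_is_greatest h2 h3.le ⟨h3, h4⟩
      obtain ⟨m, hm⟩ : ∃ m, k = l + 1 + m := ⟨k - (l + 1), by omega⟩
      have hY2 : Y = seg γ A (l + 1) ++ seg γ (A + (l + 1)) m := by rw [hY, hm, seg_add]
      have hS : ders (θ (A + (l + 1))) (seg γ (A + (l + 1)) m) = R := by
        have : ∀ i, i ≤ m → ders (θ (A + (l + 1))) (seg γ (A + (l + 1)) i) =
            θ (A + (l + 1) + i) := by
          intro i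
          induction i with
          | zero => intro _; rfl
          | succ i ih =>
            intro hi
            rw [seg_succ, ders_append, ih (by omega)]
            have h2 := hlast (l + 1 + i) (by omega) (by omega)
            have h3 : A + (l + 1 + i) = A + (l + 1) + i := by omega
            rw [h3] at h2
            exact h2.symm
        rw [this m le_rfl, ← hθB, hm]
        congr 1
        omega
      have hT' : der (θ (A + l)) (γ (A + l)) ⊆ ders R (seg γ A (l + 1)) := by
        rw [seg_succ, ders_append]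
        have := hsubk A l
        rw [hθA] at this
        exact der_mono this _
      have hlt : θ (A + (l + 1)) ⊂ ders R (seg γ A (l + 1)) := by
        refine ⟨(hsub (A + l)).trans hT', fun h2 => hd ?_⟩
        exact Set.Subset.antisymm (hsub (A + l)) (hT'.trans h2)
      have hprog : ders (θ (A + (l + 1))) (seg γ (A + (l + 1)) m ++ seg γ A (l + 1)) =
          ders R (seg γ A (l + 1)) := by
        rw [ders_append, hS]
      obtain ⟨uS, huS⟩ := hθ (A + (l + 1))
      obtain ⟨γ', h2, h3⟩ := hW.progress uS (seg γ (A + (l + 1)) m ++ seg γ A (l + 1)) (by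
          intro h4
          exact seg_ne γ A (k := l + 1) (by omega) (List.append_eq_nil_iff.1 h4).2) (by
          rw [← huS, hprog]; exact hlt)
      rw [← huS] at h3
      refine ⟨app (seg γ A (l + 1)) γ', ?_, ?_⟩
      · rw [hY2]
        exact h2.rot
      · rw [← mem_ders]
        exact hlt.1 h3
    · -- no fall: the event is a marked transition
      push Not at hdrop
      obtain ⟨i, hi⟩ : ∃ i, e = A + i := ⟨e - A, by omega⟩
      have hik : i < k := by omega
      have hθi : ∀ i, i ≤ k → ders R (seg γ A i) = θ (A + i) := by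
        intro i
        induction i with
        | zero => intro _; rw [Nat.add_zero, hθA]; rfl
        | succ i ih =>
          intro h2
          rw [seg_succ, ders_append, ih (by omega)]
          exact (hdrop i (by omega)).symm
      have hmark : ¬ U (θ e) (γ e) := by
        rcases he1 with h2 | h2
        · exact h2
        · rw [hi] at h2
          exact absurd (hdrop i hik) h2
      by_contra hnone
      push Not at hnone
      have hrejR : Rej R Y := ⟨hYne, hRY, hnone⟩
      obtain ⟨m, hm⟩ : ∃ m, k = i + (m + 1) := ⟨k - i - 1, by omega⟩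
      have hY2 : Y = seg γ A i ++ seg γ e (m + 1) := by rw [hY, hm, seg_add, hi]
      rw [hY2] at hrejR
      have h2 := hrejR.rot
      rw [hθi i hik.le, ← hi, seg_head] at h2
      exact hmark ⟨_, h2⟩
  · have hsub2 : R ⊆ ders R Y := by
      have := hsubk A k
      rw [hθA, hθB, ← hY] at this
      exact this
    have := hW.progress uj Y hYne (by
      rw [← huj]
      exact ⟨hsub2, fun h2 => hRY (Set.Subset.antisymm h2 hsub2)⟩)
    rw [← huj] at this
    exact this

end

end Q222.CM
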