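import Mathlib
import Pool.Agent.Q222.CM.Marks

/-!
# Parity acceptance, blocks of words, periodic words
-/

set_option autoImplicit false

open Filter

namespace Q222.CM

variable {C : Type}

/-- the parity condition: the largest value which occurs infinitely often is even -/
def ParAcc (a : ℕ → ℕ) : Prop :=
  ∃ d, Even d ∧ (∃ᶠ n in atTop, a n = d) ∧ ∀ᶠ n in atTop, a n ≤ d

theorem parAcc_iff (a : ℕ → ℕ) : ParAcc a ↔
    ∃ d, Even d ∧ (∀ᶠ n in atTop, a n ≤ d) ∧ ∀ e, e < d → ¬ ∀ᶠ n in atTop, a n ≤ e := by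
  constructor
  · rintro ⟨d, h1, h2, h3⟩
    refine ⟨d, h1, h3, fun e he h4 => ?_⟩
    obtain ⟨n, e1, e2⟩ := (h2.and_eventually h4).exists
    omega
  · rintro ⟨d, h1, h2, h3⟩
    refine ⟨d, h1, ?_, h2⟩
    rcases Nat.eq_zero_or_pos d with h0 | h0
    · subst h0
      exact (h2.mono fun n hn => Nat.le_zero.1 hn).frequently
    · have h4 := h3 (d - 1) (by omega)
      rw [not_eventually] at h4
      exact (h4.and_eventually h2).mono fun n hn => by omega

theorem parAcc_congr {a b : ℕ → ℕ}
    (h : ∀ d, (∀ᶠ n in atTop, a n ≤ d) ↔ ∀ᶠ n in atTop, b n ≤ d) : ParAcc a ↔ ParAcc b := by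
  rw [parAcc_iff, parAcc_iff]
  simp only [h]

theorem parAcc_of_limsup {a : ℕ → ℕ} {d : ℕ} (h1 : ∀ᶠ n in atTop, a n ≤ d)
    (h2 : ∃ᶠ n in atTop, d ≤ a n) : ParAcc a ↔ Even d := by
  rw [parAcc_iff]
  constructor
  · rintro ⟨d', h3, h4, h5⟩
    have e1 : ¬ d < d' := fun h => h5 d h h1
    have e2 : ¬ d' < d := by
      intro h
      obtain ⟨n, e3, e4⟩ := (h2.and_eventually h4).exists
      omega
    have : d = d' := by omega
    rw [this]; exact h3
  · intro h
    refine ⟨d, h, h1, fun e he h4 => ?_⟩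
    obtain ⟨n, e3, e4⟩ := (h2.and_eventually h4).exists
    omega

theorem parAcc_const (d : ℕ) : ParAcc (fun _ => d) ↔ Even d :=
  parAcc_of_limsup (Eventually.of_forall fun _ => le_rfl) (Frequently.of_forall fun _ => le_rfl)

theorem exists_limsup {a : ℕ → ℕ} {B : ℕ} (hB : ∀ n, a n ≤ B) :
    ∃ d, (∀ᶠ n in atTop, a n ≤ d) ∧ ∃ᶠ n in atTop, d ≤ a n := by
  classical
  have hex : ∃ d, ∀ᶠ n in atTop, a n ≤ d := ⟨B, Eventually.of_forall hB⟩
  refine ⟨Nat.find hex, Nat.find_spec hex, ?_⟩
  rcases Nat.eq_zero_or_pos (Nat.find hex) with h0 | h0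
  · rw [h0]
    exact Frequently.of_forall fun _ => Nat.zero_le _
  · have h1 : ¬ ∀ᶠ n in atTop, a n ≤ Nat.find hex - 1 := Nat.find_min hex (by omega)
    rw [not_eventually] at h1
    exact h1.mono fun n hn => by omega

theorem ev_shift {p : ℕ → Prop} (N : ℕ) :
    (∀ᶠ n in atTop, p (N + n)) ↔ ∀ᶠ n in atTop, p n := by
  simp only [eventually_atTop]
  constructor
  · rintro ⟨M, h⟩
    refine ⟨N + M, fun n hn => ?_⟩
    obtain ⟨k, rfl⟩ := Nat.exists_eq_add_of_le hn
    rw [Nat.add_assoc]
    exact h _ (by omega)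
  · rintro ⟨M, h⟩
    exact ⟨M, fun n hn => h _ (by omega)⟩

section

variable {Q : Type} (δ : Q → C → Q) (p : Q → C → ℕ)

/-- the language of a state of a parity automaton -/
def plang (q : Q) : Set (ℕ → C) := {γ | ParAcc fun n => p (run δ q γ n) (γ n)}

theorem der_plang (q : Q) (c : C) : der (plang δ p q) c = plang δ p (δ q c) := by
  ext γ
  change ParAcc (fun n => p (run δ q (cons c γ) n) (cons c γ n)) ↔
    ParAcc fun n => p (run δ (δ q c) γ n) (γ n)
  apply parAcc_congr
  intro d
  rw [← ev_shift (p := fun n => p (run δ q (cons c γ) n) (cons c γ n) ≤ d) 1]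
  have : ∀ n, run δ q (cons c γ) (1 + n) = run δ (δ q c) γ n ∧ cons c γ (1 + n) = γ n := by
    intro n
    rw [Nat.add_comm]
    exact ⟨run_cons δ q c γ n, rfl⟩
  simp only [this]

theorem ders_plang (q : Q) (u : List C) : ders (plang δ p q) u = plang δ p (u.foldl δ q) := by
  induction u generalizing q with
  | nil => rfl
  | cons c u ih => rw [ders_cons, der_plang, ih]; rfl

/-- the largest priority seen while reading a finite word -/
def mp : Q → List C → ℕ
  | _, [] => 0
  | q, c :: u => max (p q c) (mp (δ q c) u)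

theorem mp_append (q : Q) (u v : List C) :
    mp δ p q (u ++ v) = max (mp δ p q u) (mp δ p (u.foldl δ q) v) := by
  induction u generalizing q with
  | nil => simp [mp]
  | cons c u ih => simp only [List.cons_append, mp, ih, List.foldl_cons, max_assoc]

theorem mp_bound {B : ℕ} (hB : ∀ q c, p q c ≤ B) (q : Q) (u : List C) : mp δ p q u ≤ B := by
  induction u generalizing q with
  | nil => exact Nat.zero_le _
  | cons c u ih => exact max_le (hB q c) (ih _)

theorem mp_le_iff (q : Q) (u : List C) (γ : ℕ → C) (d : ℕ) :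
    mp δ p q u ≤ d ↔ ∀ i, i < u.length → p (run δ q (app u γ) i) (app u γ i) ≤ d := by
  induction u generalizing q with
  | nil => simp [mp]
  | cons c u ih =>
    simp only [mp, max_le_iff, ih]
    constructor
    · rintro ⟨h1, h2⟩ i hi
      cases i with
      | zero => exact h1
      | succ i =>
        change p (run δ q (cons c (app u γ)) (i + 1)) (app u γ i) ≤ d
        rw [run_cons]
        exact h2 i (by simpa using hi)
    · intro h
      refine ⟨h 0 (by simp), fun i hi => ?_⟩
      have := h (i + 1) (by simpa using hi)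
      change p (run δ q (cons c (app u γ)) (i + 1)) (app u γ i) ≤ d at this
      rwa [run_cons] at this

/-- the positions of the blocks of a flat word -/
theorem exists_pos {f : ℕ → List C} {γ : ℕ → C} (hγ : Flat f γ) :
    ∃ (g : ℕ → ℕ → C) (pos : ℕ → ℕ), pos 0 = 0 ∧ (∀ s, pos (s + 1) = pos s + (f s).length) ∧
      (∀ s, g s = app (f s) (g (s + 1))) ∧ (∀ s i, γ (pos s + i) = g s i) := by
  obtain ⟨g, g0, gs⟩ := hγ
  refine ⟨g, fun s => Nat.rec 0 (fun s n => n + (f s).length) s, rfl, fun s => rfl, gs, ?_⟩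
  intro s
  induction s with
  | zero => intro i; rw [g0]; change γ (0 + i) = γ i; rw [Nat.zero_add]
  | succ s ih =>
    intro i
    change γ ((Nat.rec 0 (fun s n => n + (f s).length) s : ℕ) + (f s).length + i) = _
    rw [Nat.add_assoc, ih, gs s, app_add]

theorem mem_plang_flat (q : Q) (f : ℕ → List C) (γ : ℕ → C) (hγ : Flat f γ)
    (hne : ∀ s, f s ≠ []) (st : ℕ → Q) (h0 : st 0 = q)
    (hst : ∀ s, st (s + 1) = (f s).foldl δ (st s)) :
    γ ∈ plang δ p q ↔ ParAcc fun s => mp δ p (st s) (f s) := by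
  obtain ⟨g, pos, p0, ps, gs, hg⟩ := exists_pos hγ
  have hl : ∀ s, 0 < (f s).length := fun s => List.length_pos_of_ne_nil (hne s)
  have hrun : ∀ s i, run δ q γ (pos s + i) = run δ (st s) (g s) i := by
    intro s
    induction s with
    | zero =>
      intro i
      rw [h0, p0, Nat.zero_add]
      have : g 0 = γ := by
        funext i
        rw [← hg 0 i, p0, Nat.zero_add]
      rw [this]
    | succ s ih =>
      intro i
      rw [ps, Nat.add_assoc, ih, gs s, run_app, hst]
  have hpos : ∀ s, s ≤ pos s := by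
    intro s
    induction s with
    | zero => exact Nat.zero_le _
    | succ s ih => rw [ps]; have := hl s; omega
  have hblock : ∀ s d, mp δ p (st s) (f s) ≤ d ↔
      ∀ i, i < (f s).length → p (run δ q γ (pos s + i)) (γ (pos s + i)) ≤ d := by
    intro s d
    rw [mp_le_iff δ p (st s) (f s) (g (s + 1)) d, ← gs s]
    simp only [hrun, hg]
  apply parAcc_congr
  intro d
  simp only [eventually_atTop]
  constructor
  · rintro ⟨N, h⟩
    refine ⟨N, fun s hs => ?_⟩
    rw [hblock]
    intro i _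
    exact h _ (by have := hpos s; omega)
  · rintro ⟨S, h⟩
    refine ⟨pos S, fun n hn => ?_⟩
    obtain ⟨k, rfl⟩ := Nat.exists_eq_add_of_le hn
    have key : ∃ s i, S ≤ s ∧ i < (f s).length ∧ pos S + k = pos s + i := by
      induction k with
      | zero => exact ⟨S, 0, le_rfl, hl S, rfl⟩
      | succ k ih =>
        obtain ⟨s, i, e1, e2, e3⟩ := ih (by omega)
        rcases Nat.lt_or_ge (i + 1) (f s).length with h1 | h1
        · exact ⟨s, i + 1, e1, h1, by omega⟩
        · exact ⟨s + 1, 0, by omega, hl _, by rw [ps]; omega⟩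
    obtain ⟨s, i, e1, e2, e3⟩ := key
    rw [e3]
    exact (hblock s d).1 (h s e1) i e2

end

/-! ### periodic words -/

theorem flat_unique {f : ℕ → List C} {γ γ' : ℕ → C} (h : Flat f γ) (h' : Flat f γ')
    (hne : ∀ s, f s ≠ []) : γ = γ' := by
  obtain ⟨g, g0, gs⟩ := h
  obtain ⟨g', g0', gs'⟩ := h'
  have key : ∀ n s, g s n = g' s n := by
    intro n
    induction n using Nat.strong_induction_on with
    | _ n ih =>
      intro s
      rw [gs s, gs' s]
      rcases Nat.lt_or_ge n (f s).length with h | h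
      · rw [app_lt _ _ _ h, app_lt _ _ _ h]
      · obtain ⟨j, rfl⟩ := Nat.exists_eq_add_of_le h
        rw [app_add, app_add]
        have := List.length_pos_of_ne_nil (hne s)
        exact ih j (by omega) (s + 1)
  rw [← g0, ← g0']
  funext n
  exact key n 0

/-- the periodic word `x x x ...` is in `L` -/
def Ac (L : Set (ℕ → C)) (x : List C) : Prop := x ≠ [] ∧ ∃ γ, Flat (fun _ => x) γ ∧ γ ∈ L

theorem ac_iff {L : Set (ℕ → C)} {x : List C} {γ : ℕ → C} (hx : x ≠ [])
    (hγ : Flat (fun _ => x) γ) : Ac L x ↔ γ ∈ L := by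
  constructor
  · rintro ⟨-, γ', h1, h2⟩
    rwa [flat_unique hγ h1 fun _ => hx]
  · intro h
    exact ⟨hx, γ, hγ, h⟩

theorem Ac.mono {L L' : Set (ℕ → C)} (h : L ⊆ L') {x : List C} (hx : Ac L x) : Ac L' x := by
  obtain ⟨h1, γ, h2, h3⟩ := hx
  exact ⟨h1, γ, h2, h h3⟩

theorem ac_rot {L : Set (ℕ → C)} {x y : List C} : Ac L (x ++ y) ↔ Ac (ders L x) (y ++ x) := by
  by_cases h0 : y ++ x = []
  · have h1 : x ++ y = [] := by
      rw [List.append_eq_nil_iff] at h0 ⊢
      exact ⟨h0.2, h0.1⟩
    constructor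
    · intro h; exact absurd h1 h.1
    · intro h; exact absurd h0 h.1
  · have h1 : x ++ y ≠ [] := by
      intro h
      apply h0
      rw [List.append_eq_nil_iff] at h ⊢
      exact ⟨h.2, h.1⟩
    obtain ⟨γ, hγ⟩ := exists_pow h0
    rw [ac_iff h0 hγ, ac_iff h1 hγ.rot, mem_ders]

theorem flat_const {x : List C} {γ : ℕ → C} (hx : x ≠ []) (h : Flat (fun _ => x) γ) :
    app x γ = γ := by
  obtain ⟨g, g0, gs⟩ := h
  have h1 : Flat (fun _ => x) (g 1) := ⟨fun s => g (s + 1), rfl, fun s => gs (s + 1)⟩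
  have h2 : Flat (fun _ => x) γ := ⟨g, g0, gs⟩
  have h3 : g 1 = γ := flat_unique h1 h2 fun _ => hx
  conv_rhs => rw [← g0, gs 0, h3]

theorem app_rep {x : List C} {γ : ℕ → C} (h : app x γ = γ) (n : ℕ) : app (rep x n) γ = γ := by
  induction n with
  | zero => rfl
  | succ n ih => rw [rep, app_append, ih, h]

theorem rep_ne {x : List C} (hx : x ≠ []) (n : ℕ) : rep x (n + 1) ≠ [] := by
  intro h
  rw [rep] at h
  exact hx (List.append_eq_nil_iff.1 h).1

theorem ac_rep {L : Set (ℕ → C)} {x : List C} (n : ℕ) : Ac L (rep x (n + 1)) ↔ Ac L x := by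
  by_cases hx : x = []
  · subst hx
    have : ∀ n, rep ([] : List C) n = [] := by
      intro n
      induction n with
      | zero => rfl
      | succ n ih => rw [rep, ih]; rfl
    rw [this]
  · obtain ⟨γ, hγ⟩ := exists_pow hx
    rw [ac_iff hx hγ]
    refine ac_iff (rep_ne hx n) ⟨fun _ => γ, rfl, fun _ => ?_⟩
    exact (app_rep (flat_const hx hγ) _).symm

section

variable {Q : Type} (δ : Q → C → Q) (p : Q → C → ℕ)

/-- acceptance of a periodic word in terms of the blocks -/
theorem ac_plang {x : List C} (hx : x ≠ []) (st : ℕ → Q)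
    (hst : ∀ s, st (s + 1) = x.foldl δ (st s)) :
    Ac (plang δ p (st 0)) x ↔ ParAcc fun s => mp δ p (st s) x := by
  obtain ⟨γ, hγ⟩ := exists_pow hx
  rw [ac_iff hx hγ]
  exact mem_plang_flat δ p (st 0) _ γ hγ (fun _ => hx) st rfl hst

theorem ac_cycle {x : List C} (hx : x ≠ []) {q : Q} (hq : x.foldl δ q = q) :
    Ac (plang δ p q) x ↔ Even (mp δ p q x) := by
  have := ac_plang δ p hx (fun _ => q) (fun _ => hq.symm)
  rw [this, parAcc_const]

theorem ac_congr {x x' : List C} (hx : x ≠ []) (hx' : x' ≠ [])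
    (h : ∀ q, x.foldl δ q = x'.foldl δ q ∧ mp δ p q x = mp δ p q x') (q : Q) :
    Ac (plang δ p q) x ↔ Ac (plang δ p q) x' := by
  let st : ℕ → Q := fun s => Nat.rec q (fun _ q => x.foldl δ q) s
  have h1 : ∀ s, st (s + 1) = x.foldl δ (st s) := fun s => rfl
  have h2 : ∀ s, st (s + 1) = x'.foldl δ (st s) := fun s => by rw [h1, (h _).1]
  have e1 := ac_plang δ p hx st h1
  have e2 := ac_plang δ p hx' st h2
  have e3 : st 0 = q := rfl
  rw [e3] at e1 e2
  rw [e1, e2]
  simp only [(h _).2]

/-- recurrence: the state `x` occurs infinitely often, and from each late occurrence there are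
arbitrarily long cycles which are accepted if and only if the word is. -/
theorem recur {X : Type} [Finite X] [Finite Q] {B : ℕ} (hB : ∀ q c, p q c ≤ B) (q : Q)
    (γ : ℕ → C) (s : ℕ → X) : ∃ (N : ℕ) (x : X) (q' : Q),
      (∃ᶠ n in atTop, s n = x ∧ run δ q γ n = q') ∧
      ∀ i, N ≤ i → s i = x → run δ q γ i = q' → ∀ M, ∃ j, M < j ∧ i < j ∧ s j = x ∧
        run δ q γ j = q' ∧
        (Ac (plang δ p q') (seg γ i (j - i)) ↔ γ ∈ plang δ p q) := by
  obtain ⟨d, hd1, hd2⟩ := exists_limsup (a := fun n => p (run δ q γ n) (γ n)) (B := B)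
    fun n => hB _ _
  obtain ⟨⟨x, q'⟩, hx⟩ := freq_pigeon (p := fun _ => True)
    (Frequently.of_forall fun _ => trivial) fun n => (s n, run δ q γ n)
  obtain ⟨N, hN⟩ := eventually_atTop.1 hd1
  have hx' : ∃ᶠ n in atTop, s n = x ∧ run δ q γ n = q' := hx.mono fun n hn => by
    have := hn.2
    rw [Prod.mk.injEq] at this
    exact this
  refine ⟨N, x, q', hx', fun i hi h1 h2 M => ?_⟩
  obtain ⟨e, he, he1⟩ := frequently_atTop.1 hd2 (max M i + 1)
  obtain ⟨j, hj, hj1, hj2⟩ := frequently_atTop.1 hx' (e + 1)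
  have hM := le_max_left M i
  have hI := le_max_right M i
  refine ⟨j, by omega, by omega, hj1, hj2, ?_⟩
  have e1 : γ ∈ plang δ p q ↔ Even d := parAcc_of_limsup hd1 hd2
  obtain ⟨k, hk⟩ : ∃ k, j = i + k := ⟨j - i, by omega⟩
  have hki : j - i = k := by omega
  have e2 : (seg γ i k).foldl δ q' = q' := by
    rw [← h2, ← run_seg, ← hk, hj2, h2]
  rw [hki, ac_cycle δ p (seg_ne _ _ (by omega)) e2, e1]
  have e3 : ∀ d', mp δ p q' (seg γ i k) ≤ d' ↔
      ∀ l, l < k → p (run δ q γ (i + l)) (γ (i + l)) ≤ d' := by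
    intro d'
    rw [mp_le_iff δ p q' (seg γ i k) (fun l => γ (i + k + l)) d', app_seg, seg_length]
    have : ∀ l, run δ q' (fun l => γ (i + l)) l = run δ q γ (i + l) := by
      intro l
      induction l with
      | zero => exact h2.symm
      | succ l ih =>
        change δ (run δ q' (fun l => γ (i + l)) l) (γ (i + l)) = δ (run δ q γ (i + l)) (γ (i + l))
        rw [ih]
    simp only [this]
  have e4 : mp δ p q' (seg γ i k) = d := by
    apply le_antisymm
    · rw [e3]
      exact fun l _ => hN _ (by omega)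
    · by_contra h3
      push Not at h3
      have h4 : mp δ p q' (seg γ i k) ≤ d - 1 := by omega
      rw [e3] at h4
      have h5 := h4 (e - i) (by omega)
      have h6 : i + (e - i) = e := by omega
      rw [h6] at h5
      omega
  rw [e4]

end

end Q222.CM
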