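import Mathlib
import Pool.Agent.Q222.CM.Parity

/-!
# Partial deterministic automata with ordered states
-/

set_option autoImplicit false

open Filter

namespace Q222.CM

variable {C : Type}

/-- finite paths of a labelled graph -/
def Pth {P : Type} (st : P → C → P → Prop) : P → List C → P → Prop
  | p, [], p' => p = p'
  | p, c :: u, p' => ∃ r, st p c r ∧ Pth st r u p'

section path

variable {P : Type} {st : P → C → P → Prop}

theorem pth_append {p p' : P} {u v : List C} :
    Pth st p (u ++ v) p' ↔ ∃ r, Pth st p u r ∧ Pth st r v p' := by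
  induction u generalizing p with
  | nil =>
    constructor
    · intro h; exact ⟨p, rfl, h⟩
    · rintro ⟨r, h1, h2⟩
      have : p = r := h1
      rw [this]; exact h2
  | cons c u ih =>
    constructor
    · rintro ⟨r, h1, h2⟩
      obtain ⟨r', h3, h4⟩ := ih.1 h2
      exact ⟨r', ⟨r, h1, h3⟩, h4⟩
    · rintro ⟨r', ⟨r, h1, h3⟩, h4⟩
      exact ⟨r, h1, ih.2 ⟨r', h3, h4⟩⟩

theorem Pth.append {p r p' : P} {u v : List C} (h1 : Pth st p u r) (h2 : Pth st r v p') :
    Pth st p (u ++ v) p' := pth_append.2 ⟨r, h1, h2⟩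

theorem pth_single {p p' : P} {c : C} : Pth st p [c] p' ↔ st p c p' := by
  constructor
  · rintro ⟨r, h1, h2⟩
    have : r = p' := h2
    rw [← this]; exact h1
  · intro h; exact ⟨p', h, rfl⟩

theorem Pth.det (hd : ∀ {p : P} {c : C} {r r' : P}, st p c r → st p c r' → r = r')
    {p r r' : P} {u : List C} (h : Pth st p u r) (h' : Pth st p u r') : r = r' := by
  induction u generalizing p with
  | nil => exact (show p = r from h) ▸ h'
  | cons c u ih =>
    obtain ⟨a, h1, h2⟩ := h
    obtain ⟨b, h3, h4⟩ := h'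
    rw [← hd h1 h3] at h4
    exact ih h2 h4

theorem Pth.mono {st' : P → C → P → Prop} (h : ∀ p c r, st p c r → st' p c r) {p r : P}
    {u : List C} (hp : Pth st p u r) : Pth st' p u r := by
  induction u generalizing p with
  | nil => exact hp
  | cons c u ih =>
    obtain ⟨a, h1, h2⟩ := hp
    exact ⟨a, h _ _ _ h1, ih h2⟩

theorem pth_seg {ρ : ℕ → P} {γ : ℕ → C} (h : ∀ n, st (ρ n) (γ n) (ρ (n + 1))) (a k : ℕ) :
    Pth st (ρ a) (seg γ a k) (ρ (a + k)) := by
  induction k with
  | zero => exact rfl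
  | succ k ih =>
    rw [seg_succ]
    exact ih.append (pth_single.2 (h _))

theorem Pth.ty {T : P → Set (ℕ → C)} (h : ∀ {p c r}, st p c r → T r = der (T p) c) {p r : P}
    {u : List C} (hp : Pth st p u r) : T r = ders (T p) u := by
  induction u generalizing p with
  | nil => exact congrArg T (show p = r from hp).symm
  | cons c u ih =>
    obtain ⟨a, h1, h2⟩ := hp
    rw [ih h2, h h1]
    rfl

theorem Pth.map {P' : Type} {st' : P' → C → P' → Prop} {f : P → P'}
    (h : ∀ {p c r}, st p c r → st' (f p) c (f r)) {p r : P} {u : List C} (hp : Pth st p u r) :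
    Pth st' (f p) u (f r) := by
  induction u generalizing p with
  | nil => exact congrArg f hp
  | cons c u ih =>
    obtain ⟨a, h1, h2⟩ := hp
    exact ⟨f a, h h1, ih h2⟩

end path

/-- A partial deterministic automaton whose states carry quotients of `W` and an order on the
fibres of a map, with the properties which follow from positional one-player games. -/
structure Sys (W : Set (ℕ → C)) (F : Type) (fs : F → C → F → Prop) where
  P : Type
  fin : Finite P
  st : P → C → P → Prop
  det : ∀ {p c r r'}, st p c r → st p c r' → r = r'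
  ty : P → Set (ℕ → C)
  res : ∀ p, ∃ u, ty p = ders W u
  tyst : ∀ {p c r}, st p c r → ty r = der (ty p) c
  fb : P → F
  fst : ∀ {p c r}, st p c r → fs (fb p) c (fb r)
  le : P → P → Prop
  refl : ∀ p, le p p
  trans : ∀ {p q r}, le p q → le q r → le p r
  antisymm : ∀ {p q}, le p q → le q p → p = q
  lefb : ∀ {p q}, le p q → fb p = fb q
  tot : ∀ {p q}, fb p = fb q → le p q ∨ le q p
  lety : ∀ {p q}, le p q → ty p ⊆ ty q
  mono : ∀ {p q c r}, le p q → st p c r → ∃ r', st q c r' ∧ le r r'
  prog : ∀ {p q x}, Pth st p x q → x ≠ [] → le p q → p ≠ q → Ac (ty p) x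

namespace Sys

variable {W : Set (ℕ → C)} {F : Type} {fs : F → C → F → Prop} (S : Sys W F fs)

/-- the transitions which lie on a rejecting cycle -/
def bst (p : S.P) (c : C) (r : S.P) : Prop :=
  S.st p c r ∧ ∃ z, Pth S.st r z p ∧ ¬ Ac (S.ty p) (c :: z)

theorem bst_st {p r : S.P} {c : C} (h : S.bst p c r) : S.st p c r := h.1

theorem bdet {p r r' : S.P} {c : C} (h : S.bst p c r) (h' : S.bst p c r') : r = r' :=
  S.det h.1 h'.1

theorem bty {p r : S.P} {c : C} (h : S.bst p c r) : S.ty r = der (S.ty p) c := S.tyst h.1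

variable {S}

theorem pty {p r : S.P} {u : List C} (h : Pth S.st p u r) : S.ty r = ders (S.ty p) u :=
  Pth.ty (T := S.ty) @S.tyst h

theorem pdet {p r r' : S.P} {u : List C} (h : Pth S.st p u r) (h' : Pth S.st p u r') : r = r' :=
  Pth.det @S.det h h'

theorem bpdet {p r r' : S.P} {u : List C} (h : Pth S.bst p u r) (h' : Pth S.bst p u r') :
    r = r' := Pth.det (st := S.bst) (fun h h' => S.bdet h h') h h'

theorem toP {p r : S.P} {u : List C} (h : Pth S.bst p u r) : Pth S.st p u r :=
  h.mono fun _ _ _ h => h.1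

theorem bpty {p r : S.P} {u : List C} (h : Pth S.bst p u r) : S.ty r = ders (S.ty p) u :=
  pty (toP h)

theorem monoP {p q r : S.P} {u : List C} (h : S.le p q) (hp : Pth S.st p u r) :
    ∃ r', Pth S.st q u r' ∧ S.le r r' := by
  induction u generalizing p q with
  | nil => exact ⟨q, rfl, (show p = r from hp) ▸ h⟩
  | cons c u ih =>
    obtain ⟨a, h1, h2⟩ := hp
    obtain ⟨b, h3, h4⟩ := S.mono h h1
    obtain ⟨r', h5, h6⟩ := ih h4 h2
    exact ⟨r', ⟨b, h3, h5⟩, h6⟩

theorem right_run {θ : ℕ → S.P} {γ : ℕ → C}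
    (h : ∀ n, ∃ r, S.st (θ n) (γ n) r ∧ S.le (θ (n + 1)) r) (a k : ℕ) :
    ∃ r, Pth S.st (θ a) (seg γ a k) r ∧ S.le (θ (a + k)) r := by
  induction k with
  | zero => exact ⟨θ a, rfl, S.refl _⟩
  | succ k ih =>
    obtain ⟨r, h1, h2⟩ := ih
    obtain ⟨b, h3, h4⟩ := h (a + k)
    obtain ⟨r', h5, h6⟩ := S.mono h2 h3
    refine ⟨r', ?_, S.trans h4 h6⟩
    rw [seg_succ]
    exact h1.append (pth_single.2 h5)

/-- The combinatorial core: a sequence of states which falls infinitely often or makes infinitely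
many transitions which are on no rejecting cycle. -/
theorem core (S : Sys W F fs) {Q : Type} [Finite Q] {δ : Q → C → Q} {pr : Q → C → ℕ} {B : ℕ}
    (hB : ∀ q c, pr q c ≤ B) {q0 : Q} (hW : W = plang δ pr q0) {θ : ℕ → S.P} {γ : ℕ → C}
    (h : ∀ n, ∃ r, S.st (θ n) (γ n) r ∧ S.le (θ (n + 1)) r)
    (hev : ∃ᶠ n in atTop, ¬ S.bst (θ n) (γ n) (θ (n + 1))) : γ ∈ S.ty (θ 0) := by
  have := S.fin
  obtain ⟨u0, hu0⟩ := S.res (θ 0)
  obtain ⟨q, hq⟩ : ∃ q, S.ty (θ 0) = plang δ pr q := ⟨u0.foldl δ q0, by rw [hu0, hW, ders_plang]⟩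
  obtain ⟨N, x, q', hfr, hrec⟩ := recur δ pr hB q γ θ
  obtain ⟨i, hi, hi1, hi2⟩ := frequently_atTop.1 hfr N
  obtain ⟨e, he, he1⟩ := frequently_atTop.1 hev i
  obtain ⟨j, hj1, hj2, hj3, hj4, hj5⟩ := hrec i hi hi1 hi2 e
  rw [hq, ← hj5]
  obtain ⟨k, rfl⟩ : ∃ k, j = i + k := ⟨j - i, by omega⟩
  have hki : i + k - i = k := by omega
  rw [hki]
  clear hj5
  -- the language of the state `q'` contains the one of `x`
  have hsub : S.ty x ⊆ plang δ pr q' := by
    obtain ⟨r, h1, h2⟩ := right_run h 0 i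
    have h3 := S.lety h2
    rw [pty h1, Nat.zero_add, hi1, hq, ders_plang] at h3
    have h4 : (seg γ 0 i).foldl δ q = q' := by
      have := run_seg δ q γ 0 i
      rw [Nat.zero_add, hi2] at this
      exact this.symm
    rw [h4] at h3
    exact h3
  refine Ac.mono hsub ?_
  have hkpos : 0 < k := by omega
  -- the right run
  have hR : ∀ l, ∃ r, Pth S.st x (seg γ i l) r ∧ S.le (θ (i + l)) r := by
    intro l
    rw [← hi1]
    exact right_run h i l
  choose R hR1 hR2 using hR
  by_cases hRk : R k = x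
  · by_contra hrej
    have hcyc : Pth S.st x (seg γ i k) x := by
      have := hR1 k
      rwa [hRk] at this
    have heq : ∀ l, l ≤ k → θ (i + l) = R l := by
      intro l hl
      by_contra hne
      obtain ⟨m, rfl⟩ : ∃ m, k = l + m := ⟨k - l, by omega⟩
      obtain ⟨T, hT1, hT2⟩ := right_run h (i + l) m
      have e1 : i + l + m = i + (l + m) := by omega
      rw [e1, hj3] at hT2
      have hT3 : Pth S.st (R l) (seg γ (i + l) m) x := by
        have h5 := hcyc
        rw [seg_add, pth_append] at h5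
        obtain ⟨r, h6, h7⟩ := h5
        rwa [← pdet (hR1 l) h6] at h7
      obtain ⟨r', h6, h7⟩ := monoP (hR2 l) hT1
      have h8 : r' = x := pdet h6 hT3
      rw [h8] at h7
      have h9 : T = x := S.antisymm h7 hT2
      rw [h9] at hT1
      have h10 := S.prog (hT1.append (hR1 l)) (by
        intro h11
        have h12 := List.append_eq_nil_iff.1 h11
        have := congrArg List.length h12.1
        have h13 := congrArg List.length h12.2
        rw [seg_length] at this h13
        simp at this h13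
        omega) (hR2 l) hne
      rw [ac_rot, ← pty hT1, ← seg_add] at h10
      exact hrej h10
    obtain ⟨l, rfl⟩ : ∃ l, e = i + l := ⟨e - i, by omega⟩
    apply he1
    have h1 : θ (i + l) = R l := heq l (by omega)
    have h2 : θ (i + l + 1) = R (l + 1) := heq (l + 1) (by omega)
    obtain ⟨m, hm⟩ : ∃ m, k = l + 1 + m := ⟨k - (l + 1), by omega⟩
    have h3 : S.st (R l) (γ (i + l)) (R (l + 1)) := by
      have := hR1 (l + 1)
      rw [seg_succ, pth_append] at this
      obtain ⟨r, h4, h5⟩ := this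
      rw [← pdet (hR1 l) h4, pth_single] at h5
      exact h5
    have h4 : Pth S.st (R (l + 1)) (seg γ (i + (l + 1)) m) x := by
      have := hcyc
      rw [hm, seg_add, pth_append] at this
      obtain ⟨r, h4, h5⟩ := this
      rwa [← pdet (hR1 (l + 1)) h4] at h5
    rw [h1, h2]
    refine ⟨h3, seg γ (i + (l + 1)) m ++ seg γ i l, h4.append (hR1 l), fun h5 => hrej ?_⟩
    have h6 : seg γ i k = seg γ i l ++ (γ (i + l) :: seg γ (i + (l + 1)) m) := by
      rw [hm, Nat.add_assoc, seg_add]
      congr 1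
      rw [Nat.add_comm 1 m, seg_head, Nat.add_assoc]
    rw [h6, ac_rot, ← pty (hR1 l)]
    simpa using h5
  · refine S.prog (hR1 k) (seg_ne _ _ hkpos) ?_ fun h1 => hRk h1.symm
    have := hR2 k
    rwa [hj3] at this

end Sys

/-- the property of two loops at one vertex -/
def TwoLoop (W : Set (ℕ → C)) : Prop := ∀ (u x y : List C), x ≠ [] → y ≠ [] →
  ders (ders W u) x = ders W u → ders (ders W u) y = ders W u → Ac (ders W u) (x ++ y) →
  Ac (ders W u) x ∨ Ac (ders W u) y

theorem Cond.twoLoop {W : Set (ℕ → C)} (hW : Cond W) : TwoLoop W := by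
  intro u x y hx hy hx' hy' h
  by_contra hno
  push Not at hno
  have h1 : Rej (ders W u) x := ⟨hx, hx', fun γ hγ hm => hno.1 ⟨hx, γ, hγ, hm⟩⟩
  have h2 : Rej (ders W u) y := ⟨hy, hy', fun γ hγ hm => hno.2 ⟨hy, γ, hγ, hm⟩⟩
  obtain ⟨-, γ, h3, h4⟩ := h
  exact (h1.append hW h2).2.2 γ h3 h4

namespace Sys

variable {W : Set (ℕ → C)} {F : Type} {fs : F → C → F → Prop} {S : Sys W F fs}

/-- two loops at a state -/
theorem two (hW : TwoLoop W) {p : S.P} {x y : List C} (hx : x ≠ []) (hy : y ≠ [])
    (h1 : ders (S.ty p) x = S.ty p) (h2 : ders (S.ty p) y = S.ty p)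
    (h : Ac (S.ty p) (x ++ y)) : Ac (S.ty p) x ∨ Ac (S.ty p) y := by
  obtain ⟨u, hu⟩ := S.res p
  rw [hu] at h1 h2 h ⊢
  exact hW u x y hx hy h1 h2 h

theorem cyc_ty {p : S.P} {x : List C} (h : Pth S.st p x p) : ders (S.ty p) x = S.ty p :=
  (pty h).symm

/-- rejecting cycles consist of transitions on rejecting cycles -/
theorem rej_bpath {p : S.P} {x : List C} (h : Pth S.st p x p) (hr : ¬ Ac (S.ty p) x) :
    Pth S.bst p x p := by
  have key : ∀ (b a : List C) (r : S.P), x = a ++ b → Pth S.st p a r → Pth S.st r b p →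
      Pth S.bst r b p := by
    intro b
    induction b with
    | nil => intro a r _ _ h3; exact h3
    | cons c b ih =>
      intro a r h1 h2 h3
      obtain ⟨r', h4, h5⟩ := h3
      refine ⟨r', ⟨h4, b ++ a, h5.append h2, fun h6 => hr ?_⟩, ?_⟩
      · rw [h1, ac_rot, ← pty h2]
        simpa using h6
      · exact ih (a ++ [c]) r' (by rw [h1]; simp) (h2.append (pth_single.2 h4)) h5
  exact key x [] p rfl rfl h

/-- paths of such transitions extend to rejecting cycles -/
theorem bpath_ext (hW : TwoLoop W) {p r : S.P} {u : List C} (h : Pth S.bst p u r) (hu : u ≠ []) :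
    ∃ v, Pth S.st r v p ∧ ¬ Ac (S.ty p) (u ++ v) := by
  induction u generalizing p with
  | nil => exact absurd rfl hu
  | cons c u ih =>
    obtain ⟨a, ⟨h1, z, h2, h3⟩, h4⟩ := h
    by_cases hu' : u = []
    · subst hu'
      have : a = r := h4
      rw [← this]
      exact ⟨z, h2, h3⟩
    · obtain ⟨v', h5, h6⟩ := ih h4 hu'
      have h7 : Pth S.st a (u ++ v') a := (toP h4).append h5
      have h8 : Pth S.st a (z ++ [c]) a := h2.append (pth_single.2 h1)
      have h9 : ¬ Ac (S.ty a) (z ++ [c]) := by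
        intro h10
        apply h3
        have : c :: z = [c] ++ z := rfl
        rw [this, ac_rot]
        have e : ders (S.ty p) [c] = S.ty a := (S.tyst h1).symm
        rw [e]; exact h10
      have h10 : ¬ Ac (S.ty a) ((u ++ v') ++ (z ++ [c])) := by
        intro h11
        rcases two hW (by intro h; exact hu' (List.append_eq_nil_iff.1 h).1) (by simp)
          (cyc_ty h7) (cyc_ty h8) h11 with h12 | h12
        · exact h6 h12
        · exact h9 h12
      refine ⟨v' ++ z, h5.append h2, fun h11 => h10 ?_⟩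
      have e1 : c :: u ++ (v' ++ z) = [c] ++ (u ++ v' ++ z) := by simp
      have e2 : (u ++ v') ++ (z ++ [c]) = (u ++ v' ++ z) ++ [c] := by simp
      rw [e1, ac_rot] at h11
      rw [e2]
      have e : ders (S.ty p) [c] = S.ty a := (S.tyst h1).symm
      rw [e] at h11
      exact h11

theorem bpath_ext' (hW : TwoLoop W) {p r : S.P} {u : List C} (h : Pth S.bst p u r)
    (hu : u ≠ []) : ∃ v, Pth S.bst r v p ∧ ¬ Ac (S.ty p) (u ++ v) := by
  obtain ⟨v, h1, h2⟩ := bpath_ext hW h hu
  have h3 := rej_bpath ((toP h).append h1) h2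
  rw [pth_append] at h3
  obtain ⟨r', h4, h5⟩ := h3
  rw [← bpdet h h4] at h5
  exact ⟨v, h5, h2⟩

end Sys

end Q222.CM
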