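import Mathlib
import Pool.Agent.Q222.CM.Sys

/-!
# Words which are factors of accepting cycles, and their continuations
-/

set_option autoImplicit false

open Filter

namespace Q222.CM

variable {C : Type}

namespace Sys

variable {W : Set (ℕ → C)} {F : Type} {fs : F → C → F → Prop} (S : Sys W F fs)

/-- the path from `p` with the label `w` is a part of an accepting cycle of rejecting transitions -/
def nb (p : S.P) (w : List C) : Prop :=
  ∃ r v, Pth S.bst p w r ∧ Pth S.bst r v p ∧ Ac (S.ty p) (w ++ v)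

/-- the continuations -/
def Kst (p : S.P) (w : List C) : Set (List C) := {v | S.nb p (w ++ v)}

variable {S}

theorem bac_rot {p r : S.P} {x y : List C} (h1 : Pth S.bst p x r) :
    Ac (S.ty p) (x ++ y) ↔ Ac (S.ty r) (y ++ x) := by
  rw [ac_rot, ← bpty h1]

theorem nb_right {p : S.P} {w w' : List C} (h : S.nb p (w ++ w')) : S.nb p w := by
  obtain ⟨r, v, h1, h2, h3⟩ := h
  rw [pth_append] at h1
  obtain ⟨r', h4, h5⟩ := h1
  exact ⟨r', w' ++ v, h4, h5.append h2, by rwa [← List.append_assoc]⟩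

theorem nb_left {p r : S.P} {w w' : List C} (h : S.nb p (w ++ w')) (hr : Pth S.bst p w r) :
    S.nb r w' := by
  obtain ⟨r', v, h1, h2, h3⟩ := h
  rw [pth_append] at h1
  obtain ⟨r'', h4, h5⟩ := h1
  have e : r'' = r := bpdet h4 hr
  subst e
  refine ⟨r', v ++ w, h5, h2.append h4, ?_⟩
  rw [List.append_assoc, bac_rot h4, List.append_assoc] at h3
  exact h3

theorem nb_path {p : S.P} {w : List C} (h : S.nb p w) : ∃ r, Pth S.bst p w r := by
  obtain ⟨r, v, h1, -, -⟩ := h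
  exact ⟨r, h1⟩

theorem rep_succ' (x : List C) (n : ℕ) : rep x (n + 1) = rep x n ++ x := by
  rw [rep_add]
  simp [rep]

theorem pth_rep {P : Type} {st : P → C → P → Prop} {p : P} {x : List C} (h : Pth st p x p)
    (n : ℕ) : Pth st p (rep x n) p := by
  induction n with
  | zero => exact rfl
  | succ n ih => exact h.append ih

theorem nb_cycle {p : S.P} {x : List C} (h1 : Pth S.bst p x p) (h2 : Ac (S.ty p) x) (n : ℕ) :
    S.nb p (rep x n) :=
  ⟨p, x, pth_rep h1 n, h1, by rw [← rep_succ']; exact (ac_rep n).2 h2⟩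

/-- the powers of an accepting cycle -/
theorem nb_pow {p r : S.P} {w v : List C} (h1 : Pth S.bst p w r) (h2 : Pth S.bst r v p)
    (h3 : Ac (S.ty p) (w ++ v)) (n : ℕ) : S.nb p (w ++ rep (v ++ w) n) := by
  have h4 := nb_cycle (h1.append h2) h3 (n + 1)
  have e : ∀ n, rep (w ++ v) (n + 1) = w ++ rep (v ++ w) n ++ v := by
    intro n
    induction n with
    | zero => simp [rep]
    | succ n ih => rw [rep, ih, rep]; simp
  rw [e] at h4
  exact nb_right h4

/-! ### the automaton of the continuations -/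

variable (S)

/-- the transitions -/
def ks (x : S.P × Set (List C)) (c : C) (y : S.P × Set (List C)) : Prop :=
  S.bst x.1 c y.1 ∧ [c] ∈ x.2 ∧ y.2 = {v | c :: v ∈ x.2}

/-- the states -/
def IsK (x : S.P × Set (List C)) : Prop :=
  ∃ p w, Pth S.bst p w x.1 ∧ S.nb p w ∧ x.2 = S.Kst p w

variable {S}

theorem ks_det {x : S.P × Set (List C)} {c : C} {y y' : S.P × Set (List C)} (h : S.ks x c y)
    (h' : S.ks x c y') : y = y' := by
  refine Prod.ext (S.bdet h.1 h'.1) ?_
  rw [h.2.2, h'.2.2]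

theorem kpdet {x y y' : S.P × Set (List C)} {u : List C} (h : Pth S.ks x u y)
    (h' : Pth S.ks x u y') : y = y' := Pth.det (st := S.ks) (fun h h' => ks_det h h') h h'

theorem IsK.nil {x : S.P × Set (List C)} (h : S.IsK x) : [] ∈ x.2 := by
  obtain ⟨p, w, h1, h2, h3⟩ := h
  rw [h3]
  change S.nb p (w ++ [])
  rwa [List.append_nil]

theorem IsK.right {x : S.P × Set (List C)} (h : S.IsK x) {u v : List C} (hu : u ++ v ∈ x.2) :
    u ∈ x.2 := by
  obtain ⟨p, w, h1, h2, h3⟩ := h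
  rw [h3] at hu ⊢
  change S.nb p (w ++ (u ++ v)) at hu
  rw [← List.append_assoc] at hu
  exact nb_right hu

/-- reading a word -/
theorem IsK.read {x : S.P × Set (List C)} (h : S.IsK x) {u : List C} (hu : u ∈ x.2) :
    ∃ r, Pth S.bst x.1 u r := by
  obtain ⟨p, w, h1, h2, h3⟩ := h
  rw [h3] at hu
  obtain ⟨r, h4⟩ := nb_path hu
  rw [pth_append] at h4
  obtain ⟨r', h5, h6⟩ := h4
  rw [bpdet h5 h1] at h6
  exact ⟨r, h6⟩

theorem IsK.step {x y : S.P × Set (List C)} (h : S.IsK x) {c : C} (hy : S.ks x c y) :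
    S.IsK y := by
  obtain ⟨p, w, h1, h2, h3⟩ := h
  obtain ⟨h4, h5, h6⟩ := hy
  refine ⟨p, w ++ [c], h1.append (pth_single.2 h4), by rw [h3] at h5; exact h5, ?_⟩
  rw [h6, h3]
  ext v
  change S.nb p (w ++ (c :: v)) ↔ S.nb p ((w ++ [c]) ++ v)
  simp

theorem IsK.path {x y : S.P × Set (List C)} (h : S.IsK x) {u : List C} (hy : Pth S.ks x u y) :
    S.IsK y := by
  induction u generalizing x with
  | nil => exact (show x = y from hy) ▸ h
  | cons c u ih =>
    obtain ⟨a, h1, h2⟩ := hy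
    exact ih (h.step h1) h2

theorem kpath {x y : S.P × Set (List C)} {u : List C} (hx : S.IsK x) :
    Pth S.ks x u y ↔ Pth S.bst x.1 u y.1 ∧ u ∈ x.2 ∧ y.2 = {v | u ++ v ∈ x.2} := by
  induction u generalizing x with
  | nil =>
    constructor
    · intro h
      have : x = y := h
      subst this
      exact ⟨rfl, hx.nil, rfl⟩
    · rintro ⟨h1, h2, h3⟩
      exact Prod.ext h1 h3.symm
  | cons c u ih =>
    constructor
    · rintro ⟨a, h1, h2⟩
      obtain ⟨h3, h4, h5⟩ := (ih (hx.step h1)).1 h2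
      obtain ⟨h6, h7, h8⟩ := h1
      rw [h8] at h4 h5
      exact ⟨⟨a.1, h6, h3⟩, h4, h5⟩
    · rintro ⟨⟨a, h1, h2⟩, h3, h4⟩
      have h5 : [c] ∈ x.2 := hx.right (u := [c]) (v := u) h3
      have h6 : S.ks x c (a, {v | c :: v ∈ x.2}) := ⟨h1, h5, rfl⟩
      exact ⟨_, h6, (ih (hx.step h6)).2 ⟨h2, h3, h4⟩⟩

theorem kread {x : S.P × Set (List C)} {u : List C} (hx : S.IsK x) (hu : u ∈ x.2) :
    ∃ r, Pth S.ks x u (r, {v | u ++ v ∈ x.2}) := by
  obtain ⟨r, h1⟩ := hx.read hu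
  exact ⟨r, (kpath hx).2 ⟨h1, hu, rfl⟩⟩

theorem kpath_b {x y : S.P × Set (List C)} {u : List C} (h : Pth S.ks x u y) :
    Pth S.bst x.1 u y.1 :=
  h.map (f := Prod.fst) (st' := S.bst) fun h => h.1

/-! ### finiteness -/

section fin

variable {Q : Type} {δ : Q → C → Q} {pr : Q → C → ℕ} {B : ℕ}
  (hB : ∀ q c, pr q c ≤ B) {q0 : Q} (hW : W = plang δ pr q0)

include hW in
theorem ty_plang (p : S.P) : ∃ q, S.ty p = plang δ pr q := by
  obtain ⟨u, hu⟩ := S.res p
  exact ⟨u.foldl δ q0, by rw [hu, hW, ders_plang]⟩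

include hW in
theorem nb_congr {p p' : S.P} {w w' : List C} (h1 : Pth S.bst p w p') (h2 : Pth S.bst p w' p')
    (h3 : w = [] ↔ w' = []) (h4 : ∀ q, w.foldl δ q = w'.foldl δ q ∧ mp δ pr q w = mp δ pr q w')
    {v : List C} (h : S.nb p (w ++ v)) : S.nb p (w' ++ v) := by
  obtain ⟨r, v', h5, h6, h7⟩ := h
  rw [pth_append] at h5
  obtain ⟨r', h8, h9⟩ := h5
  rw [bpdet h8 h1] at h9
  refine ⟨r, v', h2.append h9, h6, ?_⟩
  obtain ⟨q, hq⟩ := ty_plang (S := S) hW p
  rw [hq] at h7 ⊢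
  have hne : w' ++ v ++ v' ≠ [] := by
    intro h
    apply h7.1
    rw [List.append_assoc, List.append_eq_nil_iff] at h ⊢
    exact ⟨h3.2 h.1, h.2⟩
  refine (ac_congr δ pr h7.1 hne (fun q => ?_) q).1 h7
  constructor
  · simp only [List.foldl_append, (h4 q).1]
  · simp only [mp_append, List.foldl_append, (h4 q).1, (h4 q).2]

include hB hW in
theorem isK_finite [Finite Q] : {x | S.IsK x}.Finite := by
  classical
  have := S.fin
  let tp : List C → Prop × (Q → Q × Fin (B + 1)) := fun w =>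
    (w = [], fun q => (w.foldl δ q, ⟨mp δ pr q w, Nat.lt_succ_of_le (mp_bound δ pr hB q w)⟩))
  let Φ : S.P × S.P × (Prop × (Q → Q × Fin (B + 1))) → S.P × Set (List C) := fun a =>
    (a.2.1, {v | ∃ w, Pth S.bst a.1 w a.2.1 ∧ tp w = a.2.2 ∧ S.nb a.1 (w ++ v)})
  refine (Set.finite_range Φ).subset ?_
  rintro ⟨p', K⟩ ⟨p, w, h1, h2, h3⟩
  refine ⟨(p, p', tp w), Prod.ext rfl ?_⟩
  change {v | ∃ w', Pth S.bst p w' p' ∧ tp w' = tp w ∧ S.nb p (w' ++ v)} = K
  have h3' : K = S.Kst p w := h3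
  rw [h3']
  ext v
  constructor
  · rintro ⟨w', h4, h5, h6⟩
    have h7 : (w' = []) = (w = []) := congrArg Prod.fst h5
    have h8 := congrArg Prod.snd h5
    refine nb_congr hW h4 h1 (by rw [h7]) (fun q => ?_) h6
    have h9 := congrFun h8 q
    simp only [tp, Prod.mk.injEq, Fin.mk.injEq] at h9
    exact h9
  · intro h
    exact ⟨w, h1, rfl, h⟩

end fin

end Sys

end Q222.CM
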