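import Mathlib
import Pool.Agent.Q222.CM.Bad

/-!
# Bottom states of the automaton of the continuations; the system of a component
-/

set_option autoImplicit false

open Filter

namespace Q222.CM

variable {C : Type}

namespace Sys

variable {W : Set (ℕ → C)} {F : Type} {fs : F → C → F → Prop} (S : Sys W F fs)

/-- from all states which can be reached one can come back -/
def Bot (x : S.P × Set (List C)) : Prop :=
  S.IsK x ∧ ∀ y u, Pth S.ks x u y → ∃ v, Pth S.ks y v x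

variable {S}

theorem Bot.step {x y : S.P × Set (List C)} {u : List C} (h : S.Bot x) (hy : Pth S.ks x u y) :
    S.Bot y := by
  refine ⟨h.1.path hy, fun z w hz => ?_⟩
  obtain ⟨v, hv⟩ := h.2 z (u ++ w) (hy.append hz)
  exact ⟨v ++ u, hv.append hy⟩

theorem exists_bot (hfin : {x | S.IsK x}.Finite) {x : S.P × Set (List C)} (hx : S.IsK x) :
    ∃ u y, Pth S.ks x u y ∧ S.Bot y := by
  classical
  let R : S.P × Set (List C) → Set (S.P × Set (List C)) := fun y => {z | ∃ u, Pth S.ks y u z}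
  have hR : ∀ y, S.IsK y → (R y).Finite := fun y hy =>
    hfin.subset fun z hz => by
      obtain ⟨u, hu⟩ := hz
      exact hy.path hu
  have hex : ∃ n y, y ∈ R x ∧ (R y).ncard = n := ⟨_, x, ⟨[], rfl⟩, rfl⟩
  obtain ⟨y, ⟨u, hu⟩, hy2⟩ := Nat.find_spec hex
  have hyK := hx.path hu
  refine ⟨u, y, hu, hyK, fun z w hz => ?_⟩
  have hzx : z ∈ R x := ⟨u ++ w, hu.append hz⟩
  have h1 : (R y).ncard ≤ (R z).ncard := by
    rw [hy2]
    exact Nat.find_min' hex ⟨z, hzx, rfl⟩
  have h2 : R z ⊆ R y := by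
    rintro t ⟨v, hv⟩
    exact ⟨w ++ v, hz.append hv⟩
  have h3 : R z = R y := Set.eq_of_subset_of_ncard_le h2 h1 (hR y hyK)
  have h4 : y ∈ R z := by
    rw [h3]
    exact ⟨[], rfl⟩
  exact h4

/-- words after which the continuations are those of the state -/
def Sync (x : S.P × Set (List C)) (z : List C) : Prop :=
  Pth S.bst x.1 z x.1 ∧ x.2 = S.Kst x.1 z ∧ Pth S.ks x z x

theorem Sync.move {x y : S.P × Set (List C)} {z u v : List C} (hx : S.IsK x)
    (h : Sync x z) (hu : Pth S.ks x u y) (hv : Pth S.ks y v x) :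
    Sync y (v ++ (z ++ u)) := by
  obtain ⟨h1, h2, h3⟩ := h
  have hub := kpath_b hu
  have hvb := kpath_b hv
  refine ⟨hvb.append (h1.append hub), ?_, hv.append (h3.append hu)⟩
  ext w
  obtain ⟨-, -, h4⟩ := (kpath hx).1 hu
  constructor
  · intro hw
    rw [h4] at hw
    have hw' : u ++ w ∈ x.2 := hw
    have h5 : Pth S.ks x (u ++ (v ++ z)) x := hu.append (hv.append h3)
    obtain ⟨-, -, h6⟩ := (kpath hx).1 h5
    rw [h6] at hw'
    have h7 : (u ++ (v ++ z)) ++ (u ++ w) ∈ S.Kst x.1 z := by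
      rw [← h2]; exact hw'
    change S.nb x.1 (z ++ ((u ++ (v ++ z)) ++ (u ++ w))) at h7
    have e : z ++ ((u ++ (v ++ z)) ++ (u ++ w)) = (z ++ u) ++ ((v ++ (z ++ u)) ++ w) := by simp
    rw [e] at h7
    exact nb_left h7 (h1.append hub)
  · intro hw
    change S.nb y.1 ((v ++ (z ++ u)) ++ w) at hw
    have e : (v ++ (z ++ u)) ++ w = v ++ (z ++ (u ++ w)) := by simp
    rw [e] at hw
    have h5 := nb_left hw hvb
    rw [h4]
    change u ++ w ∈ x.2
    rw [h2]
    exact h5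

theorem exists_sync (hfin : {x | S.IsK x}.Finite) {x : S.P × Set (List C)} (hx : S.Bot x) :
    ∃ z, Sync x z := by
  classical
  obtain ⟨p, w, h1, h2, h3⟩ := hx.1
  obtain ⟨r, v, h4, h5, h6⟩ := h2
  have hr : r = x.1 := bpdet h4 h1
  subst hr
  -- the states after the powers of `v w`
  let y : ℕ → S.P × Set (List C) := fun n => (x.1, S.Kst p (w ++ rep (v ++ w) n))
  have hcyc : ∀ n, Pth S.bst x.1 (rep (v ++ w) n) x.1 := pth_rep (h5.append h1)
  have hy : ∀ n, Pth S.ks x (rep (v ++ w) n) (y n) := by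
    intro n
    rw [kpath hx.1]
    refine ⟨hcyc n, ?_, ?_⟩
    · rw [h3]
      exact nb_pow h1 h5 h6 n
    · rw [h3]
      ext t
      change S.nb p ((w ++ rep (v ++ w) n) ++ t) ↔ S.nb p (w ++ (rep (v ++ w) n ++ t))
      rw [List.append_assoc]
  have hanti : ∀ n, (y (n + 1)).2 ⊆ (y n).2 := by
    intro n t ht
    change S.nb p ((w ++ rep (v ++ w) (n + 1)) ++ t) at ht
    have e : (w ++ rep (v ++ w) (n + 1)) ++ t = (w ++ v) ++ ((w ++ rep (v ++ w) n) ++ t) := by
      rw [rep]; simp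
    rw [e] at ht
    exact nb_left ht (h1.append h5)
  have hanti' : ∀ n m, n ≤ m → (y m).2 ⊆ (y n).2 := by
    intro n m h
    induction m, h using Nat.le_induction with
    | base => exact subset_rfl
    | succ m _ ih => exact (hanti m).trans ih
  -- it becomes stable
  obtain ⟨N, hN⟩ : ∃ N, ∀ n, N ≤ n → y n = y N := by
    have := hfin.to_subtype
    obtain ⟨a, ha⟩ := freq_pigeon (p := fun _ => True) (Frequently.of_forall fun _ => trivial)
      fun n => (⟨y n, hx.1.path (hy n)⟩ : {x | S.IsK x})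
    obtain ⟨N, hN⟩ := ha.exists
    refine ⟨N, fun n hn => Prod.ext rfl (Set.Subset.antisymm (hanti' N n hn) ?_)⟩
    obtain ⟨m, hm, hm1⟩ := frequently_atTop.1 ha n
    have e : y m = y N := congrArg Subtype.val (hm1.2.trans hN.2.symm)
    rw [← e]
    exact hanti' n m hm
  -- the stable state
  have hst : Sync (y N) (rep (v ++ w) (N + 1)) := by
    refine ⟨hcyc _, ?_, ?_⟩
    · apply Set.Subset.antisymm
      · rw [← hN (N + 1) (by omega)]
        intro t ht
        change S.nb p ((w ++ rep (v ++ w) (N + 1)) ++ t) at ht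
        rw [List.append_assoc] at ht
        exact nb_left ht h1
      · intro t ht
        change S.nb x.1 (rep (v ++ w) (N + 1) ++ t) at ht
        have e : rep (v ++ w) (N + 1) ++ t = v ++ ((w ++ rep (v ++ w) N) ++ t) := by
          rw [rep]; simp
        rw [e] at ht
        exact nb_left ht h5
    · rw [kpath (hx.1.path (hy N))]
      refine ⟨hcyc _, ?_, ?_⟩
      · change S.nb p ((w ++ rep (v ++ w) N) ++ rep (v ++ w) (N + 1))
        rw [List.append_assoc, ← rep_add]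
        exact nb_pow h1 h5 h6 _
      · conv_lhs => rw [← hN (N + (N + 1)) (by omega)]
        ext t
        change S.nb p ((w ++ rep (v ++ w) (N + (N + 1))) ++ t) ↔
          S.nb p ((w ++ rep (v ++ w) N) ++ (rep (v ++ w) (N + 1) ++ t))
        rw [rep_add]
        simp
  obtain ⟨t, ht⟩ := hx.2 _ _ (hy N)
  exact ⟨_, hst.move (hx.1.path (hy N)) ht (hy N)⟩

/-- words which are not bad can be read from a bottom state -/
theorem exists_bot_read (hfin : {x | S.IsK x}.Finite) {p : S.P} {w : List C} (h : S.nb p w) :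
    ∃ y, S.Bot y ∧ y.1 = p ∧ w ∈ y.2 := by
  obtain ⟨r, h1⟩ := nb_path h
  have hK : S.IsK (r, S.Kst p w) := ⟨p, w, h1, h, rfl⟩
  obtain ⟨u, y, h2, h3⟩ := exists_bot hfin hK
  obtain ⟨h4, h5, h6⟩ := (kpath hK).1 h2
  have h7 : S.nb p (w ++ u) := h5
  obtain ⟨r', v, h8, h9, h10⟩ := h7
  have e : r' = y.1 := bpdet h8 (h1.append h4)
  subst e
  have h11 : y.2 = S.Kst p (w ++ u) := by
    rw [h6]
    ext t
    change S.nb p (w ++ (u ++ t)) ↔ S.nb p ((w ++ u) ++ t)
    rw [List.append_assoc]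
  have h12 : v ∈ y.2 := by
    rw [h11]
    change S.nb p ((w ++ u) ++ v)
    have := nb_cycle (h8.append h9) h10 1
    simpa [rep] using this
  have h13 : Pth S.ks y v (p, {t | v ++ t ∈ y.2}) := (kpath h3.1).2 ⟨h9, h12, rfl⟩
  refine ⟨_, h3.step h13, rfl, ?_⟩
  change v ++ w ∈ y.2
  rw [h11]
  change S.nb p ((w ++ u) ++ (v ++ w))
  have h14 := nb_cycle (h8.append h9) h10 2
  have e2 : rep (w ++ u ++ v) 2 = (w ++ u ++ (v ++ w)) ++ (u ++ v) := by simp [rep]
  rw [e2] at h14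
  exact nb_right h14

/-- in an accepted word eventually all factors are not bad -/
theorem eventually_nb {Q : Type} [Finite Q] {δ : Q → C → Q} {pr : Q → C → ℕ} {B : ℕ}
    (hB : ∀ q c, pr q c ≤ B) {q0 : Q} (hW : W = plang δ pr q0) {ρ : ℕ → S.P} {γ : ℕ → C}
    (h : ∀ n, S.bst (ρ n) (γ n) (ρ (n + 1))) (hacc : γ ∈ S.ty (ρ 0)) :
    ∃ N, ∀ a, N ≤ a → ∀ k, S.nb (ρ a) (seg γ a k) := by
  have := S.fin
  obtain ⟨q, hq⟩ := ty_plang (S := S) hW (ρ 0)
  obtain ⟨N, x, q', hfr, hrec⟩ := recur δ pr hB q γ ρ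
  obtain ⟨i, hi, hi1, hi2⟩ := frequently_atTop.1 hfr N
  refine ⟨i, fun a ha k => ?_⟩
  obtain ⟨j, hj1, hj2, hj3, hj4, hj5⟩ := hrec i hi hi1 hi2 (a + k)
  rw [hq] at hacc
  have hac := hj5.2 hacc
  have hty : S.ty x = plang δ pr q' := by
    have h1 := bpty (pth_seg h 0 i)
    rw [Nat.zero_add, hi1, hq, ders_plang] at h1
    have h4 : (seg γ 0 i).foldl δ q = q' := by
      have := run_seg δ q γ 0 i
      rw [Nat.zero_add, hi2] at this
      exact this.symm
    rw [h4] at h1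
    exact h1
  rw [← hty] at hac
  obtain ⟨l, rfl⟩ : ∃ l, a = i + l := ⟨a - i, by omega⟩
  obtain ⟨m, rfl⟩ : ∃ m, j = i + l + k + m := ⟨j - (i + l + k), by omega⟩
  have e : i + l + k + m - i = l + (k + m) := by omega
  rw [e, seg_add, seg_add] at hac
  have h1 : Pth S.bst x (seg γ i l) (ρ (i + l)) := hi1 ▸ pth_seg h i l
  have h2 : Pth S.bst (ρ (i + l)) (seg γ (i + l) k) (ρ (i + l + k)) := pth_seg h (i + l) k
  have h3 : Pth S.bst (ρ (i + l + k)) (seg γ (i + l + k) m) x := by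
    have := pth_seg h (i + l + k) m
    rwa [hj3] at this
  refine ⟨_, seg γ (i + l + k) m ++ seg γ i l, h2, h3.append h1, ?_⟩
  rw [bac_rot h1, List.append_assoc] at hac
  exact hac

/-! ### the component of a bottom state -/

section next

variable (hfin : {x | S.IsK x}.Finite) (h2l : TwoLoop W) {x : S.P × Set (List C)} (hx : S.Bot x)

/-- states which can be reached -/
abbrev NP (x : S.P × Set (List C)) : Type := {y : S.P × Set (List C) // ∃ u, Pth S.ks x u y}

theorem npath {a b : NP x} {u : List C} :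
    Pth (fun (a : NP x) c (b : NP x) => S.ks a.1 c b.1) a u b ↔ Pth S.ks a.1 u b.1 := by
  constructor
  · intro h
    exact h.map (f := Subtype.val) (st' := S.ks) fun h => h
  · intro h
    induction u generalizing a with
    | nil => exact Subtype.ext h
    | cons c u ih =>
      obtain ⟨r, h1, h2⟩ := h
      obtain ⟨v, hv⟩ := a.2
      exact ⟨⟨r, v ++ [c], hv.append (pth_single.2 h1)⟩, h1, ih h2⟩

include hfin h2l in
theorem bot_total {a b : S.P × Set (List C)} (ha : S.Bot a) {u : List C}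
    (hab : Pth S.ks a u b) (h1 : a.1 = b.1) : a.2 ⊆ b.2 ∨ b.2 ⊆ a.2 := by
  have hb := ha.step hab
  obtain ⟨z1, hz1⟩ := exists_sync hfin ha
  obtain ⟨z2, hz2⟩ := exists_sync hfin hb
  by_contra hno
  push Not at hno
  obtain ⟨v1, hv1, hv1'⟩ := Set.not_subset.1 hno.1
  obtain ⟨v2, hv2, hv2'⟩ := Set.not_subset.1 hno.2
  -- read `v1`, go to `b`, read `z2 v2`
  obtain ⟨r1, hr1⟩ := kread ha.1 hv1
  obtain ⟨y0, hy0⟩ := ha.2 _ _ hr1
  have hy1 := hy0.append hab
  have h3 : Pth S.ks a (v1 ++ ((y0 ++ u) ++ z2)) b := hr1.append (hy1.append hz2.2.2)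
  have h4 : (v1 ++ ((y0 ++ u) ++ z2)) ++ v2 ∈ a.2 := by
    obtain ⟨-, -, h5⟩ := (kpath ha.1).1 h3
    rw [h5] at hv2
    exact hv2
  rw [hz1.2.1] at h4
  change S.nb a.1 (z1 ++ ((v1 ++ ((y0 ++ u) ++ z2)) ++ v2)) at h4
  obtain ⟨r, t, h5, h6, h7⟩ := h4
  have h3b := kpath_b h3
  rw [← h1] at h3b
  have h8 : Pth S.bst a.1 (v2 ++ (t ++ z1)) a.1 := by
    rw [pth_append, ] at h5
    obtain ⟨r', h9, h10⟩ := h5
    rw [bpdet h9 hz1.1, pth_append] at h10
    obtain ⟨r'', h11, h12⟩ := h10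
    rw [bpdet h11 h3b] at h12
    exact h12.append (h6.append hz1.1)
  have hne1 : v1 ≠ [] := by rintro rfl; exact hv1' hb.1.nil
  have hne2 : v2 ≠ [] := by rintro rfl; exact hv2' ha.1.nil
  have h9 : Ac (S.ty a.1) ((v1 ++ ((y0 ++ u) ++ z2)) ++ (v2 ++ (t ++ z1))) := by
    have e : z1 ++ ((v1 ++ ((y0 ++ u) ++ z2)) ++ v2) ++ t =
      z1 ++ (((v1 ++ ((y0 ++ u) ++ z2)) ++ v2) ++ t) := by simp
    rw [e, bac_rot hz1.1] at h7
    simpa using h7
  rcases two h2l (p := a.1) (by intro h; exact hne1 (List.append_eq_nil_iff.1 h).1)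
    (by intro h; exact hne2 (List.append_eq_nil_iff.1 h).1) (cyc_ty (toP h3b))
    (cyc_ty (toP h8)) h9 with h10 | h10
  · -- then `z2 v1` is not bad
    apply hv1'
    rw [hz2.2.1, ← h1]
    change S.nb a.1 (z2 ++ v1)
    have hz2b : Pth S.bst a.1 z2 a.1 := by rw [h1]; exact hz2.1
    have e : v1 ++ ((y0 ++ u) ++ z2) = (v1 ++ (y0 ++ u)) ++ z2 := by simp
    rw [e] at h10 h3b
    rw [pth_append] at h3b
    obtain ⟨s, h11, h12⟩ := h3b
    rw [bac_rot h11] at h10
    have h13 : s = a.1 := by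
      have h14 := kpath_b (hr1.append hy1)
      rw [← h1] at h14
      exact bpdet h11 h14
    subst h13
    obtain ⟨s', h14, h15⟩ := pth_append.1 h11
    refine ⟨s', y0 ++ u, hz2b.append h14, h15, ?_⟩
    simpa using h10
  · apply hv2'
    rw [hz1.2.1]
    change S.nb a.1 (z1 ++ v2)
    have e : v2 ++ (t ++ z1) = (v2 ++ t) ++ z1 := by simp
    rw [e] at h10 h8
    rw [pth_append] at h8
    obtain ⟨s, h11, h12⟩ := h8
    rw [bac_rot h11] at h10
    obtain ⟨s', h14, h15⟩ := pth_append.1 h11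
    have h13 : s = a.1 := by
      rw [pth_append] at h5
      obtain ⟨r', h16, h17⟩ := h5
      rw [bpdet h16 hz1.1, pth_append] at h17
      obtain ⟨r'', h18, h19⟩ := h17
      rw [bpdet h18 (kpath_b h3 |> fun h => by rw [← h1] at h; exact h)] at h19
      exact bpdet h11 (h19.append h6)
    subst h13
    refine ⟨s', t, hz1.1.append h14, h15, ?_⟩
    simpa using h10

include hfin h2l in
theorem bot_prog {a b : S.P × Set (List C)} (ha : S.Bot a) {w : List C}
    (hab : Pth S.ks a w b) (h1 : a.1 = b.1) (hw : w ≠ []) (hsub : a.2 ⊆ b.2) (hne : a ≠ b) :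
    Ac (S.ty a.1) w := by
  obtain ⟨z, hz⟩ := exists_sync hfin ha
  have hns : ¬ b.2 ⊆ a.2 := fun h => hne (Prod.ext h1 (Set.Subset.antisymm hsub h))
  obtain ⟨v, hv, hv'⟩ := Set.not_subset.1 hns
  obtain ⟨hb1, hb2, hb3⟩ := (kpath ha.1).1 hab
  have h4 : w ++ v ∈ a.2 := by rw [hb3] at hv; exact hv
  rw [hz.2.1] at h4
  change S.nb a.1 (z ++ (w ++ v)) at h4
  obtain ⟨r, t, h5, h6, h7⟩ := h4
  rw [← h1] at hb1
  obtain ⟨r', h8, h9⟩ := pth_append.1 h5
  rw [bpdet h8 hz.1] at h9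
  obtain ⟨r'', h10, h11⟩ := pth_append.1 h9
  rw [bpdet h10 hb1] at h11
  have hne2 : v ≠ [] := by rintro rfl; exact hv' ha.1.nil
  have h12 : Pth S.bst a.1 (v ++ (t ++ z)) a.1 := h11.append (h6.append hz.1)
  have h13 : Ac (S.ty a.1) (w ++ (v ++ (t ++ z))) := by
    have e : z ++ (w ++ v) ++ t = z ++ ((w ++ v) ++ t) := by simp
    rw [e, bac_rot hz.1] at h7
    simpa using h7
  rcases two h2l (p := a.1) hw (by intro h; exact hne2 (List.append_eq_nil_iff.1 h).1)
    (cyc_ty (toP hb1)) (cyc_ty (toP h12)) h13 with h14 | h14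
  · exact h14
  · exfalso
    apply hv'
    rw [hz.2.1]
    change S.nb a.1 (z ++ v)
    have e : v ++ (t ++ z) = (v ++ t) ++ z := by simp
    rw [e, bac_rot (h11.append h6)] at h14
    exact ⟨r, t, hz.1.append h11, h6, by simpa using h14⟩

/-- the system of the component of a bottom state -/
def next (hfin : {x | S.IsK x}.Finite) (h2l : TwoLoop W) {x : S.P × Set (List C)}
    (hx : S.Bot x) : Sys W S.P S.bst where
  P := NP x
  fin := by
    have := hfin.to_subtype
    exact Finite.of_injective (β := {x | S.IsK x})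
      (fun a => ⟨a.1, by obtain ⟨u, hu⟩ := a.2; exact hx.1.path hu⟩)
      (fun a b h => Subtype.ext (congrArg (fun t : {x | S.IsK x} => t.1) h))
  st a c b := S.ks a.1 c b.1
  det h h' := Subtype.ext (ks_det h h')
  ty a := S.ty a.1.1
  res a := S.res a.1.1
  tyst h := S.tyst h.1.1
  fb a := a.1.1
  fst h := h.1
  le a b := a.1.1 = b.1.1 ∧ a.1.2 ⊆ b.1.2
  refl a := ⟨rfl, subset_rfl⟩
  trans h h' := ⟨h.1.trans h'.1, h.2.trans h'.2⟩
  antisymm h h' := Subtype.ext (Prod.ext h.1 (Set.Subset.antisymm h.2 h'.2))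
  lefb h := h.1
  tot {a b} h := by
    obtain ⟨u, hu⟩ := a.2
    obtain ⟨v, hv⟩ := b.2
    obtain ⟨w, hw⟩ := hx.2 _ _ hu
    rcases bot_total hfin h2l (hx.step hu) (hw.append hv) h with h1 | h1
    · exact Or.inl ⟨h, h1⟩
    · exact Or.inr ⟨h.symm, h1⟩
  lety h := by rw [h.1]
  mono {a b c r} h h1 := by
    obtain ⟨u, hu⟩ := b.2
    have h2 : S.ks b.1 c (r.1.1, {v | c :: v ∈ b.1.2}) := ⟨h.1 ▸ h1.1, h.2 h1.2.1, rfl⟩
    refine ⟨⟨_, u ++ [c], hu.append (pth_single.2 h2)⟩, h2, rfl, ?_⟩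
    rw [h1.2.2]
    exact fun v hv => h.2 hv
  prog {a b w} h h1 h2 h3 := by
    obtain ⟨u, hu⟩ := a.2
    exact bot_prog hfin h2l (hx.step hu) (npath.1 h) h2.1 h1 h2.2 fun h4 => h3 (Subtype.ext h4)

end next

end Sys

end Q222.CM
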