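import Mathlib
import Pool.Agent.Q222.CM.Comp

/-!
# The number of priorities decreases
-/

set_option autoImplicit false

open Filter

namespace Q222.CM

variable {C : Type}

section lower

variable {P F : Type} (st : P → C → P → Prop) (ty : P → Set (ℕ → C)) (fb : P → F)
  {Q : Type} (δ : Q → C → Q) (pr : Q → C → ℕ)

/-- some state of the parity automaton for the language of `x` sees no priority above `m` -/
def BdAt (x : P) (m : ℕ) : Prop :=
  ∃ q, ty x = plang δ pr q ∧ ∀ u y, Pth st x u y → mp δ pr q u ≤ m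

variable {st ty δ pr}

theorem BdAt.move (htyst : ∀ {p c r}, st p c r → ty r = der (ty p) c) {x y : P} {u : List C}
    {m : ℕ} (h : BdAt st ty δ pr x m) (hu : Pth st x u y) : BdAt st ty δ pr y m := by
  obtain ⟨q, h1, h2⟩ := h
  refine ⟨u.foldl δ q, by rw [Pth.ty (T := ty) @htyst hu, h1, ders_plang], fun v z hz => ?_⟩
  have := h2 _ _ (hu.append hz)
  rw [mp_append] at this
  exact (le_max_right _ _).trans this

theorem lower [Finite P] [Finite Q]
    (htyst : ∀ {p c r}, st p c r → ty r = der (ty p) c) {x : P} {m : ℕ}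
    (hx : BdAt st ty δ pr x m)
    (hext : ∀ y u, Pth st x u y → ∀ w z, Pth st y w z → ∃ (t : List C) (xs : ℕ → P),
      w ++ t ≠ [] ∧ xs 0 = y ∧ (∀ n, Pth st (xs n) (w ++ t) (xs (n + 1)) ∧ fb (xs n) = fb y) ∧
      (Ac (ty y) (w ++ t) ↔ ¬ Even m)) :
    ∃ u y m', Pth st x u y ∧ m' < m ∧ BdAt st ty δ pr y m' := by
  classical
  by_contra hno
  push Not at hno
  obtain ⟨q, hq, hbd⟩ := hx
  have htyu : ∀ y u, Pth st x u y → ty y = plang δ pr (u.foldl δ q) := by
    intro y u hu
    rw [Pth.ty (T := ty) @htyst hu, hq, ders_plang]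
  have hsee : ∀ y u, Pth st x u y → ∃ v z, Pth st y v z ∧ m ≤ mp δ pr (u.foldl δ q) v := by
    intro y u hu
    rcases Nat.eq_zero_or_pos m with h0 | h0
    · exact ⟨[], y, rfl, by omega⟩
    · by_contra h1
      push Not at h1
      refine hno u y (m - 1) hu (by omega) ⟨_, htyu y u hu, fun v z hz => ?_⟩
      have := h1 v z hz
      omega
  have hbd' : ∀ y u, Pth st x u y → ∀ v z, Pth st y v z → mp δ pr (u.foldl δ q) v ≤ m := by
    intro y u hu v z hz
    have := hbd _ _ (hu.append hz)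
    rw [mp_append] at this
    exact (le_max_right _ _).trans this
  -- a word which sees `m` from all states from which it can be read
  have huniv : ∀ A : Finset (P × Q), ∃ y₁ u₁ w z₁, Pth st x u₁ y₁ ∧ fb y₁ = fb x ∧
      Pth st y₁ w z₁ ∧ ∀ a ∈ A, (∃ u', Pth st x u' a.1 ∧ a.2 = u'.foldl δ q) → fb a.1 = fb x →
      (∃ z, Pth st a.1 w z) → m ≤ mp δ pr a.2 w := by
    intro A
    induction A using Finset.induction_on with
    | empty => exact ⟨x, [], [], x, rfl, rfl, rfl, fun a ha => absurd ha (Finset.notMem_empty _)⟩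
    | insert a A _ ih =>
      obtain ⟨y₁, u₁, w, z₁, h1, h2, h3, h4⟩ := ih
      by_cases ha : (∃ u', Pth st x u' a.1 ∧ a.2 = u'.foldl δ q) ∧ fb a.1 = fb x ∧
          ∃ z, Pth st a.1 w z
      · obtain ⟨⟨u', h5, h6⟩, h7, z, h8⟩ := ha
        obtain ⟨v, z', h9, h10⟩ := hsee z (u' ++ w) (h5.append h8)
        refine ⟨a.1, u', w ++ v, z', h5, h7, h8.append h9, fun b hb h11 h12 h13 => ?_⟩
        rw [mp_append]
        rcases Finset.mem_insert.1 hb with h14 | h14
        · rw [h14, h6]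
          rw [List.foldl_append] at h10
          exact h10.trans (le_max_right _ _)
        · obtain ⟨z'', h15⟩ := h13
          rw [pth_append] at h15
          obtain ⟨z3, h16, -⟩ := h15
          exact (h4 b h14 h11 h12 ⟨z3, h16⟩).trans (le_max_left _ _)
      · refine ⟨y₁, u₁, w, z₁, h1, h2, h3, fun b hb h11 h12 h13 => ?_⟩
        rcases Finset.mem_insert.1 hb with h14 | h14
        · rw [h14] at h11 h12 h13
          exact absurd ⟨h11, h12, h13⟩ ha
        · exact h4 b h14 h11 h12 h13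
  have := Fintype.ofFinite P
  have := Fintype.ofFinite Q
  obtain ⟨y₁, u₁, w, z₁, h1, h2, h3, h4⟩ := huniv Finset.univ
  obtain ⟨t, xs, h5, h6, h7, h8⟩ := hext y₁ u₁ h1 w z₁ h3
  let qs : ℕ → Q := fun n => Nat.rec (u₁.foldl δ q) (fun _ q => (w ++ t).foldl δ q) n
  have hqs : ∀ n, qs (n + 1) = (w ++ t).foldl δ (qs n) := fun n => rfl
  have hreach : ∀ n, ∃ u', Pth st x u' (xs n) ∧ qs n = u'.foldl δ q := by
    intro n
    induction n with
    | zero => exact ⟨u₁, by rw [h6]; exact h1, rfl⟩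
    | succ n ih =>
      obtain ⟨u', h9, h10⟩ := ih
      refine ⟨u' ++ (w ++ t), h9.append (h7 n).1, ?_⟩
      rw [hqs, h10, ← List.foldl_append]
  have hm : ∀ n, mp δ pr (qs n) (w ++ t) = m := by
    intro n
    obtain ⟨u', h9, h10⟩ := hreach n
    apply le_antisymm
    · rw [h10]
      exact hbd' _ _ h9 _ _ (h7 n).1
    · rw [mp_append]
      refine le_trans ?_ (le_max_left _ _)
      have h11 := (h7 n).1
      rw [pth_append] at h11
      obtain ⟨z, h12, -⟩ := h11
      exact h4 (xs n, qs n) (Finset.mem_univ _) ⟨u', h9, h10⟩ ((h7 n).2.trans h2) ⟨z, h12⟩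
  have h9 := ac_plang δ pr h5 qs hqs
  simp only [hm] at h9
  rw [parAcc_const] at h9
  have h10 : ty y₁ = plang δ pr (qs 0) := htyu y₁ u₁ h1
  rw [h10, h9] at h8
  tauto

end lower

namespace Sys

variable {W : Set (ℕ → C)} {F : Type} {fs : F → C → F → Prop} {S : Sys W F fs}
  {Q : Type} [Finite Q] {δ : Q → C → Q} {pr : Q → C → ℕ}

/-- a state with a continuation has a transition -/
theorem IsK.out {x : S.P × Set (List C)} (h : S.IsK x) : ∃ c r, S.bst x.1 c r := by
  obtain ⟨p, w, h1, ⟨r, v, h2, h3, h4⟩, -⟩ := h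
  rw [bpdet h2 h1] at h3
  have h5 : Pth S.bst x.1 (v ++ w) x.1 := h3.append h1
  have h6 : v ++ w ≠ [] := by
    intro h
    apply h4.1
    rw [List.append_eq_nil_iff] at h ⊢
    exact ⟨h.2, h.1⟩
  obtain ⟨c, l, hcl⟩ := List.exists_cons_of_ne_nil h6
  rw [hcl] at h5
  obtain ⟨r', h7, -⟩ := h5
  exact ⟨c, r', h7⟩

theorem out_move (h2l : TwoLoop W) {p y : S.P} {u : List C} (hp : ∃ c r, S.bst p c r)
    (h : Pth S.bst p u y) : ∃ c r, S.bst y c r := by
  by_cases hu : u = []
  · subst hu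
    have : p = y := h
    rw [← this]; exact hp
  · obtain ⟨v, h1, -⟩ := bpath_ext' h2l h hu
    cases v with
    | nil =>
      have : y = p := h1
      rw [this]; exact hp
    | cons c v =>
      obtain ⟨r, h2, -⟩ := h1
      exact ⟨c, r, h2⟩

/-- even bound: the rejecting transitions have a smaller bound -/
theorem bd_even (h2l : TwoLoop W) {p : S.P} {m : ℕ} (hm : Even m)
    (hp : ∃ c r, S.bst p c r) (hbd : BdAt S.bst S.ty δ pr p m) :
    ∃ m' < m, BdAt S.bst S.ty δ pr p m' := by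
  have := S.fin
  obtain ⟨u, y, m', h1, h2, h3⟩ := lower (st := S.bst) (ty := S.ty) (fb := id)
    (fun h => S.bty h) hbd (by
      intro y u hu w z hz
      have hout := out_move h2l hp hu
      by_cases hw : w = []
      · subst hw
        obtain ⟨c, r, h1⟩ := hout
        obtain ⟨v, h2, h3⟩ := bpath_ext' h2l (pth_single.2 h1) (by simp)
        refine ⟨[c] ++ v, fun _ => y, by simp, rfl, fun n => ⟨(pth_single.2 h1).append h2, rfl⟩, ?_⟩
        constructor
        · intro h; exact absurd h h3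
        · intro h; exact absurd hm h
      · obtain ⟨v, h2, h3⟩ := bpath_ext' h2l hz hw
        refine ⟨v, fun _ => y, fun h => hw (List.append_eq_nil_iff.1 h).1, rfl,
          fun n => ⟨hz.append h2, rfl⟩, ?_⟩
        constructor
        · intro h; exact absurd h h3
        · intro h; exact absurd hm h)
  refine ⟨m', h2, ?_⟩
  by_cases hu : u = []
  · subst hu
    have : p = y := h1
    rw [this]; exact h3
  · obtain ⟨v, h4, -⟩ := bpath_ext' h2l h1 hu
    exact h3.move (fun h => S.bty h) h4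

/-- odd bound: the components of bottom states have a smaller bound -/
theorem bd_odd (hfin : {x | S.IsK x}.Finite) (h2l : TwoLoop W) {x : S.P × Set (List C)}
    (hx : S.Bot x) {m : ℕ} (hm : ¬ Even m)
    (hbd : BdAt (next hfin h2l hx).st (next hfin h2l hx).ty δ pr ⟨x, [], rfl⟩ m) :
    ∃ m' < m, BdAt (next hfin h2l hx).st (next hfin h2l hx).ty δ pr ⟨x, [], rfl⟩ m' := by
  have := (next hfin h2l hx).fin
  obtain ⟨u, y, m', h1, h2, h3⟩ := lower (st := (next hfin h2l hx).st)
    (ty := (next hfin h2l hx).ty) (fb := (next hfin h2l hx).fb)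
    @(next hfin h2l hx).tyst hbd (by
      intro y u hu w z hz
      obtain ⟨uy, huy⟩ := y.2
      have hyB : S.Bot y.1 := hx.step huy
      have hzk : Pth S.ks y.1 w z.1 := npath.1 hz
      obtain ⟨z0, hz0⟩ := exists_sync hfin hyB
      obtain ⟨-, hw, -⟩ := (kpath hyB.1).1 hzk
      have hw' := hw
      rw [hz0.2.1] at hw'
      change S.nb y.1.1 (z0 ++ w) at hw'
      obtain ⟨r, v, h4, h5, h6⟩ := hw'
      obtain ⟨r', h7, h8⟩ := pth_append.1 h4
      rw [bpdet h7 hz0.1] at h8
      have h9 : Ac (S.ty y.1.1) (z0 ++ (w ++ v)) := by rw [← List.append_assoc]; exact h6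
      have h10 : Ac (S.ty y.1.1) (w ++ (v ++ z0)) := by
        rw [bac_rot hz0.1] at h9
        rwa [List.append_assoc] at h9
      have h11 : ∀ n, rep (w ++ (v ++ z0)) n ∈ y.1.2 := by
        intro n
        rw [hz0.2.1]
        change S.nb y.1.1 (z0 ++ rep (w ++ (v ++ z0)) n)
        have := nb_pow (w := z0) (v := w ++ v) hz0.1 (h8.append h5) h9 n
        rwa [List.append_assoc] at this
      have h12 : Pth S.bst y.1.1 (w ++ (v ++ z0)) y.1.1 := h8.append (h5.append hz0.1)
      have h13 : ∀ n, Pth S.ks y.1 (rep (w ++ (v ++ z0)) n)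
          (y.1.1, {t | rep (w ++ (v ++ z0)) n ++ t ∈ y.1.2}) := fun n =>
        (kpath hyB.1).2 ⟨pth_rep h12 n, h11 n, rfl⟩
      refine ⟨v ++ z0, fun n => ⟨(y.1.1, {t | rep (w ++ (v ++ z0)) n ++ t ∈ y.1.2}), _,
        huy.append (h13 n)⟩, h10.1, Subtype.ext (Prod.ext rfl rfl), fun n => ⟨?_, rfl⟩, ?_⟩
      · refine npath.2 ?_
        have h14 := h13 (n + 1)
        rw [rep_succ', pth_append] at h14
        obtain ⟨a, h15, h16⟩ := h14
        rw [kpdet h15 (h13 n)] at h16
        rw [← rep_succ'] at h16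
        exact h16
      · constructor
        · intro _; exact hm
        · intro _; exact h10)
  refine ⟨m', h2, ?_⟩
  obtain ⟨v, hv⟩ := hx.2 _ _ (npath.1 h1)
  exact h3.move @(next hfin h2l hx).tyst (npath.2 hv)

/-- every component of a bottom state has a smaller bound -/
theorem bd_next (hfin : {x | S.IsK x}.Finite) (h2l : TwoLoop W) {m : ℕ}
    (hbd : ∀ p, BdAt S.st S.ty δ pr p m) {x : S.P × Set (List C)} (hx : S.Bot x) :
    ∃ m' < m, ∀ a, BdAt (next hfin h2l hx).st (next hfin h2l hx).ty δ pr a m' := by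
  have hb : BdAt S.bst S.ty δ pr x.1 m := by
    obtain ⟨q, h1, h2⟩ := hbd x.1
    exact ⟨q, h1, fun u y hu => h2 u y (toP hu)⟩
  have hn : ∀ m', BdAt S.bst S.ty δ pr x.1 m' →
      BdAt (next hfin h2l hx).st (next hfin h2l hx).ty δ pr ⟨x, [], rfl⟩ m' := by
    rintro m' ⟨q, h1, h2⟩
    exact ⟨q, h1, fun u y hu => h2 u y.1.1 (kpath_b (npath.1 hu))⟩
  have key : ∃ m' < m, BdAt (next hfin h2l hx).st (next hfin h2l hx).ty δ pr ⟨x, [], rfl⟩ m' := by
    by_cases hm : Even m
    · obtain ⟨m', h1, h2⟩ := bd_even h2l hm hx.1.out hb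
      exact ⟨m', h1, hn m' h2⟩
    · exact bd_odd hfin h2l hx hm (hn m hb)
  obtain ⟨m', h1, h2⟩ := key
  refine ⟨m', h1, fun a => ?_⟩
  obtain ⟨u, hu⟩ := a.2
  exact h2.move @(next hfin h2l hx).tyst (npath.2 hu)

end Sys

end Q222.CM
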