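import Mathlib
import Pool.Agent.Q222.CM.Lower
import Pool.Agent.Q222.CM.Att

/-!
# Completions of graphs all of whose paths are winning
-/

set_option autoImplicit false

open Filter

namespace Q222.CM

variable {C : Type}

theorem exists_ord {V : Type} {α : Type*} [LinearOrder α] [WellFoundedLT α] (f : V → α) :
    ∃ rk : V → Ordinal.{0}, ∀ v w, rk v ≤ rk w ↔ f v ≤ f w := by
  have hwf : IsWellFounded V (fun v w => f v < f w) := ⟨InvImage.wf f wellFounded_lt⟩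
  refine ⟨IsWellFounded.rank (fun v w => f v < f w), fun v w => ⟨fun h => ?_, fun h => ?_⟩⟩
  · by_contra hno
    push Not at hno
    have h1 : IsWellFounded.rank (fun v w => f v < f w) w <
        IsWellFounded.rank (fun v w => f v < f w) v := IsWellFounded.rank_lt_of_rel hno
    exact absurd h (not_le.2 h1)
  · rw [IsWellFounded.rank_eq]
    refine Ordinal.iSup_le fun b => ?_
    rw [Order.succ_le_iff]
    exact IsWellFounded.rank_lt_of_rel (lt_of_lt_of_le b.2 h)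

/-- ranks of a least fixed point with a minimality property -/
theorem exists_rank' {V : Type} (F : Set V → Set V) (hF : ∀ X Y : Set V, X ⊆ Y → F X ⊆ F Y) :
    ∃ (A : Set V) (r : V → Ordinal.{0}), F A ⊆ A ∧ (∀ v ∈ A, v ∈ F {u | u ∈ A ∧ r u < r v}) ∧
      ∀ v ∈ A, ∀ v' ∈ F {u | u ∈ A ∧ r u < r v}, v' ∈ A ∧ r v' ≤ r v := by
  classical
  have hsub : {v | ∃ a, v ∈ Stg F a} ⊆ Stg F (⨆ v : V, sInf {a | v ∈ Stg F a}) := by
    rintro u ⟨a, ha⟩
    have h1 : u ∈ Stg F (sInf {a | u ∈ Stg F a}) :=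
      csInf_mem (s := {a | u ∈ Stg F a}) ⟨a, ha⟩
    exact Stg_mono F (Ordinal.le_iSup (fun v : V => sInf {a | v ∈ Stg F a}) u) h1
  have key : ∀ v, (∃ a, v ∈ Stg F a) → ∃ b, sInf {a | v ∈ Stg F a} = Order.succ b ∧
      v ∈ F (Stg F b) := by
    rintro v ⟨a, ha⟩
    have h1 : v ∈ Stg F (sInf {a | v ∈ Stg F a}) :=
      csInf_mem (s := {a | v ∈ Stg F a}) ⟨a, ha⟩
    have h1' := h1
    rw [mem_Stg] at h1
    obtain ⟨b, hb, h2⟩ := h1
    refine ⟨b, le_antisymm ?_ (Order.succ_le_of_lt hb), h2⟩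
    refine csInf_le' ?_
    change v ∈ Stg F (Order.succ b)
    rw [mem_Stg]
    exact ⟨b, Order.lt_succ b, h2⟩
  refine ⟨{v | ∃ a, v ∈ Stg F a}, fun v => sInf {a | v ∈ Stg F a}, ?_, ?_, ?_⟩
  · intro v hv
    refine ⟨Order.succ (⨆ v : V, sInf {a | v ∈ Stg F a}), ?_⟩
    rw [mem_Stg]
    exact ⟨_, Order.lt_succ _, hF _ _ hsub hv⟩
  · rintro v hv
    obtain ⟨b, hb, h2⟩ := key v hv
    refine hF _ _ ?_ h2
    intro u hu
    refine ⟨⟨b, hu⟩, ?_⟩
    change sInf {a | u ∈ Stg F a} < sInf {a | v ∈ Stg F a}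
    rw [hb]
    exact Order.lt_succ_of_le (csInf_le' hu)
  · rintro v hv v' hv'
    obtain ⟨b, hb, -⟩ := key v hv
    have h3 : v' ∈ F (Stg F b) := by
      refine hF _ _ ?_ hv'
      rintro u ⟨⟨a, ha⟩, hu⟩
      change sInf {a | u ∈ Stg F a} < sInf {a | v ∈ Stg F a} at hu
      rw [hb] at hu
      have h1 : u ∈ Stg F (sInf {a | u ∈ Stg F a}) :=
        csInf_mem (s := {a | u ∈ Stg F a}) ⟨a, ha⟩
      exact Stg_mono F (Order.lt_succ_iff.1 hu) h1
    have h4 : v' ∈ Stg F (Order.succ b) := by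
      rw [mem_Stg]
      exact ⟨b, Order.lt_succ b, h3⟩
    refine ⟨⟨_, h4⟩, ?_⟩
    change sInf {a | v' ∈ Stg F a} ≤ sInf {a | v ∈ Stg F a}
    rw [hb]
    exact csInf_le' h4

/-- infinite paths by concatenation of finite paths -/
theorem exists_concat {V : Type} (E : V → C → V → Prop) (G : Set V) (Bd : V → List C → Prop)
    (h : ∀ v ∈ G, ∃ u v', u ≠ [] ∧ v' ∈ G ∧ Pth E v u v' ∧ Bd v u) {v₀ : V} (hv : v₀ ∈ G) :
    ∃ (ρ : ℕ → V) (γ : ℕ → C), ρ 0 = v₀ ∧ (∀ n, E (ρ n) (γ n) (ρ (n + 1))) ∧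
      ∃ᶠ n in atTop, ∃ k, Bd (ρ n) (seg γ n k) := by
  classical
  choose! U T hU1 hU2 hU3 hU4 using h
  let Inv : V × List C → Prop := fun x => x.2 ≠ [] ∧ ∃ v' ∈ G, Pth E x.1 x.2 v'
  have hstep : ∀ x : V × List C, Inv x → ∃ (c : C) (y : V × List C), E x.1 c y.1 ∧ Inv y ∧
      ((x.2 = [c] ∧ y.1 ∈ G ∧ y.2 = U y.1) ∨ x.2 = c :: y.2) := by
    rintro ⟨v, w⟩ ⟨h1, v', h2, h3⟩
    cases w with
    | nil => exact absurd rfl h1
    | cons c w =>
      obtain ⟨r, h4, h5⟩ := h3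
      by_cases hw : w = []
      · subst hw
        have h6 : r = v' := h5
        subst h6
        exact ⟨c, (r, U r), h4, ⟨hU1 r h2, T r, hU2 r h2, hU3 r h2⟩, Or.inl ⟨rfl, h2, rfl⟩⟩
      · exact ⟨c, (r, w), h4, ⟨hw, v', h2, h5⟩, Or.inr rfl⟩
  have hC : Nonempty C := by
    obtain ⟨c, -⟩ := List.exists_cons_of_ne_nil (hU1 v₀ hv)
    exact ⟨c⟩
  choose! cc nx hn1 hn2 hn3 using hstep
  let st : ℕ → V × List C := fun n => Nat.rec (v₀, U v₀) (fun _ x => nx x) n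
  have hst : ∀ n, st (n + 1) = nx (st n) := fun n => rfl
  have hInv : ∀ n, Inv (st n) := by
    intro n
    induction n with
    | zero => exact ⟨hU1 _ hv, T v₀, hU2 _ hv, hU3 _ hv⟩
    | succ n ih => rw [hst]; exact hn2 _ ih
  let γ : ℕ → C := fun n => cc (st n)
  have hE : ∀ n, E (st n).1 (γ n) (st (n + 1)).1 := fun n => hn1 _ (hInv n)
  have hc : ∀ n, ((st n).2 = [γ n] ∧ (st (n + 1)).1 ∈ G ∧ (st (n + 1)).2 = U (st (n + 1)).1) ∨
      (st n).2 = γ n :: (st (n + 1)).2 := fun n => hn3 _ (hInv n)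
  refine ⟨fun n => (st n).1, γ, rfl, hE, ?_⟩
  have hseg : ∀ k n, (st n).2.length = k → seg γ n k = (st n).2 := by
    intro k
    induction k with
    | zero => intro n hk; rw [List.length_eq_zero_iff.1 hk]; rfl
    | succ k ih =>
      intro n hk
      rw [seg_head]
      rcases hc n with ⟨h1, -, -⟩ | h1
      · rw [h1] at hk ⊢
        have : k = 0 := by simpa using hk
        subst this
        rfl
      · rw [h1] at hk ⊢
        rw [ih (n + 1) (by simpa using hk)]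
  have hBS : ∀ k n, (st n).2.length = k → ∃ m, n < m ∧ (st m).1 ∈ G ∧
      (st m).2 = U (st m).1 := by
    intro k
    induction k using Nat.strong_induction_on with
    | _ k ih =>
      intro n hk
      rcases hc n with ⟨-, h1, h2⟩ | h1
      · exact ⟨n + 1, by omega, h1, h2⟩
      · rw [h1] at hk
        obtain ⟨m, h3, h4, h5⟩ := ih (st (n + 1)).2.length (by
          rw [List.length_cons] at hk; omega) (n + 1) rfl
        exact ⟨m, by omega, h4, h5⟩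
  rw [frequently_atTop]
  intro N
  obtain ⟨m, h1, h2, h3⟩ := hBS _ N rfl
  refine ⟨m, by omega, (st m).2.length, ?_⟩
  rw [hseg _ m rfl, h3]
  exact hU4 _ h2

namespace Sys

variable {W : Set (ℕ → C)} {F : Type} {fs : F → C → F → Prop}

/-- all paths from `v` can be read from `p` and the infinite ones are in the language of `p` -/
def Gd (S : Sys W F fs) {V : Type} (E : V → C → V → Prop) (v : V) (p : S.P) : Prop :=
  (∀ u v', Pth E v u v' → ∃ p', Pth S.st p u p') ∧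
  ∀ (ρ : ℕ → V) (γ : ℕ → C), ρ 0 = v → (∀ n, E (ρ n) (γ n) (ρ (n + 1))) → γ ∈ S.ty p

/-- completions for the system -/
def EvenC (S : Sys W F fs) : Prop := ∀ (V : Type) (E : V → C → V → Prop) (τ : V → F),
  (∀ v c v', E v c v' → fs (τ v) c (τ v')) → (∀ v, ∃ p, S.fb p = τ v ∧ Gd S E v p) →
  ∃ (rk : V → Ordinal.{0}) (θ : V → S.P) (E' : V → C → V → Prop),
    (∀ v, S.fb (θ v) = τ v) ∧
    (∀ v p, S.fb p = τ v → Gd S E v p → S.le (θ v) p) ∧
    (∀ v c v', E v c v' → E' v c v') ∧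
    (∀ v c v' v'', τ v'' = τ v' → rk v'' ≤ rk v' → E' v c v' → E' v c v'') ∧
    (∀ (ρ : ℕ → V) (γ : ℕ → C), (∀ n, E' (ρ n) (γ n) (ρ (n + 1))) → γ ∈ S.ty (θ (ρ 0))) ∧
    (∀ v v', τ v = τ v' → rk v ≤ rk v' → S.le (θ v) (θ v'))

/-- completions for the transitions on rejecting cycles -/
def OddC (S : Sys W F fs) : Prop := ∀ (V : Type) (E : V → C → V → Prop) (τ : V → S.P),
  (∀ v c v', E v c v' → S.bst (τ v) c (τ v')) →
  (∀ (ρ : ℕ → V) (γ : ℕ → C), (∀ n, E (ρ n) (γ n) (ρ (n + 1))) → γ ∈ S.ty (τ (ρ 0))) →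
  ∃ (rk : V → Ordinal.{0}) (E' : V → C → V → Prop),
    (∀ v c v', E v c v' → E' v c v') ∧
    (∀ v c v' v'', τ v'' = τ v' → rk v'' ≤ rk v' → E' v c v' → E' v c v'') ∧
    (∀ (ρ : ℕ → V) (γ : ℕ → C), (∀ n, E' (ρ n) (γ n) (ρ (n + 1))) → γ ∈ S.ty (τ (ρ 0)))

variable {S : Sys W F fs}

/-- a height function which represents the order on the fibres -/
theorem exists_height (S : Sys W F fs) : ∃ h : S.P → ℕ, ∀ p q, S.fb p = S.fb q →
    (S.le p q ↔ h p ≤ h q) := by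
  classical
  have := S.fin
  refine ⟨fun p => {q | S.le q p}.ncard, fun p q hpq => ⟨fun h => ?_, fun h => ?_⟩⟩
  · exact Set.ncard_le_ncard (fun r hr => S.trans hr h) (Set.toFinite _)
  · by_contra hno
    have h1 : S.le q p := (S.tot hpq).resolve_left hno
    have h2 : {r | S.le r q} ⊂ {r | S.le r p} :=
      ⟨fun r hr => S.trans hr h1, fun h3 => hno (h3 (S.refl p))⟩
    have h3 := Set.ncard_lt_ncard h2 (Set.toFinite _)
    change {r | S.le r p}.ncard ≤ {r | S.le r q}.ncard at h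
    omega

theorem Gd.step {V : Type} {E : V → C → V → Prop} {v v' : V} {c : C} {p : S.P}
    (h : Gd S E v p) (he : E v c v') : ∃ r, S.st p c r ∧ Gd S E v' r := by
  obtain ⟨r, hr⟩ := h.1 [c] v' (pth_single.2 he)
  rw [pth_single] at hr
  refine ⟨r, hr, fun u v'' hu => ?_, fun ρ γ h0 hs => ?_⟩
  · obtain ⟨p', r', h1, h2⟩ := h.1 (c :: u) v'' ⟨v', he, hu⟩
    rw [S.det hr h1]
    exact ⟨p', h2⟩
  · rw [S.tyst hr]
    refine h.2 (fun n => Nat.casesOn n v ρ) (cons c γ) rfl fun n => ?_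
    cases n with
    | zero =>
      change E v c (ρ 0)
      rw [h0]; exact he
    | succ n => exact hs n

theorem even_of_odd {Q : Type} [Finite Q] {δ : Q → C → Q} {pr : Q → C → ℕ} {B : ℕ}
    (hB : ∀ q c, pr q c ≤ B) {q0 : Q} (hW : W = plang δ pr q0)
    (hfs : ∀ f c f' f'', fs f c f' → fs f c f'' → f' = f'') (hodd : OddC S) :
    EvenC S := by
  classical
  intro V E τ hE hgd
  obtain ⟨ht, hht⟩ := exists_height S
  have hmin : ∀ v, ∃ p, S.fb p = τ v ∧ Gd S E v p ∧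
      ∀ p', S.fb p' = τ v → Gd S E v p' → S.le p p' := by
    intro v
    have hex : ∃ n p, S.fb p = τ v ∧ Gd S E v p ∧ ht p = n := by
      obtain ⟨p, h1, h2⟩ := hgd v
      exact ⟨_, p, h1, h2, rfl⟩
    obtain ⟨p, h1, h2, h3⟩ := Nat.find_spec hex
    refine ⟨p, h1, h2, fun p' h4 h5 => ?_⟩
    rw [hht p p' (h1.trans h4.symm), h3]
    exact Nat.find_min' hex ⟨p', h4, h5, rfl⟩
  choose θ hθ1 hθ2 hθ3 using hmin
  obtain ⟨rk', E', o1, o2, o3⟩ := hodd V (fun v c v' => E v c v' ∧ S.bst (θ v) c (θ v')) θ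
    (fun v c v' h => h.2) (fun ρ γ h => (hθ2 (ρ 0)).2 ρ γ rfl fun n => (h n).1)
  obtain ⟨rk, hrk⟩ := exists_ord fun v => toLex (ht (θ v), rk' v)
  have hle : ∀ v v', τ v = τ v' → rk v ≤ rk v' → S.le (θ v) (θ v') ∧
      (θ v = θ v' → rk' v ≤ rk' v') := by
    intro v v' h1 h2
    rw [hrk, Prod.Lex.le_iff] at h2
    rw [hht _ _ ((hθ1 v).trans (h1.trans (hθ1 v').symm))]
    rcases h2 with h3 | ⟨h3, h4⟩
    · have h3' : ht (θ v) < ht (θ v') := h3
      exact ⟨h3'.le, fun h5 => absurd h3' (by rw [h5]; exact lt_irrefl _)⟩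
    · exact ⟨le_of_eq h3, fun _ => h4⟩
  refine ⟨rk, θ, fun v c v' => ∃ r, S.st (θ v) c r ∧ S.le (θ v') r ∧
    (S.bst (θ v) c (θ v') → E' v c v'), hθ1, fun v p h1 h2 => hθ3 v p h1 h2, ?_, ?_, ?_,
    fun v v' h1 h2 => (hle v v' h1 h2).1⟩
  · intro v c v' he
    obtain ⟨r, h1, h2⟩ := (hθ2 v).step he
    refine ⟨r, h1, ?_, fun h3 => o1 v c v' ⟨he, h3⟩⟩
    refine hθ3 v' r ?_ h2
    -- the fibres agree
    have h3 := S.fst h1
    have h4 := hE v c v' he
    rw [hθ1] at h3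
    exact hfs _ _ _ _ h3 h4
  · rintro v c v' v'' h1 h2 ⟨r, h3, h4, h5⟩
    obtain ⟨h6, h7⟩ := hle v'' v' h1 h2
    refine ⟨r, h3, S.trans h6 h4, fun h8 => ?_⟩
    have h9 : r = θ v'' := S.det h3 h8.1
    rw [h9] at h4
    have h10 : θ v'' = θ v' := S.antisymm h6 h4
    refine o2 v c v' v'' h10 (h7 h10) (h5 ?_)
    rw [← h10]; exact h8
  · intro ρ γ h
    have h1 : ∀ n, ∃ r, S.st (θ (ρ n)) (γ n) r ∧ S.le (θ (ρ (n + 1))) r := by
      intro n
      obtain ⟨r, h2, h3, -⟩ := h n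
      exact ⟨r, h2, h3⟩
    by_cases hev : ∃ᶠ n in atTop, ¬ S.bst (θ (ρ n)) (γ n) (θ (ρ (n + 1)))
    · exact core S hB hW (θ := fun n => θ (ρ n)) h1 hev
    · rw [not_frequently, eventually_atTop] at hev
      obtain ⟨N, hN⟩ := hev
      have h2 := o3 (fun n => ρ (N + n)) (fun n => γ (N + n)) fun n => by
        obtain ⟨r, -, -, h3⟩ := h (N + n)
        exact h3 (not_not.1 (hN (N + n) (by omega)))
      obtain ⟨r, h3, h4⟩ := right_run (θ := fun n => θ (ρ n)) h1 0 N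
      have h5 := S.lety h4
      rw [Nat.zero_add, pty h3] at h5
      have h6 := mem_seg (S.ty (θ (ρ 0))) γ 0 N
      simp only [Nat.zero_add] at h6
      exact h6.1 (h5 h2)

end Sys

end Q222.CM
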