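import Mathlib
import Pool.Agent.Q222.CM.Compl

/-!
# Completions for the transitions on rejecting cycles from the completions of the components
-/

set_option autoImplicit false

open Filter

namespace Q222.CM

variable {C : Type}

namespace Sys

variable {W : Set (ℕ → C)} {F : Type} {fs : F → C → F → Prop} {S : Sys W F fs}

/-- the edges which avoid a set -/
def EY {V : Type} (E : V → C → V → Prop) (Y : Set V) (v : V) (c : C) (v' : V) : Prop :=
  E v c v' ∧ v' ∉ Y

/-- the operator: all successors are in the set, or all paths which avoid it can be read from one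
bottom state -/
def Fop (S : Sys W F fs) {V : Type} (E : V → C → V → Prop) (τ : V → S.P) (Y : Set V) : Set V :=
  {v | (∀ c v', E v c v' → v' ∈ Y) ∨ ∃ y, S.Bot y ∧ y.1 = τ v ∧
    ∀ u v', Pth (EY E Y) v u v' → u ∈ y.2}

theorem Fop_mono {V : Type} (E : V → C → V → Prop) (τ : V → S.P) (X Y : Set V) (h : X ⊆ Y) :
    Fop S E τ X ⊆ Fop S E τ Y := by
  rintro v (h1 | ⟨y, h1, h2, h3⟩)
  · exact Or.inl fun c v' he => h (h1 c v' he)
  · refine Or.inr ⟨y, h1, h2, fun u v' hu => h3 u v' (hu.mono ?_)⟩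
    rintro p c r ⟨h4, h5⟩
    exact ⟨h4, fun h6 => h5 (h h6)⟩

/-- all vertices are reached -/
theorem Fop_all (hfin : {x | S.IsK x}.Finite)
    {Q : Type} [Finite Q] {δ : Q → C → Q} {pr : Q → C → ℕ} {B : ℕ}
    (hB : ∀ q c, pr q c ≤ B) {q0 : Q} (hW : W = plang δ pr q0)
    {V : Type} {E : V → C → V → Prop} {τ : V → S.P}
    (hE : ∀ v c v', E v c v' → S.bst (τ v) c (τ v'))
    (hinf : ∀ (ρ : ℕ → V) (γ : ℕ → C), (∀ n, E (ρ n) (γ n) (ρ (n + 1))) → γ ∈ S.ty (τ (ρ 0)))
    {A : Set V} (hA : Fop S E τ A ⊆ A) (v : V) : v ∈ A := by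
  classical
  by_contra hv
  have hpE : ∀ {v v' : V} {u : List C}, Pth (EY E A) v u v' → Pth S.bst (τ v) u (τ v') :=
    fun h => h.map (f := τ) (st' := S.bst) fun h => hE _ _ _ h.1
  have hend : ∀ {v v' : V} {u : List C}, v ∉ A → Pth (EY E A) v u v' → v' ∉ A := by
    intro v v' u
    induction u generalizing v with
    | nil => intro h1 h2; exact (show v = v' from h2) ▸ h1
    | cons c u ih =>
      rintro h1 ⟨r, h2, h3⟩
      exact ih h2.2 h3
  have step : ∀ v ∈ Aᶜ, ∃ u v', u ≠ [] ∧ v' ∈ Aᶜ ∧ Pth (EY E A) v u v' ∧ ¬ S.nb (τ v) u := by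
    intro v hv
    have hF : v ∉ Fop S E τ A := fun h => hv (hA h)
    have h1 : ∃ c v', EY E A v c v' := by
      by_contra hno
      push Not at hno
      refine hF (Or.inl fun c v' he => ?_)
      by_contra h2
      exact hno c v' ⟨he, h2⟩
    have h2 : ∀ v, v ∉ A → ∀ y, S.Bot y → y.1 = τ v → ∃ u v', Pth (EY E A) v u v' ∧ u ∉ y.2 := by
      intro v hv y h3 h4
      by_contra hno
      push Not at hno
      exact hv (hA (Or.inr ⟨y, h3, h4, hno⟩))
    have h3 : ∀ T : Finset (S.P × Set (List C)), ∃ u v', u ≠ [] ∧ Pth (EY E A) v u v' ∧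
        ∀ y ∈ T, S.Bot y → y.1 = τ v → u ∉ y.2 := by
      intro T
      induction T using Finset.induction_on with
      | empty =>
        obtain ⟨c, v', h4⟩ := h1
        exact ⟨[c], v', by simp, pth_single.2 h4, fun y hy => absurd hy (Finset.notMem_empty _)⟩
      | insert y T _ ih =>
        obtain ⟨u, v', h4, h5, h6⟩ := ih
        by_cases hy : S.Bot y ∧ y.1 = τ v ∧ u ∈ y.2
        · obtain ⟨h7, h8, h9⟩ := hy
          obtain ⟨r, h10⟩ := kread h7.1 h9
          have h11 := h7.step h10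
          have h12 : r = τ v' := by
            have := kpath_b h10
            rw [h8] at this
            exact bpdet this (hpE h5)
          obtain ⟨u', v'', h13, h14⟩ := h2 v' (hend hv h5) _ h11 h12
          refine ⟨u ++ u', v'', fun h => h4 (List.append_eq_nil_iff.1 h).1, h5.append h13,
            fun z hz h15 h16 h17 => ?_⟩
          rcases Finset.mem_insert.1 hz with h18 | h18
          · rw [h18] at h17
            exact h14 h17
          · exact h6 z h18 h15 h16 (h15.1.right h17)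
        · refine ⟨u, v', h4, h5, fun z hz h15 h16 h17 => ?_⟩
          rcases Finset.mem_insert.1 hz with h18 | h18
          · rw [h18] at h15 h16 h17
            exact hy ⟨h15, h16, h17⟩
          · exact h6 z h18 h15 h16 h17
    obtain ⟨u, v', h4, h5, h6⟩ := h3 hfin.toFinset
    refine ⟨u, v', h4, hend hv h5, h5, fun h7 => ?_⟩
    obtain ⟨y, h8, h9, h10⟩ := exists_bot_read hfin h7
    exact h6 y (hfin.mem_toFinset.2 h8.1) h8 h9 h10
  obtain ⟨ρ, γ, -, h2, h3⟩ := exists_concat (EY E A) Aᶜ (fun v u => ¬ S.nb (τ v) u) step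
    (show v ∈ Aᶜ from hv)
  have h4 := hinf ρ γ fun n => (h2 n).1
  obtain ⟨N, hN⟩ := eventually_nb hB hW (ρ := fun n => τ (ρ n)) (γ := γ)
    (fun n => hE _ _ _ (h2 n).1) h4
  obtain ⟨n, hn, k, h5⟩ := frequently_atTop.1 h3 N
  exact h5 (hN n hn k)

theorem odd_of_even (hfin : {x | S.IsK x}.Finite) (h2l : TwoLoop W)
    {Q : Type} [Finite Q] {δ : Q → C → Q} {pr : Q → C → ℕ} {B : ℕ}
    (hB : ∀ q c, pr q c ≤ B) {q0 : Q} (hW : W = plang δ pr q0)
    (hev : ∀ (x : S.P × Set (List C)) (hx : S.Bot x), EvenC (next hfin h2l hx)) : OddC S := by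
  classical
  intro V E τ hE hinf
  obtain ⟨A, r, hA, hr1, hr2⟩ := exists_rank' (Fop S E τ) (Fop_mono E τ)
  have hall : ∀ v, v ∈ A := fun v => Fop_all hfin hB hW hE hinf hA v
  have hset : ∀ a : Ordinal.{0}, {u | u ∈ A ∧ r u < a} = {u | r u < a} := by
    intro a
    ext u
    exact ⟨fun h => h.2, fun h => ⟨hall u, h⟩⟩
  have hr1' : ∀ v, v ∈ Fop S E τ {u | r u < r v} := fun v => by
    have := hr1 v (hall v)
    rwa [hset] at this
  have hr2' : ∀ v v', v' ∈ Fop S E τ {u | r u < r v} → r v' ≤ r v := fun v v' h => by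
    refine (hr2 v (hall v) v' ?_).2
    rwa [hset]
  clear hr1 hr2 hset hA
  -- the next state along an edge
  have hnext : ∀ {v v' : V} {c : C} {y : S.P × Set (List C)}, E v c v' → ¬ r v' < r v →
      S.Bot y → y.1 = τ v → (∀ u v'', Pth (EY E {u | r u < r v}) v u v'' → u ∈ y.2) →
      S.ks y c (τ v', {w | c :: w ∈ y.2}) ∧
      ∀ u v'', Pth (EY E {u | r u < r v}) v' u v'' → u ∈ {w | c :: w ∈ y.2} := by
    intro v v' c y he hn h1 h2 h3
    refine ⟨⟨?_, ?_, rfl⟩, fun u v'' hu => h3 (c :: u) v'' ⟨v', ⟨he, hn⟩, hu⟩⟩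
    · rw [h2]; exact hE v c v' he
    · exact h3 [c] v' (pth_single.2 ⟨he, hn⟩)
  have hrle : ∀ v c v', E v c v' → r v' ≤ r v := by
    intro v c v' he
    by_cases hn : r v' < r v
    · exact hn.le
    · rcases hr1' v with h1 | ⟨y, h1, h2, h3⟩
      · exact absurd (h1 c v' he) hn
      · obtain ⟨h4, h5⟩ := hnext he hn h1 h2 h3
        exact hr2' v v' (Or.inr ⟨_, h1.step (pth_single.2 h4), rfl, h5⟩)
  -- the indices
  have hιfin : Finite {x // S.Bot x} := by
    have := hfin.to_subtype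
    exact Finite.of_injective (β := {x | S.IsK x}) (fun a => ⟨a.1, a.2.1⟩)
      (fun a b h => Subtype.ext (congrArg (fun t : {x | S.IsK x} => t.1) h))
  obtain ⟨e, he⟩ : ∃ e : {x // S.Bot x} → ℕ, Function.Injective e := exists_injective_nat _
  let Cnd : {x // S.Bot x} → V → Prop := fun i v => ∃ y : NP i.1, y.1.1 = τ v ∧
    ∀ u v', Pth (EY E {u | r u < r v}) v u v' → u ∈ y.1.2
  let N : V → ℕ → Prop := fun v n => (n = 0 ∧ ∀ c v', E v c v' → r v' < r v) ∨
    ∃ i, n = e i + 1 ∧ Cnd i v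
  have hN : ∀ v, ∃ n, N v n := by
    intro v
    rcases hr1' v with h1 | ⟨y, h1, h2, h3⟩
    · exact ⟨0, Or.inl ⟨rfl, h1⟩⟩
    · exact ⟨_, Or.inr ⟨⟨y, h1⟩, rfl, ⟨y, [], rfl⟩, h2, h3⟩⟩
  obtain ⟨idx, hidx1, hidx2⟩ : ∃ idx : V → ℕ, (∀ v, N v (idx v)) ∧ ∀ v n, N v n → idx v ≤ n :=
    ⟨fun v => Nat.find (hN v), fun v => Nat.find_spec (hN v), fun v n h => Nat.find_min' (hN v) h⟩
  have hBotNP : ∀ (i : {x // S.Bot x}) (y : NP i.1), S.Bot y.1 := by
    intro i y
    obtain ⟨u, hu⟩ := y.2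
    exact i.2.step hu
  have hidle : ∀ v c v', E v c v' → r v' = r v → idx v' ≤ idx v ∧ ∃ i, idx v = e i + 1 := by
    intro v c v' hvv hrr
    rcases hidx1 v with ⟨-, h1⟩ | ⟨i, h1, y, h2, h3⟩
    · exact absurd hrr (h1 c v' hvv).ne
    · refine ⟨?_, i, h1⟩
      rw [h1]
      refine hidx2 v' _ (Or.inr ⟨i, rfl, ?_⟩)
      have hn : ¬ r v' < r v := by rw [hrr]; exact lt_irrefl _
      obtain ⟨h4, h5⟩ := hnext hvv hn (hBotNP i y) h2 h3
      obtain ⟨w, hw⟩ := y.2
      refine ⟨⟨_, w ++ [c], hw.append (pth_single.2 h4)⟩, rfl, ?_⟩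
      rw [hrr]
      exact h5
  -- the completions of the levels
  have hlev : ∀ i : {x // S.Bot x}, ∃ (rk : {v : V // idx v = e i + 1} → Ordinal.{0})
      (E' : {v : V // idx v = e i + 1} → C → {v : V // idx v = e i + 1} → Prop),
      (∀ a c b, E a.1 c b.1 → r b.1 = r a.1 → E' a c b) ∧
      (∀ a c b b', τ b'.1 = τ b.1 → rk b' ≤ rk b → E' a c b → E' a c b') ∧
      (∀ (ρ : ℕ → {v : V // idx v = e i + 1}) (γ : ℕ → C),
        (∀ n, E' (ρ n) (γ n) (ρ (n + 1))) → γ ∈ S.ty (τ (ρ 0).1)) := by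
    intro i
    obtain ⟨rk, θ, E', h1, h2, h3, h4, h5, h6⟩ := hev i.1 i.2 {v : V // idx v = e i + 1}
      (fun a c b => E a.1 c b.1 ∧ r b.1 = r a.1) (fun a => τ a.1)
      (fun a c b h => hE _ _ _ h.1) (fun a => by
        rcases hidx1 a.1 with ⟨h1, -⟩ | ⟨j, h1, h2⟩
        · have := a.2
          omega
        · have hij : j = i := he (by have := a.2; omega)
          subst hij
          obtain ⟨y, h2, h3⟩ := h2
          refine ⟨y, h2, fun u b hu => ?_, fun ρ γ h0 hs => ?_⟩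
          · have h4 : ∀ (u : List C) (a' b : {v : V // idx v = e j + 1}), r a'.1 = r a.1 →
                Pth (fun (a : {v : V // idx v = e j + 1}) (c : C)
                  (b : {v : V // idx v = e j + 1}) => E a.1 c b.1 ∧ r b.1 = r a.1) a' u b →
                Pth (EY E {u | r u < r a.1}) a'.1 u b.1 := by
              intro u
              induction u with
              | nil => intro a' b _ h; exact congrArg Subtype.val h
              | cons c u ih =>
                rintro a' b h5 ⟨d, h6, h7⟩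
                refine ⟨d.1, ⟨h6.1, ?_⟩, ih d b (h6.2.trans h5) h7⟩
                change ¬ r d.1 < r a.1
                rw [h6.2, h5]
                exact lt_irrefl _
            have h5 := h3 u b.1 (h4 u a b rfl hu)
            obtain ⟨s, h6⟩ := kread (hBotNP j y).1 h5
            obtain ⟨w, hw⟩ := y.2
            exact ⟨⟨_, w ++ u, hw.append h6⟩, npath.2 h6⟩
          · change γ ∈ S.ty y.1.1
            rw [h2, ← h0]
            exact hinf (fun n => (ρ n).1) γ fun n => (hs n).1)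
    refine ⟨rk, E', fun a c b h7 h8 => h3 a c b ⟨h7, h8⟩, fun a c b b' h7 h8 h9 =>
      h4 a c b b' h7 h8 h9, fun ρ γ h7 => ?_⟩
    have h8 : γ ∈ S.ty (θ (ρ 0)).1.1 := h5 ρ γ h7
    have h9 : (θ (ρ 0)).1.1 = τ (ρ 0).1 := h1 (ρ 0)
    rwa [h9] at h8
  choose rki Ei hi1 hi2 hi3 using hlev
  -- the rank
  let rk' : V → Ordinal.{0} := fun v =>
    if h : ∃ i, idx v = e i + 1 then rki h.choose ⟨v, h.choose_spec⟩ else 0
  have hrk' : ∀ v i (h : idx v = e i + 1), rk' v = rki i ⟨v, h⟩ := by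
    intro v i h
    have hex : ∃ i, idx v = e i + 1 := ⟨i, h⟩
    have key : ∀ j (hj : idx v = e j + 1), rki j ⟨v, hj⟩ = rki i ⟨v, h⟩ := by
      intro j hj
      have : j = i := he (by omega)
      subst this
      rfl
    have h1 : rk' v = rki hex.choose ⟨v, hex.choose_spec⟩ := dif_pos hex
    rw [h1]
    exact key _ _
  obtain ⟨rk, hrk⟩ := exists_ord fun v => toLex (r v, toLex (idx v, rk' v))
  have hle : ∀ v v', rk v ≤ rk v' → r v < r v' ∨ (r v = r v' ∧ idx v < idx v') ∨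
      (r v = r v' ∧ idx v = idx v' ∧ rk' v ≤ rk' v') := by
    intro v v' h
    rw [hrk, Prod.Lex.le_iff] at h
    rcases h with h1 | ⟨h1, h2⟩
    · exact Or.inl h1
    · have h2' : toLex (idx v, rk' v) ≤ toLex (idx v', rk' v') := h2
      rw [Prod.Lex.le_iff] at h2'
      rcases h2' with h3 | ⟨h3, h4⟩
      · exact Or.inr (Or.inl ⟨h1, h3⟩)
      · exact Or.inr (Or.inr ⟨h1, h3, h4⟩)
  refine ⟨rk, fun v c v' => S.bst (τ v) c (τ v') ∧ (r v' < r v ∨ (r v' = r v ∧ idx v' < idx v) ∨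
    (r v' = r v ∧ ∃ (i : {x // S.Bot x}) (h : idx v = e i + 1) (h' : idx v' = e i + 1),
      Ei i ⟨v, h⟩ c ⟨v', h'⟩)), ?_, ?_, ?_⟩
  · intro v c v' hvv
    refine ⟨hE v c v' hvv, ?_⟩
    rcases (hrle v c v' hvv).lt_or_eq with h1 | h1
    · exact Or.inl h1
    · obtain ⟨h2, i, h3⟩ := hidle v c v' hvv h1
      rcases h2.lt_or_eq with h4 | h4
      · exact Or.inr (Or.inl ⟨h1, h4⟩)
      · exact Or.inr (Or.inr ⟨h1, i, h3, h4.trans h3, hi1 i ⟨v, h3⟩ c ⟨v', h4.trans h3⟩ hvv h1⟩)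
  · rintro v c v' v'' h1 h2 ⟨h3, h4⟩
    refine ⟨by rw [h1]; exact h3, ?_⟩
    rcases hle v'' v' h2 with h5 | ⟨h5, h6⟩ | ⟨h5, h6, h7⟩
    · left
      rcases h4 with h4 | ⟨h4, -⟩ | ⟨h4, -⟩
      · exact h5.trans h4
      · exact h5.trans_eq h4
      · exact h5.trans_eq h4
    · rcases h4 with h4 | ⟨h4, h8⟩ | ⟨h4, i, h8, h9, h10⟩
      · exact Or.inl (h5.trans_lt h4)
      · exact Or.inr (Or.inl ⟨h5.trans h4, h6.trans h8⟩)
      · exact Or.inr (Or.inl ⟨h5.trans h4, by omega⟩)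
    · rcases h4 with h4 | ⟨h4, h8⟩ | ⟨h4, i, h8, h9, h10⟩
      · exact Or.inl (h5.trans_lt h4)
      · exact Or.inr (Or.inl ⟨h5.trans h4, by omega⟩)
      · refine Or.inr (Or.inr ⟨h5.trans h4, i, h8, h6.trans h9, ?_⟩)
        refine hi2 i ⟨v, h8⟩ c ⟨v', h9⟩ ⟨v'', h6.trans h9⟩ h1 ?_ h10
        rw [← hrk' v'' i (h6.trans h9), ← hrk' v' i h9]
        exact h7
  · intro ρ γ h
    -- the pair (rank, index) is eventually constant
    let g : ℕ → Lex (Ordinal.{0} × ℕ) := fun n => toLex (r (ρ n), idx (ρ n))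
    have hg : ∀ n, g (n + 1) ≤ g n := by
      intro n
      rw [Prod.Lex.le_iff]
      rcases (h n).2 with h1 | ⟨h1, h2⟩ | ⟨h1, i, h2, h3, -⟩
      · exact Or.inl h1
      · exact Or.inr ⟨h1, h2.le⟩
      · refine Or.inr ⟨h1, ?_⟩
        change idx (ρ (n + 1)) ≤ idx (ρ n)
        omega
    have hanti : Antitone g := antitone_nat_of_succ_le hg
    obtain ⟨n0, hn0⟩ : ∃ n0, ∀ n, g n0 ≤ g n := by
      have hne : (Set.range g).Nonempty := ⟨g 0, 0, rfl⟩
      obtain ⟨n0, h1⟩ := wellFounded_lt.min_mem (Set.range g) hne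
      refine ⟨n0, fun n => ?_⟩
      rw [h1]
      exact not_lt.1 (wellFounded_lt.not_lt_min (Set.range g) ⟨n, rfl⟩)
    have hconst : ∀ n, n0 ≤ n → g n = g n0 := fun n hn => le_antisymm (hanti hn) (hn0 n)
    have hrc : ∀ n, n0 ≤ n → r (ρ n) = r (ρ n0) ∧ idx (ρ n) = idx (ρ n0) := by
      intro n hn
      have h1 := hconst n hn
      have h2 : (r (ρ n), idx (ρ n)) = (r (ρ n0), idx (ρ n0)) := toLex.injective h1
      rw [Prod.mk.injEq] at h2
      exact h2
    have hthird : ∀ n, n0 ≤ n → ∃ (i : {x // S.Bot x}) (h : idx (ρ n) = e i + 1)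
        (h' : idx (ρ (n + 1)) = e i + 1), Ei i ⟨ρ n, h⟩ (γ n) ⟨ρ (n + 1), h'⟩ := by
      intro n hn
      obtain ⟨h1, h2⟩ := hrc n hn
      obtain ⟨h3, h4⟩ := hrc (n + 1) (by omega)
      rcases (h n).2 with h5 | ⟨h5, h6⟩ | ⟨-, h5⟩
      · exact absurd (h3.trans h1.symm) h5.ne
      · omega
      · exact h5
    obtain ⟨i, hi, -, -⟩ := hthird n0 le_rfl
    have hix : ∀ n, idx (ρ (n0 + n)) = e i + 1 := fun n => (hrc (n0 + n) (by omega)).2.trans hi
    have h1 := hi3 i (fun n => ⟨ρ (n0 + n), hix n⟩) (fun n => γ (n0 + n)) fun n => by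
      obtain ⟨j, h2, h3, h4⟩ := hthird (n0 + n) (by omega)
      have hij : j = i := he (by have := hix n; omega)
      subst hij
      exact h4
    have h2 := pth_seg (st := S.bst) (ρ := fun n => τ (ρ n)) (γ := γ) (fun n => (h n).1) 0 n0
    have h3 := bpty h2
    simp only [Nat.zero_add] at h3
    have h4 := mem_seg (S.ty (τ (ρ 0))) γ 0 n0
    simp only [Nat.zero_add] at h4
    refine h4.1 ?_
    rw [← h3]
    exact h1

/-- completions exist for all systems with bounded priorities -/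
theorem evenC_of_bd (h2l : TwoLoop W)
    {Q : Type} [Finite Q] {δ : Q → C → Q} {pr : Q → C → ℕ} {B : ℕ}
    (hB : ∀ q c, pr q c ≤ B) {q0 : Q} (hW : W = plang δ pr q0) (m : ℕ) :
    ∀ (F : Type) (fs : F → C → F → Prop) (S : Sys W F fs),
      (∀ f c f' f'', fs f c f' → fs f c f'' → f' = f'') →
      (∀ p, BdAt S.st S.ty δ pr p m) → EvenC S := by
  induction m using Nat.strong_induction_on with
  | _ m ih =>
    intro F fs S hfs hbd
    have hfin := isK_finite (S := S) hB hW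
    refine even_of_odd hB hW hfs (odd_of_even hfin h2l hB hW fun x hx => ?_)
    obtain ⟨m', h1, h2⟩ := bd_next hfin h2l hbd hx
    exact ih m' h1 S.P S.bst (next hfin h2l hx) (fun f c f' f'' h h' => S.bdet h h') h2

end Sys

end Q222.CM
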