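import Mathlib
import Pool.Agent.Q222.CM.OddEven

/-!
# Positional strategies in arbitrary games from the conditions of one-player games
-/

set_option autoImplicit false

open Filter

namespace Q222.CM

variable {C : Type}

theorem exists_minimal_rk {V : Type} (rk : V → Ordinal.{0}) {s : Set V} (hs : s.Nonempty) :
    ∃ y ∈ s, ∀ x ∈ s, rk y ≤ rk x := by
  obtain ⟨x0, hx0⟩ := hs
  have h1 : sInf (rk '' s) ∈ rk '' s := csInf_mem ⟨rk x0, x0, hx0, rfl⟩
  obtain ⟨y, hy, hy2⟩ := h1
  exact ⟨y, hy, fun x hx => by rw [hy2]; exact csInf_le' ⟨x, hx, rfl⟩⟩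

/-- the system of the quotients of an objective -/
def top {W : Set (ℕ → C)} (hc : Cond W) (hfin : {L : Set (ℕ → C) | ∃ u, L = ders W u}.Finite) :
    Sys W Unit (fun _ _ _ => True) where
  P := {L : Set (ℕ → C) // ∃ u, L = ders W u}
  fin := hfin.to_subtype
  st L c L' := L'.1 = der L.1 c
  det h h' := Subtype.ext (h.trans h'.symm)
  ty L := L.1
  res L := L.2
  tyst h := h
  fb _ := ()
  fst _ := trivial
  le L L' := L.1 ⊆ L'.1
  refl _ := subset_rfl
  trans h h' := h.trans h'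
  antisymm h h' := Subtype.ext (Set.Subset.antisymm h h')
  lefb _ := rfl
  tot {L L'} _ := by
    obtain ⟨u, hu⟩ := L.2
    obtain ⟨v, hv⟩ := L'.2
    rw [hu, hv]
    exact hc.total u v
  lety h := h
  mono {L L' c r} h h1 := by
    obtain ⟨u, hu⟩ := L'.2
    refine ⟨⟨der L'.1 c, u ++ [c], by rw [ders_append, ← hu]; rfl⟩, rfl, ?_⟩
    rw [h1]
    exact der_mono h c
  prog {L L' x} h h1 h2 h3 := by
    obtain ⟨u, hu⟩ := L.2
    have h4 : L'.1 = ders L.1 x := by
      clear h1 h2 h3 hu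
      induction x generalizing L with
      | nil => exact (congrArg Subtype.val (show L = L' from h)).symm
      | cons c x ih =>
        obtain ⟨r, h5, h6⟩ := h
        rw [ders_cons, ← h5]
        exact ih h6
    refine ⟨h1, ?_⟩
    rw [hu]
    refine hc.progress u x h1 ?_
    rw [← hu, ← h4]
    exact ⟨h2, fun h5 => h3 (Subtype.ext (Set.Subset.antisymm h2 h5))⟩

theorem hist_cons {V : Type} (v : V) (c : C) (ρ : ℕ → V) (γ : ℕ → C) (n : ℕ) :
    hist (fun i => Nat.casesOn i v ρ) (cons c γ) (n + 1) = (c, ρ 0) :: hist ρ γ n := by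
  induction n with
  | zero => rfl
  | succ n ih =>
    rw [hist_succ, ih, hist_succ]
    rfl

section

variable {G : Game C} {W : Set (ℕ → C)}

/-- the strategy wins for the quotient by the word -/
def SWin (W : Set (ℕ → C)) {v : G.V} (s : Strategy G v) (u : List C) : Prop :=
  ∀ ρ γ, IsPlay G v ρ γ →
    (∀ n, G.eve (ρ n) → (γ n, ρ (n + 1)) = s.next (hist ρ γ n)) → γ ∈ ders W u

/-- the rest of a strategy after one step -/
theorem exists_rest {v : G.V} (s : Strategy G v) {u : List C} (hs : SWin W s u) {c : C}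
    {v' : G.V} (he : G.edge v c v') (hc : G.eve v → (c, v') = s.next []) :
    ∃ s' : Strategy G v', s'.next = (fun l => s.next ((c, v') :: l)) ∧ SWin W s' (u ++ [c]) := by
  refine ⟨⟨fun l => s.next ((c, v') :: l), ?_⟩, rfl, ?_⟩
  · intro ρ γ n h0 h1 h2
    have := s.legal (fun i => Nat.casesOn i v ρ) (cons c γ) (n + 1) rfl (fun i hi => by
      cases i with
      | zero =>
        change G.edge v c (ρ 0)
        rw [h0]; exact he
      | succ i => exact h1 i (by omega)) h2
    rw [hist_cons, h0] at this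
    exact this
  · intro ρ γ hp hcs
    have := hs (fun i => Nat.casesOn i v ρ) (cons c γ) ⟨rfl, fun i => by
      cases i with
      | zero =>
        change G.edge v c (ρ 0)
        rw [hp.start]; exact he
      | succ i => exact hp.step i⟩ (fun i hi => by
      cases i with
      | zero =>
        change (c, ρ 0) = s.next []
        rw [hp.start]
        exact hc hi
      | succ i =>
        rw [hist_cons, hp.start]
        exact hcs i hi)
    rw [ders_append]
    exact this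

/-- vertices with a winning strategy for a quotient -/
abbrev Vx (G : Game C) (W : Set (ℕ → C)) : Type :=
  {x : (Σ v : G.V, Strategy G v × List C) // SWin W x.2.1 x.2.2}

/-- the steps which agree with the strategies -/
def Ex (x : Vx G W) (c : C) (y : Vx G W) : Prop :=
  G.edge x.1.1 c y.1.1 ∧ (G.eve x.1.1 → (c, y.1.1) = x.1.2.1.next []) ∧
    y.1.2.1.next = fun l => x.1.2.1.next ((c, y.1.1) :: l)

theorem ex_inf {ρ : ℕ → Vx G W} {γ : ℕ → C} (h : ∀ n, Ex (ρ n) (γ n) (ρ (n + 1))) :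
    γ ∈ ders W (ρ 0).1.2.2 := by
  have h1 : ∀ n, (ρ n).1.2.1.next = fun l => (ρ 0).1.2.1.next
      (hist (fun n => (ρ n).1.1) γ n ++ l) := by
    intro n
    induction n with
    | zero => rfl
    | succ n ih =>
      rw [(h n).2.2, ih]
      funext l
      rw [hist_succ, List.append_assoc]
      rfl
  refine (ρ 0).2 (fun n => (ρ n).1.1) γ ⟨rfl, fun n => (h n).1⟩ fun n hn => ?_
  rw [(h n).2.1 hn, h1 n]
  beta_reduce
  rw [List.append_nil]

end

theorem arbitrary_of_cond' {W : Set (ℕ → C)} (hc : Cond W)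
    {Q : Type} [Finite Q] {δ : Q → C → Q} {pr : Q → C → ℕ} {B : ℕ}
    (hB : ∀ q c, pr q c ≤ B) {q0 : Q} (hW : W = plang δ pr q0) : MemLE Arbitrary W 1 := by
  classical
  have hfin : {L : Set (ℕ → C) | ∃ u, L = ders W u}.Finite := by
    refine (Set.finite_range fun q : Q => plang δ pr q).subset ?_
    rintro L ⟨u, rfl⟩
    exact ⟨u.foldl δ q0, by rw [hW, ders_plang]⟩
  have hev : (top hc hfin).EvenC := Sys.evenC_of_bd hc.twoLoop hB hW B Unit _ (top hc hfin)
    (fun _ _ _ _ _ _ => rfl) (fun p => by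
      obtain ⟨u, hu⟩ := p.2
      refine ⟨u.foldl δ q0, ?_, fun w y _ => mp_bound δ pr hB _ _⟩
      change p.1 = _
      rw [hu, hW, ders_plang])
  intro G _
  have hread : ∀ (u : List C) (L : {L : Set (ℕ → C) // ∃ u, L = ders W u}),
      ∃ p', Pth (top hc hfin).st L u p' := by
    intro u
    induction u with
    | nil => intro L; exact ⟨L, rfl⟩
    | cons c u ih =>
      intro L
      obtain ⟨w, hw⟩ := L.2
      let L' : {L : Set (ℕ → C) // ∃ u, L = ders W u} :=
        ⟨der L.1 c, w ++ [c], by rw [ders_append, ← hw]; rfl⟩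
      obtain ⟨p', hp'⟩ := ih L'
      exact ⟨p', L', (show L'.1 = der L.1 c from rfl), hp'⟩
  have hgd : ∀ (x : Vx G W) (L : {L : Set (ℕ → C) // ∃ u, L = ders W u}),
      L.1 = ders W x.1.2.2 → Sys.Gd (top hc hfin) (Ex (G := G) (W := W)) x L := by
    intro x L hL
    refine ⟨fun u v' _ => hread u L, fun ρ γ h0 hs => ?_⟩
    change γ ∈ L.1
    rw [hL, ← h0]
    exact ex_inf hs
  obtain ⟨rk, θ, E', -, h2, h3, h4, h5, h6⟩ := hev (Vx G W) Ex (fun _ => ())
    (fun _ _ _ _ => trivial) (fun x => ⟨⟨_, x.1.2.2, rfl⟩, rfl, hgd x _ rfl⟩)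
  -- the vertex with the least rank above a vertex
  have hmin : ∀ v : G.V, ∃ o : Option (Vx G W), (∀ x ∈ o, x.1.1 = v) ∧
      ∀ x : Vx G W, x.1.1 = v → ∃ y ∈ o, rk y ≤ rk x := by
    intro v
    by_cases h : ∃ x : Vx G W, x.1.1 = v
    · have hne : {x : Vx G W | x.1.1 = v}.Nonempty := h
      obtain ⟨y, hy, hmin⟩ := exists_minimal_rk rk hne
      exact ⟨some y, fun x hx => by rw [← Option.mem_some_iff.1 hx]; exact hy,
        fun x hx => ⟨y, rfl, hmin x hx⟩⟩
    · exact ⟨none, fun x hx => absurd hx (by simp), fun x hx => absurd ⟨x, hx⟩ h⟩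
  choose o ho1 ho2 using hmin
  have hch : ∀ v : G.V, ∃ a : C × G.V, (G.eve v → G.edge v a.1 a.2) ∧
      ∀ x ∈ o v, G.eve v → a = x.1.2.1.next [] := by
    intro v
    by_cases h : ∃ x, x ∈ o v
    · obtain ⟨x, hx⟩ := h
      have hxv := ho1 v x hx
      refine ⟨x.1.2.1.next [], fun he => ?_, fun y hy _ => ?_⟩
      · obtain ⟨⟨v', s, u⟩, hw⟩ := x
        have : v' = v := hxv
        subst this
        exact s.legal (fun _ => v') (fun _ => (s.next []).1) 0 rfl
          (fun i hi => absurd hi (Nat.not_lt_zero _)) he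
      · rw [Option.mem_unique hx hy]
    · obtain ⟨c, v', h1⟩ := G.total v
      exact ⟨(c, v'), fun _ => h1, fun x hx => absurd ⟨x, hx⟩ h⟩
  choose a ha1 ha2 using hch
  refine ⟨⟨0, fun _ _ => 0⟩, ⟨fun v _ => a v, fun v _ he => ha1 v he⟩, fun v hv ρ γ hp hcs => ?_⟩
  have hcs' : ∀ n, G.eve (ρ n) → (γ n, ρ (n + 1)) = a (ρ n) := hcs
  obtain ⟨s, hs⟩ := hv
  let root : Vx G W := ⟨⟨v, s, []⟩, hs⟩
  -- successors
  have hsucc : ∀ n (x : Vx G W), x ∈ o (ρ n) → ∃ y : Vx G W, y.1.1 = ρ (n + 1) ∧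
      Ex x (γ n) y := by
    intro n x hx
    have hxv := ho1 _ x hx
    have hxa := ha2 _ x hx
    obtain ⟨⟨v', s', u⟩, hw⟩ := x
    have hv' : v' = ρ n := hxv
    subst hv'
    obtain ⟨s'', h7, h8⟩ := exists_rest s' hw (hp.step n) (fun he => by
      rw [hcs' n he]
      exact hxa he)
    refine ⟨⟨⟨ρ (n + 1), s'', u ++ [γ n]⟩, h8⟩, rfl, hp.step n, fun he => ?_, h7⟩
    change (γ n, ρ (n + 1)) = s'.next []
    rw [hcs' n he]
    exact hxa he
  have hex : ∀ n, ∃ x, x ∈ o (ρ n) := by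
    intro n
    induction n with
    | zero =>
      obtain ⟨y, hy, -⟩ := ho2 (ρ 0) root hp.start.symm
      exact ⟨y, hy⟩
    | succ n ih =>
      obtain ⟨x, hx⟩ := ih
      obtain ⟨y, hy, -⟩ := hsucc n x hx
      obtain ⟨z, hz, -⟩ := ho2 _ y hy
      exact ⟨z, hz⟩
  choose x hx using hex
  have hE' : ∀ n, E' (x n) (γ n) (x (n + 1)) := by
    intro n
    obtain ⟨y, hy, hy2⟩ := hsucc n (x n) (hx n)
    obtain ⟨z, hz, hz2⟩ := ho2 _ y hy
    rw [Option.mem_unique hz (hx (n + 1))] at hz2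
    exact h4 _ _ _ _ rfl hz2 (h3 _ _ _ hy2)
  have h7 := h5 x γ hE'
  have h8 : ((top hc hfin).ty (θ (x 0))) ⊆ W := by
    obtain ⟨z, hz, hz2⟩ := ho2 (ρ 0) root hp.start.symm
    rw [Option.mem_unique hz (hx 0)] at hz2
    have h9 := h6 (x 0) root rfl hz2
    have h10 := h2 root ⟨ders W [], [], rfl⟩ rfl (hgd root _ rfl)
    exact h9.trans h10
  exact h8 h7

end Q222.CM
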