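import Mathlib
import Pool.Agent.Q222.CM.Words

/-!
# One-player games with loops and exits at one vertex
-/

set_option autoImplicit false

open Filter

namespace Q222.CM

variable {C : Type}

/-- The game with a central vertex `inl []`, loops labelled with the words of `Lp` and exits labelled
with the infinite words of `Ex`; the other vertices read a finite word (and arrive in the
centre) or an infinite word. -/
def gadget (Lp : Set (List C)) (Ex : Set (ℕ → C))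
    (h : (∃ c l, (c :: l) ∈ Lp) ∨ ∃ γ, γ ∈ Ex) : Game C where
  V := List C ⊕ (ℕ → C)
  edge x c y := match x with
    | Sum.inl [] => (∃ l, (c :: l) ∈ Lp ∧ y = Sum.inl l) ∨ ∃ γ, γ ∈ Ex ∧ c = γ 0 ∧ y = Sum.inr (tl γ)
    | Sum.inl (a :: l) => c = a ∧ y = Sum.inl l
    | Sum.inr γ => c = γ 0 ∧ y = Sum.inr (tl γ)
  eve _ := True
  total x := by
    rcases x with (_ | ⟨a, l⟩) | γ
    · rcases h with ⟨c, l, h⟩ | ⟨γ, h⟩
      · exact ⟨c, Sum.inl l, Or.inl ⟨l, h, rfl⟩⟩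
      · exact ⟨γ 0, Sum.inr (tl γ), Or.inr ⟨γ, h, rfl, rfl⟩⟩
    · exact ⟨a, Sum.inl l, rfl, rfl⟩
    · exact ⟨γ 0, Sum.inr (tl γ), rfl, rfl⟩

/-- infinite paths by coinduction -/
theorem exists_path_of_inv {V : Type} (step : V → C → V → Prop) (Inv : V → (ℕ → C) → Prop)
    (h : ∀ v γ, Inv v γ → ∃ v', step v (γ 0) v' ∧ Inv v' (tl γ)) {v : V} {γ : ℕ → C}
    (hv : Inv v γ) : ∃ ρ : ℕ → V, ρ 0 = v ∧ ∀ n, step (ρ n) (γ n) (ρ (n + 1)) := by
  classical
  choose! nx hnx1 hnx2 using h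
  let st : ℕ → V × (ℕ → C) := fun n => Nat.rec (v, γ) (fun _ p => (nx p.1 p.2, tl p.2)) n
  have hst : ∀ n, st (n + 1) = (nx (st n).1 (st n).2, tl (st n).2) := fun n => rfl
  have hγ : ∀ n i, (st n).2 i = γ (n + i) := by
    intro n
    induction n with
    | zero => intro i; rw [Nat.zero_add]; rfl
    | succ n ih =>
      intro i
      rw [hst]
      change (st n).2 (i + 1) = _
      rw [ih]
      congr 1
      omega
  have hInv : ∀ n, Inv (st n).1 (st n).2 := by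
    intro n
    induction n with
    | zero => exact hv
    | succ n ih => rw [hst]; exact hnx2 _ _ ih
  refine ⟨fun n => (st n).1, rfl, fun n => ?_⟩
  have := hnx1 _ _ (hInv n)
  rw [hγ n 0, Nat.add_zero] at this
  exact this

section

variable {Lp : Set (List C)} {Ex : Set (ℕ → C)} {h : (∃ c l, (c :: l) ∈ Lp) ∨ ∃ γ, γ ∈ Ex}

/-- there is a play from `v` with the colours `γ` -/
def PF (G : Game C) (v : G.V) (γ : ℕ → C) : Prop := ∃ ρ, IsPlay G v ρ γ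

theorem PF.cons {G : Game C} {v v' : G.V} {c : C} {γ : ℕ → C} (he : G.edge v c v')
    (hp : PF G v' γ) : PF G v (cons c γ) := by
  obtain ⟨ρ, hρ⟩ := hp
  refine ⟨fun n => Nat.casesOn n v ρ, rfl, fun n => ?_⟩
  cases n with
  | zero =>
    change G.edge v c (ρ 0)
    rw [hρ.start]; exact he
  | succ n => exact hρ.step n

theorem pf_list {l : List C} {γ : ℕ → C} (hp : PF (gadget Lp Ex h) (Sum.inl []) γ) :
    PF (gadget Lp Ex h) (Sum.inl l) (app l γ) := by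
  induction l with
  | nil => exact hp
  | cons c l ih => exact PF.cons (G := gadget Lp Ex h) ⟨rfl, rfl⟩ ih

theorem pf_inr (γ : ℕ → C) : PF (gadget Lp Ex h) (Sum.inr γ) γ := by
  obtain ⟨ρ, h0, hs⟩ := exists_path_of_inv (gadget Lp Ex h).edge
    (fun v γ => v = Sum.inr γ) (fun v γ hv => by
      subst hv
      exact ⟨Sum.inr (tl γ), ⟨rfl, rfl⟩, rfl⟩) (v := Sum.inr γ) (γ := γ) rfl
  exact ⟨ρ, h0, hs⟩

theorem pf_exit {γ : ℕ → C} (hγ : γ ∈ Ex) : PF (gadget Lp Ex h) (Sum.inl []) γ := by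
  have := PF.cons (G := gadget Lp Ex h) (v := Sum.inl []) (c := γ 0) (v' := Sum.inr (tl γ))
    (Or.inr ⟨γ, hγ, rfl, rfl⟩) (pf_inr (tl γ))
  rwa [cons_tl] at this

theorem pf_loop {x : List C} (hx : x ∈ Lp) (hx0 : x ≠ []) {γ : ℕ → C}
    (hp : PF (gadget Lp Ex h) (Sum.inl []) γ) : PF (gadget Lp Ex h) (Sum.inl []) (app x γ) := by
  cases x with
  | nil => exact absurd rfl hx0
  | cons c l => exact PF.cons (G := gadget Lp Ex h) (Or.inl ⟨l, hx, rfl⟩) (pf_list hp)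

theorem pf_flat {f : ℕ → List C} (hf : ∀ s, f s ∈ Lp) (hf0 : ∀ s, f s ≠ []) {γ : ℕ → C}
    (hγ : Flat f γ) : PF (gadget Lp Ex h) (Sum.inl []) γ := by
  obtain ⟨g, h0, hs⟩ := hγ
  obtain ⟨ρ, h1, h2⟩ := exists_path_of_inv (gadget Lp Ex h).edge
    (fun v γ => ∃ l s, v = Sum.inl l ∧ γ = app l (g s)) (fun v γ hv => by
      obtain ⟨l, s, rfl, rfl⟩ := hv
      cases l with
      | nil =>
        have h3 : app [] (g s) = app (f s) (g (s + 1)) := hs s
        obtain ⟨c, l, hfs⟩ := List.exists_cons_of_ne_nil (hf0 s)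
        have hm : (c :: l) ∈ Lp := by rw [← hfs]; exact hf s
        rw [h3, hfs]
        exact ⟨Sum.inl l, Or.inl ⟨l, hm, rfl⟩, l, s + 1, rfl, rfl⟩
      | cons c l => exact ⟨Sum.inl l, ⟨rfl, rfl⟩, l, s, rfl, rfl⟩)
    (v := Sum.inl []) (γ := γ) ⟨[], 0, rfl, h0.symm⟩
  exact ⟨ρ, h1, h2⟩

/-- A positional strategy repeats one loop or takes one exit, for all starting words. -/
theorem gadget_choice {W : Set (ℕ → C)} (hW : MemLE OnePlayer W 1)
    (h : (∃ c l, (c :: l) ∈ Lp) ∨ ∃ γ, γ ∈ Ex) :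
    (∃ x ∈ Lp, ∃ γ, Flat (fun _ => x) γ ∧ ∀ u, (∃ γ', PF (gadget Lp Ex h) (Sum.inl []) γ' ∧
      app u γ' ∈ W) → app u γ ∈ W) ∨
    (∃ γ ∈ Ex, ∀ u, (∃ γ', PF (gadget Lp Ex h) (Sum.inl []) γ' ∧ app u γ' ∈ W) →
      app u γ ∈ W) := by
  obtain ⟨S, ch, hch⟩ := hW (gadget Lp Ex h) (fun _ => trivial)
  have hS : ∀ γ n, S.mem γ n = 0 := fun γ n => Subsingleton.elim _ _
  have hwin : ∀ u, (∃ γ', PF (gadget Lp Ex h) (Sum.inl []) γ' ∧ app u γ' ∈ W) →
      ChromWins (gadget Lp Ex h) W S ch (Sum.inl u) := by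
    rintro u ⟨γ', h1, h2⟩
    apply hch
    rw [eveWins_one (fun _ => trivial)]
    obtain ⟨ρ, hρ⟩ := pf_list (l := u) h1
    exact ⟨ρ, _, hρ, h2⟩
  -- steps which follow the strategy
  let step : (gadget Lp Ex h).V → C → (gadget Lp Ex h).V → Prop := fun v c v' =>
    (gadget Lp Ex h).edge v c v' ∧ (c, v') = ch.next v 0
  have hin : ∀ u γ, (∃ ρ : ℕ → (gadget Lp Ex h).V, ρ 0 = Sum.inl u ∧
      ∀ n, step (ρ n) (γ n) (ρ (n + 1))) →
      (∃ γ', PF (gadget Lp Ex h) (Sum.inl []) γ' ∧ app u γ' ∈ W) → γ ∈ W := by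
    rintro u γ ⟨ρ, h0, hs⟩ h1
    refine hwin u h1 ρ γ ⟨h0, fun n => (hs n).1⟩ fun n _ => ?_
    rw [hS]
    exact (hs n).2
  have hcons : ∀ (a : C) (l : List C), step (Sum.inl (a :: l)) a (Sum.inl l) := by
    intro a l
    have := ch.legal (Sum.inl (a :: l)) 0 trivial
    refine ⟨⟨rfl, rfl⟩, ?_⟩
    exact Prod.ext this.1.symm this.2.symm
  have hinr : ∀ γ : ℕ → C, step (Sum.inr γ) (γ 0) (Sum.inr (tl γ)) := by
    intro γ
    have := ch.legal (Sum.inr γ) 0 trivial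
    refine ⟨⟨rfl, rfl⟩, ?_⟩
    exact Prod.ext this.1.symm this.2.symm
  have hc := ch.legal (Sum.inl []) 0 trivial
  rcases hc with ⟨l, hl, hy⟩ | ⟨γ, hγ, hc1, hy⟩
  · left
    obtain ⟨γ, hγ⟩ := exists_pow (x := (ch.next (Sum.inl []) 0).1 :: l) (by simp)
    refine ⟨_, hl, γ, hγ, fun u hu => hin u _ ?_ hu⟩
    obtain ⟨g, h0, hs⟩ := hγ
    refine exists_path_of_inv step (fun v γ => ∃ l' s, v = Sum.inl l' ∧ γ = app l' (g s))
      (fun v γ hv => ?_) (v := Sum.inl u) (γ := app u γ) ⟨u, 0, rfl, by rw [h0]⟩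
    obtain ⟨l', s, rfl, rfl⟩ := hv
    cases l' with
    | nil =>
      have h3 : app [] (g s) = app ((ch.next (Sum.inl []) 0).1 :: l) (g (s + 1)) := hs s
      rw [h3]
      refine ⟨Sum.inl l, ⟨Or.inl ⟨l, hl, rfl⟩, ?_⟩, l, s + 1, rfl, rfl⟩
      exact Prod.ext rfl hy.symm
    | cons c l' => exact ⟨Sum.inl l', hcons c l', l', s, rfl, rfl⟩
  · right
    refine ⟨γ, hγ, fun u hu => hin u _ ?_ hu⟩
    refine exists_path_of_inv step (fun v γ' => (∃ l', v = Sum.inl l' ∧ γ' = app l' γ) ∨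
      v = Sum.inr γ') (fun v γ' hv => ?_) (v := Sum.inl u) (γ := app u γ) (Or.inl ⟨u, rfl, rfl⟩)
    rcases hv with ⟨l', rfl, rfl⟩ | rfl
    · cases l' with
      | nil =>
        refine ⟨Sum.inr (tl γ), ⟨Or.inr ⟨γ, hγ, rfl, rfl⟩, ?_⟩, Or.inr rfl⟩
        exact Prod.ext hc1.symm hy.symm
      | cons c l' => exact ⟨Sum.inl l', hcons c l', Or.inl ⟨l', rfl, rfl⟩⟩
    · exact ⟨Sum.inr (tl γ'), hinr γ', Or.inr rfl⟩

end

/-- Positional strategies in one-player games give the conditions. -/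
theorem cond_of_one {W : Set (ℕ → C)} (hW : MemLE OnePlayer W 1) : Cond W := by
  refine ⟨fun u v => ?_, fun u x hx hlt => ?_, fun u f γ hγ hf hmem => ?_⟩
  · by_contra hno
    push Not at hno
    obtain ⟨h1, h2⟩ := hno
    obtain ⟨γ1, h3, h4⟩ := Set.not_subset.1 h1
    obtain ⟨γ2, h5, h6⟩ := Set.not_subset.1 h2
    have hne : (∃ c l, (c :: l) ∈ (∅ : Set (List C))) ∨ ∃ γ, γ ∈ ({γ1, γ2} : Set (ℕ → C)) :=
      Or.inr ⟨γ1, by simp⟩
    rcases gadget_choice hW (Lp := ∅) (Ex := {γ1, γ2}) hne with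
      ⟨x, hx, -⟩ | ⟨γ, hγ, hall⟩
    · exact absurd hx (Set.notMem_empty _)
    · have e1 := hall u ⟨γ1, pf_exit (by simp), (mem_ders _ _ _).1 h3⟩
      have e2 := hall v ⟨γ2, pf_exit (by simp), (mem_ders _ _ _).1 h5⟩
      rw [← mem_ders] at e1 e2
      rcases hγ with rfl | rfl
      · exact h4 e2
      · exact h6 e1
  · obtain ⟨γ, h1, h2⟩ := Set.exists_of_ssubset hlt
    have hne : (∃ c l, (c :: l) ∈ ({x} : Set (List C))) ∨ ∃ γ', γ' ∈ ({γ} : Set (ℕ → C)) :=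
      Or.inr ⟨γ, rfl⟩
    rcases gadget_choice hW (Lp := {x}) (Ex := {γ}) hne with
      ⟨y, hy, γ', hγ', hall⟩ | ⟨γ', hγ', hall⟩
    · rw [Set.mem_singleton_iff.1 hy] at hγ'
      refine ⟨γ', hγ', ?_⟩
      rw [mem_ders]
      refine hall u ⟨app x γ, pf_loop (Set.mem_singleton x) hx (pf_exit (Set.mem_singleton γ)), ?_⟩
      rw [← mem_ders, ← mem_ders]
      exact h1
    · exfalso
      rw [Set.mem_singleton_iff.1 hγ'] at hall
      apply h2
      rw [mem_ders]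
      refine hall u ⟨app x γ, pf_loop (Set.mem_singleton x) hx (pf_exit (Set.mem_singleton γ)), ?_⟩
      rw [← mem_ders, ← mem_ders]
      exact h1
  · have hne : (∃ c l, (c :: l) ∈ Set.range f) ∨ ∃ γ', γ' ∈ (∅ : Set (ℕ → C)) := by
      left
      obtain ⟨c, l, h⟩ := List.exists_cons_of_ne_nil (hf 0).1
      exact ⟨c, l, 0, h⟩
    rcases gadget_choice hW (Lp := Set.range f) (Ex := ∅) hne with
      ⟨y, ⟨s, hy⟩, γ', hγ', hall⟩ | ⟨γ', hγ', -⟩
    · subst hy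
      refine (hf s).2.2 γ' hγ' ?_
      rw [mem_ders]
      exact hall u ⟨γ, pf_flat (fun s => Set.mem_range_self s) (fun s => (hf s).1) hγ, (mem_ders _ _ _).1 hmem⟩
    · exact absurd hγ' (Set.notMem_empty _)

end Q222.CM
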