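import Mathlib
import Pool.Agent.Q222.CM.Defs

/-!
# The product of a game with a skeleton
-/

set_option autoImplicit false

open Filter

namespace Q222.CM

variable {C : Type} {k : ℕ}

/-- the product of a game with a skeleton; the edges are labelled with the state -/
def prodG (S : Skeleton C k) (G : Game C) : Game (Fin k × C) where
  V := G.V × Fin k
  edge x a y := a.1 = x.2 ∧ G.edge x.1 a.2 y.1 ∧ y.2 = S.upd x.2 a.2
  eve x := G.eve x.1
  total x := by
    obtain ⟨c, v', h⟩ := G.total x.1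
    exact ⟨(x.2, c), (v', S.upd x.2 c), rfl, h, rfl⟩

theorem prod_mem (S : Skeleton C k) (G : Game C) {v : G.V} {ρ : ℕ → (prodG S G).V}
    {w : ℕ → Fin k × C} (n : ℕ) (h0 : ρ 0 = (v, S.init))
    (h : ∀ i, i < n → (prodG S G).edge (ρ i) (w i) (ρ (i + 1))) :
    (ρ n).2 = S.mem (fun i => (w i).2) n := by
  induction n with
  | zero => rw [h0]; rfl
  | succ n ih =>
    have h1 := h n (by omega)
    rw [h1.2.2, ih fun i hi => h i (by omega)]
    rfl

theorem eveWins_prod (S : Skeleton C k) (G : Game C) {W : Set (ℕ → C)} {v : G.V}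
    (h : EveWins G W v) : EveWins (prodG S G) (derived S W) (v, S.init) := by
  obtain ⟨s, hs⟩ := h
  let pr : List ((Fin k × C) × (G.V × Fin k)) → List (C × G.V) :=
    fun l => l.map fun x => (x.1.2, x.2.1)
  let cur : List ((Fin k × C) × (G.V × Fin k)) → Fin k :=
    fun l => l.foldl (fun m x => S.upd m x.1.2) S.init
  have hpr : ∀ (ρ : ℕ → G.V × Fin k) (w : ℕ → Fin k × C) (n : ℕ),
      pr (hist ρ w n) = hist (fun i => (ρ i).1) (fun i => (w i).2) n := by
    intro ρ w n
    simp [pr, hist]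
  have hcur : ∀ (ρ : ℕ → G.V × Fin k) (w : ℕ → Fin k × C) (n : ℕ),
      cur (hist ρ w n) = S.mem (fun i => (w i).2) n := by
    intro ρ w n
    induction n with
    | zero => rfl
    | succ n ih =>
      simp only [cur] at ih ⊢
      rw [hist_succ, List.foldl_append, ih]
      rfl
  let nx : List ((Fin k × C) × (G.V × Fin k)) → (Fin k × C) × (G.V × Fin k) := fun l =>
    ((cur l, (s.next (pr l)).1), ((s.next (pr l)).2, S.upd (cur l) (s.next (pr l)).1))
  refine ⟨⟨nx, ?_⟩, ?_⟩
  · intro ρ w n h0 hst he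
    have hm := prod_mem S G n h0 hst
    have hl := s.legal (fun i => (ρ i).1) (fun i => (w i).2) n (by rw [h0])
      (fun i hi => (hst i hi).2.1) he
    refine ⟨?_, ?_, ?_⟩
    · change cur (hist ρ w n) = (ρ n).2
      rw [hcur, hm]
    · change G.edge (ρ n).1 (s.next (pr (hist ρ w n))).1 (s.next (pr (hist ρ w n))).2
      rw [hpr]
      exact hl
    · change S.upd (cur (hist ρ w n)) (s.next (pr (hist ρ w n))).1 =
        S.upd (ρ n).2 (s.next (pr (hist ρ w n))).1
      rw [hcur, hm]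
  · intro ρ w hp hc
    refine Or.inl ⟨fun n => ?_, ?_⟩
    · rw [(hp.step n).1]
      exact prod_mem S G n hp.start fun i _ => hp.step i
    · refine hs (fun i => (ρ i).1) (fun i => (w i).2) ⟨by rw [hp.start], fun n =>
        (hp.step n).2.1⟩ fun n he => ?_
      have h1 : (w n, ρ (n + 1)) = nx (hist ρ w n) := hc n he
      rw [← hpr ρ w n]
      exact congrArg (fun x : (Fin k × C) × (G.V × Fin k) => (x.1.2, x.2.1)) h1

/-- Positional strategies for the derived objective give strategies with the skeleton. -/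
theorem suffices_of_derived {P : Game C → Prop} {P' : Game (Fin k × C) → Prop}
    {S : Skeleton C k} (hP : ∀ G, P G → P' (prodG S G)) {W : Set (ℕ → C)}
    (h : MemLE P' (derived S W) 1) : Suffices P W S := by
  intro G hG
  obtain ⟨T, τ, hτ⟩ := h (prodG S G) (hP G hG)
  refine ⟨⟨fun v m => ((τ.next (v, m) 0).1.2, (τ.next (v, m) 0).2.1), fun v m he =>
    (τ.legal (v, m) 0 he).2.1⟩, fun v hv => ?_⟩
  intro ρ γ hp hc
  have hw := hτ (v, S.init) (eveWins_prod S G hv)
    (fun n => (ρ n, S.mem γ n)) (fun n => (S.mem γ n, γ n)) ⟨?_, ?_⟩ ?_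
  · rcases hw with hw | ⟨n, -, hn⟩
    · exact hw.2
    · exact absurd hn (lt_irrefl _)
  · change (ρ 0, S.mem γ 0) = _
    rw [hp.start]; rfl
  · intro n
    exact ⟨rfl, hp.step n, rfl⟩
  · intro n he
    have h1 : (γ n, ρ (n + 1)) = ((τ.next (ρ n, S.mem γ n) 0).1.2,
      (τ.next (ρ n, S.mem γ n) 0).2.1) := hc n he
    have h2 := τ.legal (ρ n, S.mem γ n) 0 he
    have h3 : T.mem (fun n => (S.mem γ n, γ n)) n = 0 := Subsingleton.elim _ _
    beta_reduce
    rw [h3]
    have key : ∀ t : (Fin k × C) × (G.V × Fin k), (γ n, ρ (n + 1)) = (t.1.2, t.2.1) →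
        t.1.1 = S.mem γ n → t.2.2 = S.upd (S.mem γ n) t.1.2 →
        ((S.mem γ n, γ n), (ρ (n + 1), S.mem γ (n + 1))) = t := by
      rintro ⟨⟨t1, t2⟩, ⟨t3, t4⟩⟩ k1 k2 k3
      obtain ⟨e1, e2⟩ := Prod.ext_iff.1 k1
      simp only at e1 e2 k2 k3
      subst e1 e2 k2 k3
      rfl
    exact key _ h1 h2.1 h2.2.2

end Q222.CM
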