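import Mathlib
import Pool.Agent.Q222.CM.Prod

/-!
# A skeleton which suffices over one-player games makes the derived objective positional there
-/

set_option autoImplicit false

open Filter

namespace Q222.CM

variable {C : Type} {k : ℕ}

section

variable (H : Game (Fin k × C))

/-- the largest label of an edge leaving `v` -/
theorem exists_lam (v : H.V) : ∃ l : Fin k, (∃ a v', H.edge v (l, a) v') ∧
    ∀ l' a v', H.edge v (l', a) v' → l' ≤ l := by
  classical
  obtain ⟨⟨l0, a0⟩, v0, h0⟩ := H.total v
  obtain ⟨l, hl, hm⟩ := Finset.exists_max_image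
    (Finset.univ.filter fun l : Fin k => ∃ a v', H.edge v (l, a) v') id
    ⟨l0, by simpa using ⟨a0, v0, h0⟩⟩
  refine ⟨l, by simpa using hl, fun l' a v' h => hm l' (by simpa using ⟨a, v', h⟩)⟩

/-- the largest label of an edge leaving `v` -/
noncomputable def lam (v : H.V) : Fin k := (exists_lam H v).choose

theorem lam_ex (v : H.V) : ∃ a v', H.edge v (lam H v, a) v' := (exists_lam H v).choose_spec.1

theorem lam_max {v : H.V} {x : Fin k × C} {v' : H.V} (h : H.edge v x v') : x.1 ≤ lam H v :=
  (exists_lam H v).choose_spec.2 x.1 x.2 v' h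

variable (S : Skeleton C k)

/-- `v` reaches an edge going up after `n` edges which are right -/
def Up : ℕ → H.V → Prop
  | 0, v => ∃ a v', H.edge v (lam H v, a) v' ∧ S.upd (lam H v) a < lam H v'
  | n + 1, v => ∃ a v', H.edge v (lam H v, a) v' ∧ S.upd (lam H v) a = lam H v' ∧ Up n v'

/-- there is an infinite path of right edges from `v` -/
def Inf (v : H.V) : Prop := ∃ (ρ : ℕ → H.V) (α : ℕ → C), ρ 0 = v ∧ ∀ n,
  H.edge (ρ n) (lam H (ρ n), α n) (ρ (n + 1)) ∧ S.upd (lam H (ρ n)) (α n) = lam H (ρ (n + 1))

/-- the vertices of the smaller game -/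
def Bset (v : H.V) : Prop := (∀ n, ¬ Up H S n v) ∧ Inf H S v

theorem bset_step {v : H.V} (h : Bset H S v) : ∃ a v', H.edge v (lam H v, a) v' ∧
    S.upd (lam H v) a = lam H v' ∧ Bset H S v' := by
  obtain ⟨h1, ρ, α, h0, hs⟩ := h
  refine ⟨α 0, ρ 1, by rw [← h0]; exact (hs 0).1, by rw [← h0]; exact (hs 0).2, fun n hn => ?_,
    fun i => ρ (i + 1), fun i => α (i + 1), rfl, fun n => hs (n + 1)⟩
  refine h1 (n + 1) ⟨α 0, ρ 1, by rw [← h0]; exact (hs 0).1, by rw [← h0]; exact (hs 0).2, hn⟩

/-- the smaller game: the right edges between the vertices from which no edge going up can be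
reached -/
noncomputable def gameB : Game C where
  V := {v : H.V // Bset H S v}
  edge x a y := H.edge x.1 (lam H x.1, a) y.1 ∧ S.upd (lam H x.1) a = lam H y.1
  eve _ := True
  total x := by
    obtain ⟨a, v', h1, h2, h3⟩ := bset_step H S x.2
    exact ⟨a, ⟨v', h3⟩, h1, h2⟩

end

theorem derived_positional (S : Skeleton C k) {W : Set (ℕ → C)}
    (h : Suffices OnePlayer W S) : MemLE OnePlayer (derived S W) 1 := by
  classical
  intro H hH
  obtain ⟨ch, hch⟩ := h (gameB H S) (fun _ => trivial)
  -- the positional strategy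
  have hex : ∀ v : H.V, ∃ (a : C) (v' : H.V), H.edge v (lam H v, a) v' ∧
      (∀ n, Up H S n v → (S.upd (lam H v) a < lam H v' ∨ (S.upd (lam H v) a = lam H v' ∧
        ∃ m, m < n ∧ Up H S m v'))) ∧
      (∀ hb : Bset H S v, a = (ch.next ⟨v, hb⟩ (lam H v)).1 ∧
        v' = (ch.next ⟨v, hb⟩ (lam H v)).2.1) := by
    intro v
    by_cases hu : ∃ n, Up H S n v
    · have hb : ¬ Bset H S v := fun hb => hb.1 _ hu.choose_spec
      have h1 := Nat.find_spec hu
      have h2 : ∀ n, Up H S n v → Nat.find hu ≤ n := fun n hn => Nat.find_min' hu hn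
      revert h1 h2
      generalize Nat.find hu = d
      intro h1 h2
      cases d with
      | zero =>
        obtain ⟨a, v', e1, e2⟩ := h1
        exact ⟨a, v', e1, fun n _ => Or.inl e2, fun hb' => absurd hb' hb⟩
      | succ d =>
        obtain ⟨a, v', e1, e2, e3⟩ := h1
        exact ⟨a, v', e1, fun n hn => Or.inr ⟨e2, d, by have := h2 n hn; omega, e3⟩,
          fun hb' => absurd hb' hb⟩
    · by_cases hb : Bset H S v
      · have hl := ch.legal ⟨v, hb⟩ (lam H v) trivial
        refine ⟨_, _, hl.1, fun n hn => absurd ⟨n, hn⟩ hu, fun _ => ⟨rfl, rfl⟩⟩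
      · obtain ⟨a, v', e1⟩ := lam_ex H v
        exact ⟨a, v', e1, fun n hn => absurd ⟨n, hn⟩ hu, fun hb' => absurd hb' hb⟩
  choose na nv hE hU hB using hex
  refine ⟨⟨0, fun _ _ => 0⟩, ⟨fun v _ => ((lam H v, na v), nv v), fun v _ _ => hE v⟩,
    fun v hv => ?_⟩
  intro ρ w hp hc
  have hw : ∀ n, w n = (lam H (ρ n), na (ρ n)) := fun n => congrArg Prod.fst (hc n (hH _))
  have hρ : ∀ n, ρ (n + 1) = nv (ρ n) := fun n => congrArg Prod.snd (hc n (hH _))
  clear hc
  -- the memory
  obtain ⟨q, hq⟩ : ∃ q : ℕ → Fin k, q = S.mem fun i => (w i).2 := ⟨_, rfl⟩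
  have hq0 : q 0 = S.init := by rw [hq]; rfl
  have hq1 : ∀ n, q (n + 1) = S.upd (q n) (na (ρ n)) := by
    intro n
    have : q (n + 1) = S.upd (q n) (w n).2 := by rw [hq]; rfl
    rw [this, hw n]
  -- reaching an edge going up is enough
  have hup : ∀ n i, Up H S n (ρ i) → q i = lam H (ρ i) → (∀ j, j < i → q j = lam H (ρ j)) →
      w ∈ derived S W := by
    intro n
    induction n using Nat.strong_induction_on with
    | _ n ih =>
      intro i hi hqi hlt
      rcases hU (ρ i) n hi with h1 | ⟨h1, m, hm, h2⟩
      · refine Or.inr ⟨i + 1, fun j hj => ?_, ?_⟩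
        · rw [hw j, ← hq]
          rcases Nat.lt_succ_iff_lt_or_eq.1 hj with h3 | h3
          · exact (hlt j h3).symm
          · rw [h3]; exact hqi.symm
        · rw [hw (i + 1), ← hq, hq1, hqi, hρ i]
          exact h1
      · refine ih m hm (i + 1) (by rw [hρ i]; exact h2) ?_ fun j hj => ?_
        · rw [hq1, hqi, hρ i]
          exact h1
        · rcases Nat.lt_succ_iff_lt_or_eq.1 hj with h3 | h3
          · exact hlt j h3
          · rw [h3]; exact hqi
  obtain ⟨ρ', w', hp', hw'⟩ := (eveWins_one hH).1 hv
  obtain ⟨q', hq'⟩ : ∃ q' : ℕ → Fin k, q' = S.mem fun i => (w' i).2 := ⟨_, rfl⟩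
  have hq0' : q' 0 = S.init := by rw [hq']; rfl
  have hq1' : ∀ n, q' (n + 1) = S.upd (q' n) (w' n).2 := by
    intro n
    rw [hq']; rfl
  rcases lt_trichotomy (lam H v) S.init with h0 | h0 | h0
  · -- the given play cannot be winning
    exfalso
    have h1 : (w' 0).1 < S.init := lt_of_le_of_lt (lam_max H (hp'.start ▸ hp'.step 0)) h0
    rcases hw' with ⟨h2, -⟩ | ⟨n, h2, h3⟩
    · have := h2 0
      rw [← hq', hq0'] at this
      exact absurd h1 (by rw [this]; exact lt_irrefl _)
    · cases n with
      | zero =>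
        rw [← hq', hq0'] at h3
        exact absurd h1 (not_lt.2 h3.le)
      | succ n =>
        have := h2 0 (by omega)
        rw [← hq', hq0'] at this
        exact absurd h1 (by rw [this]; exact lt_irrefl _)
  · -- the interesting case
    by_cases hu : ∃ n, Up H S n v
    · obtain ⟨n, hn⟩ := hu
      exact hup n 0 (by rw [hp.start]; exact hn) (by rw [hq0, hp.start, h0])
        (fun j hj => absurd hj (Nat.not_lt_zero _))
    · push_neg at hu
      -- the given play follows the right edges
      have key : ∀ n, (∀ j, j < n → (w' j).1 = q' j) →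
          (∀ j, j ≤ n → q' j = lam H (ρ' j)) ∧ ∀ m, ¬ Up H S m (ρ' n) := by
        intro n
        induction n with
        | zero =>
          intro _
          refine ⟨fun j hj => ?_, fun m hm => hu m (by rw [← hp'.start]; exact hm)⟩
          have : j = 0 := by omega
          rw [this, hq0', hp'.start, h0]
        | succ n ih =>
          intro hj
          obtain ⟨i1, i2⟩ := ih fun j hj' => hj j (by omega)
          have e1 : (w' n).1 = lam H (ρ' n) := by rw [hj n (by omega), i1 n le_rfl]
          have e2 : H.edge (ρ' n) (lam H (ρ' n), (w' n).2) (ρ' (n + 1)) := by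
            rw [← e1]; exact hp'.step n
          have e3 : S.upd (lam H (ρ' n)) (w' n).2 = q' (n + 1) := by
            rw [hq1', i1 n le_rfl]
          -- not up
          have e4 : ¬ S.upd (lam H (ρ' n)) (w' n).2 < lam H (ρ' (n + 1)) := fun hlt =>
            i2 0 ⟨_, _, e2, hlt⟩
          -- not down
          have e5 : ¬ lam H (ρ' (n + 1)) < S.upd (lam H (ρ' n)) (w' n).2 := by
            intro hlt
            rw [e3] at hlt
            have h1 : (w' (n + 1)).1 < q' (n + 1) :=
              lt_of_le_of_lt (lam_max H (hp'.step (n + 1))) hlt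
            rcases hw' with ⟨h2, -⟩ | ⟨m, h2, h3⟩
            · have := h2 (n + 1)
              rw [← hq'] at this
              exact absurd h1 (by rw [this]; exact lt_irrefl _)
            · rw [← hq'] at h2 h3
              rcases lt_trichotomy m (n + 1) with h4 | h4 | h4
              · have := hj m h4
                rw [this] at h3
                exact lt_irrefl _ h3
              · rw [h4] at h3
                exact absurd h1 (not_lt.2 h3.le)
              · have := h2 (n + 1) h4
                exact absurd h1 (by rw [this]; exact lt_irrefl _)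
          have e6 : S.upd (lam H (ρ' n)) (w' n).2 = lam H (ρ' (n + 1)) :=
            le_antisymm (not_lt.1 e5) (not_lt.1 e4)
          refine ⟨fun j hj' => ?_, fun m hm => i2 (m + 1) ⟨_, _, e2, e6, hm⟩⟩
          rcases Nat.of_le_succ hj' with h1 | h1
          · exact i1 j h1
          · rw [h1, ← e3, e6]
      -- so its word is of the first kind
      have hfirst : (∀ n, (w' n).1 = q' n) ∧ (fun i => (w' i).2) ∈ W := by
        rcases hw' with ⟨h2, h3⟩ | ⟨m, h2, h3⟩
        · rw [← hq'] at h2
          exact ⟨h2, h3⟩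
        · exfalso
          rw [← hq'] at h2 h3
          obtain ⟨i1, i2⟩ := key m h2
          have h4 : (w' m).1 ≤ q' m := by
            rw [i1 m le_rfl]
            exact lam_max H (hp'.step m)
          exact absurd h3 (not_lt.2 h4)
      have hlam' : ∀ n, q' n = lam H (ρ' n) := fun n =>
        (key n fun j _ => hfirst.1 j).1 n le_rfl
      have hnup' : ∀ n m, ¬ Up H S m (ρ' n) := fun n =>
        (key n fun j _ => hfirst.1 j).2
      have hedge' : ∀ n, H.edge (ρ' n) (lam H (ρ' n), (w' n).2) (ρ' (n + 1)) ∧
          S.upd (lam H (ρ' n)) (w' n).2 = lam H (ρ' (n + 1)) := by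
        intro n
        refine ⟨?_, ?_⟩
        · have := hp'.step n
          rw [← hlam' n, ← hfirst.1 n]
          exact this
        · rw [← hlam' n, ← hlam' (n + 1), hq1']
      have hBset' : ∀ n, Bset H S (ρ' n) := fun n =>
        ⟨hnup' n, fun i => ρ' (n + i), fun i => (w' (n + i)).2, rfl, fun i => hedge' (n + i)⟩
      have hvB : Bset H S v := hp'.start ▸ hBset' 0
      -- Eve wins the smaller game
      have hwin : EveWins (gameB H S) W ⟨v, hvB⟩ := by
        rw [eveWins_one (fun _ => trivial)]
        exact ⟨fun n => ⟨ρ' n, hBset' n⟩, fun n => (w' n).2,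
          ⟨Subtype.ext hp'.start, fun n => hedge' n⟩, hfirst.2⟩
      have hcw := hch ⟨v, hvB⟩ hwin
      -- the play of the positional strategy
      have hplay : ∀ n, Bset H S (ρ n) ∧ q n = lam H (ρ n) := by
        intro n
        induction n with
        | zero => exact ⟨by rw [hp.start]; exact hvB, by rw [hq0, hp.start, h0]⟩
        | succ n ih =>
          obtain ⟨b1, b2⟩ := hB (ρ n) ih.1
          have hl := ch.legal ⟨ρ n, ih.1⟩ (lam H (ρ n)) trivial
          have h1 : ρ (n + 1) = (ch.next ⟨ρ n, ih.1⟩ (lam H (ρ n))).2.1 := by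
            rw [hρ n, b2]
          refine ⟨?_, ?_⟩
          · rw [h1]
            exact (ch.next ⟨ρ n, ih.1⟩ (lam H (ρ n))).2.2
          · rw [hq1, ih.2, h1, b1]
            exact hl.2
      have hb1 : ∀ n, Bset H S (ρ n) := fun n => (hplay n).1
      have hb2 : ∀ n, q n = lam H (ρ n) := fun n => (hplay n).2
      clear hplay
      refine Or.inl ⟨fun n => ?_, ?_⟩
      · rw [← hq, hw n]
        exact (hb2 n).symm
      · refine hcw (fun n => ⟨ρ n, hb1 n⟩) (fun i => (w i).2)
          ⟨Subtype.ext hp.start, fun n => ?_⟩ fun n _ => ?_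
        · refine ⟨?_, ?_⟩
          · have := hE (ρ n)
            change H.edge (ρ n) (lam H (ρ n), (w n).2) (ρ (n + 1))
            rw [hw n, hρ n]
            exact this
          · change S.upd (lam H (ρ n)) (w n).2 = lam H (ρ (n + 1))
            rw [hw n, ← hb2 n, ← hb2 (n + 1), hq1]
        · obtain ⟨b1, b2⟩ := hB (ρ n) (hb1 n)
          have e : S.mem (fun i => (w i).2) n = lam H (ρ n) := by rw [← hq]; exact hb2 n
          rw [e]
          refine Prod.ext ?_ (Subtype.ext ?_)
          · change (w n).2 = _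
            rw [hw n]
            exact b1
          · change ρ (n + 1) = _
            rw [hρ n]
            exact b2
  · -- the label at the start is larger than the initial state
    refine Or.inr ⟨0, fun j hj => absurd hj (Nat.not_lt_zero _), ?_⟩
    rw [hw 0, hp.start]
    exact h0

end Q222.CM
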