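import Mathlib
import Pool.Agent.Q222.CM.Defs

/-!
# The derived objective is regular
-/

set_option autoImplicit false

open Filter

namespace Q222.CM

variable {C : Type} {k : ℕ}

/-- the states: `none` after a wrong label, with the information whether the first wrong label
was larger -/
def dstep {Q : Type} (S : Skeleton C k) (δ : Q → C → Q) :
    (Fin k × Q) ⊕ Bool → Fin k × C → (Fin k × Q) ⊕ Bool
  | Sum.inl (m, q), (l, a) => if l = m then Sum.inl (S.upd m a, δ q a) else Sum.inr (decide (m < l))
  | Sum.inr b, _ => Sum.inr b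

/-- the priorities -/
def dprio {Q : Type} (p : Q → C → ℕ) : (Fin k × Q) ⊕ Bool → Fin k × C → ℕ
  | Sum.inl (m, q), (l, a) => if l = m then p q a else if m < l then 0 else 1
  | Sum.inr b, _ => if b then 0 else 1

theorem run_good {Q : Type} (S : Skeleton C k) (δ : Q → C → Q) (q : Q) (w : ℕ → Fin k × C)
    (n : ℕ) (h : ∀ j, j < n → (w j).1 = S.mem (fun i => (w i).2) j) :
    run (dstep S δ) (Sum.inl (S.init, q)) w n =
      Sum.inl (S.mem (fun i => (w i).2) n, run δ q (fun i => (w i).2) n) := by
  induction n with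
  | zero => rfl
  | succ n ih =>
    have h1 : run (dstep S δ) (Sum.inl (S.init, q)) w (n + 1) =
      dstep S δ (run (dstep S δ) (Sum.inl (S.init, q)) w n) (w n) := rfl
    rw [h1, ih fun j hj => h j (by omega)]
    have h2 : w n = (S.mem (fun i => (w i).2) n, (w n).2) := Prod.ext (h n (by omega)) rfl
    rw [h2]
    simp only [dstep, if_true]
    rfl

theorem run_bad {Q : Type} (S : Skeleton C k) (δ : Q → C → Q) (q : Q) (w : ℕ → Fin k × C)
    (n : ℕ) (h : ∀ j, j < n → (w j).1 = S.mem (fun i => (w i).2) j)
    (hn : (w n).1 ≠ S.mem (fun i => (w i).2) n) (j : ℕ) :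
    run (dstep S δ) (Sum.inl (S.init, q)) w (n + 1 + j) =
      Sum.inr (decide (S.mem (fun i => (w i).2) n < (w n).1)) := by
  induction j with
  | zero =>
    have h1 : run (dstep S δ) (Sum.inl (S.init, q)) w (n + 1) =
      dstep S δ (run (dstep S δ) (Sum.inl (S.init, q)) w n) (w n) := rfl
    rw [Nat.add_zero, h1, run_good S δ q w n h]
    generalize hw : w n = x at hn ⊢
    obtain ⟨l, a⟩ := x
    have hn' : l ≠ S.mem (fun i => (w i).2) n := hn
    simp only [dstep]
    rw [if_neg hn']
  | succ j ih =>
    have h1 : run (dstep S δ) (Sum.inl (S.init, q)) w (n + 1 + (j + 1)) =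
      dstep S δ (run (dstep S δ) (Sum.inl (S.init, q)) w (n + 1 + j)) (w (n + 1 + j)) := rfl
    rw [h1, ih]
    rfl

theorem derived_regular (S : Skeleton C k) {W : Set (ℕ → C)} (hW : OmegaRegular W) :
    OmegaRegular (derived S W) := by
  classical
  obtain ⟨Q, _, q, δ, p, h⟩ := hW
  refine ⟨(Fin k × Q) ⊕ Bool, inferInstance, Sum.inl (S.init, q), dstep S δ, dprio p,
    fun w => ?_⟩
  by_cases hg : ∀ n, (w n).1 = S.mem (fun i => (w i).2) n
  · have hr : ∀ n, dprio p (run (dstep S δ) (Sum.inl (S.init, q)) w n) (w n) =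
        p (run δ q (fun i => (w i).2) n) (w n).2 := by
      intro n
      rw [run_good S δ q w n fun j _ => hg j]
      have h2 : w n = (S.mem (fun i => (w i).2) n, (w n).2) := Prod.ext (hg n) rfl
      rw [h2]
      simp only [dprio, if_true]
    simp only [hr]
    rw [← h fun i => (w i).2]
    constructor
    · rintro (h1 | ⟨n, -, h2⟩)
      · exact h1.2
      · rw [hg n] at h2
        exact absurd h2 (lt_irrefl _)
    · intro h1
      exact Or.inl ⟨hg, h1⟩
  · push Not at hg
    obtain ⟨n, hn, hmin⟩ : ∃ n, (w n).1 ≠ S.mem (fun i => (w i).2) n ∧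
        ∀ j, j < n → (w j).1 = S.mem (fun i => (w i).2) j := by
      refine ⟨Nat.find hg, Nat.find_spec hg, fun j hj => ?_⟩
      by_contra h1
      exact Nat.find_min hg hj h1
    have hr : ∀ j, n + 1 ≤ j → dprio p (run (dstep S δ) (Sum.inl (S.init, q)) w j) (w j) =
        if S.mem (fun i => (w i).2) n < (w n).1 then 0 else 1 := by
      intro j hj
      obtain ⟨i, rfl⟩ := Nat.exists_eq_add_of_le hj
      rw [run_bad S δ q w n hmin hn i]
      simp [dprio]
    have hmem : w ∈ derived S W ↔ S.mem (fun i => (w i).2) n < (w n).1 := by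
      constructor
      · rintro (⟨h1, -⟩ | ⟨m, h1, h2⟩)
        · exact absurd (h1 n) hn
        · rcases lt_trichotomy m n with h3 | h3 | h3
          · rw [hmin m h3] at h2
            exact absurd h2 (lt_irrefl _)
          · rw [← h3]; exact h2
          · exact absurd (h1 n h3) hn
      · intro h1
        exact Or.inr ⟨n, hmin, h1⟩
    rw [hmem]
    by_cases hlt : S.mem (fun i => (w i).2) n < (w n).1
    · simp only [hlt, true_iff]
      have hev : ∀ᶠ j in atTop, dprio p (run (dstep S δ) (Sum.inl (S.init, q)) w j) (w j) = 0 := by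
        filter_upwards [eventually_ge_atTop (n + 1)] with j hj
        rw [hr j hj, if_pos hlt]
      exact ⟨0, Even.zero, hev.frequently, hev.mono fun j hj => hj.le⟩
    · simp only [hlt, false_iff]
      have hev : ∀ᶠ j in atTop, dprio p (run (dstep S δ) (Sum.inl (S.init, q)) w j) (w j) = 1 := by
        filter_upwards [eventually_ge_atTop (n + 1)] with j hj
        rw [hr j hj, if_neg hlt]
      rintro ⟨d, hd, h1, -⟩
      obtain ⟨j, e1, e2⟩ := (h1.and_eventually hev).exists
      rw [e1] at e2
      rw [e2] at hd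
      exact absurd hd (by decide)

end Q222.CM
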