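import Mathlib
import Pool.Agent.Q222.CM.Defs

/-!
# Disjoint unions of games; a uniform skeleton
-/

set_option autoImplicit false

open Filter

namespace Q222.CM

variable {C : Type} {k : ℕ}

/-- the disjoint union of a family of games -/
def unionG {I : Type} (G : I → Game C) : Game C where
  V := Σ i, (G i).V
  edge x a y := ∃ i u u', x = ⟨i, u⟩ ∧ y = ⟨i, u'⟩ ∧ (G i).edge u a u'
  eve x := (G x.1).eve x.2
  total x := by
    obtain ⟨i, u⟩ := x
    obtain ⟨c, v', h⟩ := (G i).total u
    exact ⟨c, ⟨i, v'⟩, i, u, v', rfl, rfl, h⟩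

section

variable {I : Type} (G : I → Game C) (i : I)

/-- the inclusion of a component -/
def inc (u : (G i).V) : (unionG G).V := ⟨i, u⟩

theorem inc_inj {u u' : (G i).V} (h : inc G i u = inc G i u') : u = u' := by
  obtain ⟨-, h2⟩ := Sigma.mk.inj_iff.1 h
  exact eq_of_heq h2

theorem edge_inc {u : (G i).V} {a : C} {y : (unionG G).V} :
    (unionG G).edge (inc G i u) a y ↔ ∃ u', y = inc G i u' ∧ (G i).edge u a u' := by
  constructor
  · rintro ⟨i', w, w', e1, e2, e3⟩
    obtain ⟨h1, h2⟩ := Sigma.mk.inj_iff.1 e1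
    subst h1
    have := eq_of_heq h2
    subst this
    exact ⟨w', e2, e3⟩
  · rintro ⟨u', h1, h2⟩
    exact ⟨i, u, u', rfl, h1, h2⟩

/-- a left inverse of the inclusion of a component -/
noncomputable def back (v : (G i).V) (x : (unionG G).V) : (G i).V :=
  @Function.invFun _ _ ⟨v⟩ (inc G i) x

theorem back_inc (v u : (G i).V) : back G i v (inc G i u) = u :=
  @Function.leftInverse_invFun _ _ ⟨v⟩ (inc G i) (fun _ _ h => inc_inj G i h) u

theorem union_path (v : (G i).V) {ρ : ℕ → (unionG G).V}
    {γ : ℕ → C} (h0 : ρ 0 = inc G i v) (n : ℕ)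
    (h : ∀ j, j < n → (unionG G).edge (ρ j) (γ j) (ρ (j + 1))) :
    ρ n = inc G i (back G i v (ρ n)) ∧
    ∀ j, j < n → (G i).edge (back G i v (ρ j)) (γ j) (back G i v (ρ (j + 1))) := by
  induction n with
  | zero => exact ⟨by rw [h0, back_inc], fun j hj => absurd hj (Nat.not_lt_zero _)⟩
  | succ n ih =>
    obtain ⟨h1, h2⟩ := ih fun j hj => h j (by omega)
    have h3 := h n (by omega)
    rw [h1, edge_inc] at h3
    obtain ⟨u', h4, h5⟩ := h3
    refine ⟨by rw [h4, back_inc], fun j hj => ?_⟩
    rcases Nat.lt_succ_iff_lt_or_eq.1 hj with h6 | h6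
    · exact h2 j h6
    · rw [h6, h4, back_inc]
      exact h5

theorem eveWins_union {W : Set (ℕ → C)} {v : (G i).V} (h : EveWins (G i) W v) :
    EveWins (unionG G) W (inc G i v) := by
  obtain ⟨s, hs⟩ := h
  let pr : List (C × (unionG G).V) → List (C × (G i).V) :=
    fun l => l.map fun x => (x.1, back G i v x.2)
  have hpr : ∀ (ρ : ℕ → (unionG G).V) (γ : ℕ → C) (n : ℕ),
      pr (hist ρ γ n) = hist (fun i' => back G i v (ρ i')) γ n := by
    intro ρ w n
    simp [pr, hist]
  refine ⟨⟨fun l => ((s.next (pr l)).1, inc G i (s.next (pr l)).2), ?_⟩, ?_⟩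
  · intro ρ γ n h0 hst he
    beta_reduce
    obtain ⟨h1, h2⟩ := union_path G i v h0 n hst
    have he' : (G i).eve (back G i v (ρ n)) := by
      rw [h1] at he
      exact he
    have := s.legal (fun i' => back G i v (ρ i')) γ n (by rw [h0, back_inc]) h2 he'
    rw [hpr]
    rw [h1, edge_inc]
    exact ⟨_, rfl, this⟩
  · intro ρ γ hp hc
    refine hs (fun i' => back G i v (ρ i')) γ ⟨by rw [hp.start, back_inc], fun n => ?_⟩
      fun n he => ?_
    · exact (union_path G i v hp.start (n + 1) fun j _ => hp.step j).2 n (by omega)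
    · have h1 := (union_path G i v hp.start n fun j _ => hp.step j).1
      have he' : (unionG G).eve (ρ n) := by
        rw [h1]
        exact he
      have h2 : (γ n, ρ (n + 1)) = ((s.next (pr (hist ρ γ n))).1,
        inc G i (s.next (pr (hist ρ γ n))).2) := hc n he'
      rw [← hpr]
      obtain ⟨e1, e2⟩ := Prod.ext_iff.1 h2
      refine Prod.ext e1 ?_
      have e3 : ρ (n + 1) = inc G i (s.next (pr (hist ρ γ n))).2 := e2
      change back G i v (ρ (n + 1)) = _
      rw [e3, back_inc]

theorem chromWins_of_union {W : Set (ℕ → C)} {S : Skeleton C k} {ch : Choice (unionG G) k}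
    (ch' : Choice (G i) k) (hch : ∀ v m, (G i).eve v → ((ch'.next v m).1, inc G i (ch'.next v m).2) =
      ch.next (inc G i v) m) {v : (G i).V}
    (h : ChromWins (unionG G) W S ch (inc G i v)) : ChromWins (G i) W S ch' v := by
  intro ρ γ hp hc
  refine h (fun n => inc G i (ρ n)) γ ⟨by rw [hp.start], fun n => ?_⟩ fun n he => ?_
  · rw [edge_inc]
    exact ⟨_, rfl, hp.step n⟩
  · have he' : (G i).eve (ρ n) := he
    rw [← hch _ _ he']
    have := hc n he'
    obtain ⟨e1, e2⟩ := Prod.ext_iff.1 this
    exact Prod.ext e1 (congrArg (inc G i) e2)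

end

/-- If the memory is at most `k` for each game separately then some skeleton suffices for all. -/
theorem exists_suffices {P : Game C → Prop} {W : Set (ℕ → C)}
    (hP : ∀ (I : Type) (G : I → Game C), (∀ i, P (G i)) → P (unionG G)) (h : MemLE P W k) :
    ∃ S : Skeleton C k, Suffices P W S := by
  classical
  by_contra hno
  push Not at hno
  have h1 : ∀ S : Skeleton C k, ∃ G, P G ∧ ¬ ∃ ch : Choice G k, ∀ v, EveWins G W v →
      ChromWins G W S ch v := by
    intro S
    have := hno S
    unfold Suffices at this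
    push Not at this
    obtain ⟨G, hG, h2⟩ := this
    refine ⟨G, hG, ?_⟩
    push Not
    exact h2
  choose G hG hfail using h1
  obtain ⟨S, ch, hch⟩ := h (unionG G) (hP _ G hG)
  apply hfail S
  have hl : ∀ v m, (G S).eve v → ∃ u, (ch.next (inc G S v) m).2 = inc G S u ∧
      (G S).edge v (ch.next (inc G S v) m).1 u := by
    intro v m he
    exact (edge_inc G S).1 (ch.legal (inc G S v) m he)
  have hb : ∀ v m, (G S).eve v → inc G S (back G S v (ch.next (inc G S v) m).2) =
      (ch.next (inc G S v) m).2 := by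
    intro v m he
    obtain ⟨u, h2, -⟩ := hl v m he
    rw [h2, back_inc]
  refine ⟨⟨fun v m => ((ch.next (inc G S v) m).1, back G S v (ch.next (inc G S v) m).2),
    fun v m he => ?_⟩, fun v hv => ?_⟩
  · obtain ⟨u, h2, h3⟩ := hl v m he
    beta_reduce
    rw [h2, back_inc]
    exact h3
  · refine chromWins_of_union G S (ch := ch) _ (fun v m he => ?_) (hch _ (eveWins_union G S hv))
    exact Prod.ext rfl (hb v m he)

theorem memLE_of_suffices {P : Game C → Prop} {W : Set (ℕ → C)} {S : Skeleton C k}
    (h : Suffices P W S) : MemLE P W k := by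
  intro G hG
  obtain ⟨ch, hch⟩ := h G hG
  exact ⟨S, ch, hch⟩

theorem unionG_one (I : Type) (G : I → Game C) (h : ∀ i, OnePlayer (G i)) :
    OnePlayer (unionG G) := fun x => h x.1 x.2

end Q222.CM
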