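import Mathlib
import Pool.Agent.Q222.CM.Arb
import Pool.Agent.Q222.CM.Gadget
import Pool.Agent.Q222.CM.Lift
import Pool.Agent.Q222.CM.Union
import Pool.Agent.Q222.CM.Reg

/-!
# One-player games and arbitrary games for regular objectives
-/

set_option autoImplicit false

open Filter

namespace Q222.CM

variable {C : Type}

theorem OmegaRegular.plang [Finite C] {W : Set (ℕ → C)} (hW : OmegaRegular W) :
    ∃ (Q : Type) (_ : Fintype Q) (q : Q) (δ : Q → C → Q) (p : Q → C → ℕ) (B : ℕ),
      (∀ q c, p q c ≤ B) ∧ W = plang δ p q := by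
  obtain ⟨Q, hQ, q, δ, p, h⟩ := hW
  obtain ⟨B, hB⟩ := (Set.finite_range fun x : Q × C => p x.1 x.2).bddAbove
  exact ⟨Q, hQ, q, δ, p, B, fun q c => hB ⟨(q, c), rfl⟩, by ext γ; exact h γ⟩

/-- the case of one memory state -/
theorem arbitrary_of_one [Finite C] {W : Set (ℕ → C)} (hW : OmegaRegular W)
    (h : MemLE OnePlayer W 1) : MemLE Arbitrary W 1 := by
  obtain ⟨Q, _, q, δ, p, B, hB, hW⟩ := hW.plang
  exact arbitrary_of_cond' (cond_of_one h) hB hW

theorem suffices_iff [Finite C] {W : Set (ℕ → C)} (hW : OmegaRegular W) (k : ℕ)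
    (S : Skeleton C k) : Suffices OnePlayer W S ↔ Suffices Arbitrary W S := by
  refine ⟨fun h => ?_, fun h G _ => h G trivial⟩
  exact suffices_of_derived (P := Arbitrary) (P' := Arbitrary) (fun _ _ => trivial)
    (arbitrary_of_one (derived_regular S hW) (derived_positional S h))

theorem memLE_iff [Finite C] {W : Set (ℕ → C)} (hW : OmegaRegular W) (k : ℕ) :
    MemLE OnePlayer W k ↔ MemLE Arbitrary W k := by
  constructor
  · intro h
    obtain ⟨S, hS⟩ := exists_suffices unionG_one h
    exact memLE_of_suffices ((suffices_iff hW k S).1 hS)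
  · intro h G _
    exact h G trivial

/-! ### the memory is finite -/

theorem derived_plang {k : ℕ} (S : Skeleton C k) {Q : Type} (δ : Q → C → Q) (p : Q → C → ℕ)
    (q : Q) : derived S (plang δ p q) =
      plang (dstep S δ) (dprio p) (Sum.inl (S.init, q)) := by
  classical
  ext w
  change _ ↔ ParAcc fun n => dprio p (run (dstep S δ) (Sum.inl (S.init, q)) w n) (w n)
  by_cases hg : ∀ n, (w n).1 = S.mem (fun i => (w i).2) n
  · have hr : ∀ n, dprio p (run (dstep S δ) (Sum.inl (S.init, q)) w n) (w n) =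
        p (run δ q (fun i => (w i).2) n) (w n).2 := by
      intro n
      rw [run_good S δ q w n fun j _ => hg j]
      have h2 : w n = (S.mem (fun i => (w i).2) n, (w n).2) := Prod.ext (hg n) rfl
      rw [h2]
      simp only [dprio, if_true]
    simp only [hr]
    constructor
    · rintro (h1 | ⟨n, -, h2⟩)
      · exact h1.2
      · rw [hg n] at h2
        exact absurd h2 (lt_irrefl _)
    · intro h1
      exact Or.inl ⟨hg, h1⟩
  · push Not at hg
    obtain ⟨n, hn, hmin⟩ : ∃ n, (w n).1 ≠ S.mem (fun i => (w i).2) n ∧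
        ∀ j, j < n → (w j).1 = S.mem (fun i => (w i).2) j := by
      refine ⟨Nat.find hg, Nat.find_spec hg, fun j hj => ?_⟩
      by_contra h1
      exact Nat.find_min hg hj h1
    have hr : ∀ j, dprio p (run (dstep S δ) (Sum.inl (S.init, q)) w (n + 1 + j))
        (w (n + 1 + j)) = if S.mem (fun i => (w i).2) n < (w n).1 then 0 else 1 := by
      intro j
      rw [run_bad S δ q w n hmin hn j]
      simp [dprio]
    have hmem : w ∈ derived S (plang δ p q) ↔ S.mem (fun i => (w i).2) n < (w n).1 := by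
      constructor
      · rintro (⟨h1, -⟩ | ⟨m, h1, h2⟩)
        · exact absurd (h1 n) hn
        · rcases lt_trichotomy m n with h3 | h3 | h3
          · rw [hmin m h3] at h2
            exact absurd h2 (lt_irrefl _)
          · rw [← h3]; exact h2
          · exact absurd (h1 n h3) hn
      · intro h1
        exact Or.inr ⟨n, hmin, h1⟩
    rw [hmem]
    have h1 : ParAcc (fun n => dprio p (run (dstep S δ) (Sum.inl (S.init, q)) w n) (w n)) ↔
        ParAcc (fun _ => if S.mem (fun i => (w i).2) n < (w n).1 then 0 else 1) := by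
      apply parAcc_congr
      intro d
      rw [← ev_shift (p := fun j => dprio p (run (dstep S δ) (Sum.inl (S.init, q)) w j)
        (w j) ≤ d) (n + 1)]
      simp only [hr]
    rw [h1, parAcc_const]
    split_ifs with h2
    · simp [h2]
    · simp [h2]

section own

variable {k : ℕ} (δ : Fin k → C → Fin k) (p : Fin k → C → ℕ) (q0 : Fin k)

/-- the language of a state of the automaton for the objective derived from the automaton -/
def LD (s : (Fin k × Fin k) ⊕ Bool) : Set (ℕ → Fin k × C) :=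
  plang (dstep ⟨q0, δ⟩ δ) (dprio p) s

/-- the states on the diagonal and the two final states -/
def Diag (s : (Fin k × Fin k) ⊕ Bool) : Prop := (∃ m, s = Sum.inl (m, m)) ∨ ∃ b, s = Sum.inr b

theorem foldl_inr (b : Bool) (u : List (Fin k × C)) :
    u.foldl (dstep (⟨q0, δ⟩ : Skeleton C k) δ) (Sum.inr b) = Sum.inr b := by
  induction u with
  | nil => rfl
  | cons a u ih => exact ih

theorem diag_foldl {s : (Fin k × Fin k) ⊕ Bool} (hs : Diag s) (u : List (Fin k × C)) :
    Diag (u.foldl (dstep (⟨q0, δ⟩ : Skeleton C k) δ) s) := by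
  induction u generalizing s with
  | nil => exact hs
  | cons a u ih =>
    apply ih
    obtain ⟨l, c⟩ := a
    rcases hs with ⟨m, rfl⟩ | ⟨b, rfl⟩
    · change Diag (if l = m then Sum.inl (δ m c, δ m c) else Sum.inr (decide (m < l)))
      split_ifs
      · exact Or.inl ⟨_, rfl⟩
      · exact Or.inr ⟨_, rfl⟩
    · exact Or.inr ⟨b, rfl⟩

theorem LD_inr (b : Bool) (w : ℕ → Fin k × C) : w ∈ LD δ p q0 (Sum.inr b) ↔ b = true := by
  have hr : ∀ n, run (dstep (⟨q0, δ⟩ : Skeleton C k) δ) (Sum.inr b) w n = Sum.inr b := by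
    intro n
    induction n with
    | zero => rfl
    | succ n ih =>
      change dstep (⟨q0, δ⟩ : Skeleton C k) δ
        (run (dstep (⟨q0, δ⟩ : Skeleton C k) δ) (Sum.inr b) w n) (w n) = _
      rw [ih]
      rfl
  change ParAcc (fun n => dprio p (run (dstep (⟨q0, δ⟩ : Skeleton C k) δ) (Sum.inr b) w n)
    (w n)) ↔ _
  simp only [hr]
  have : ∀ n, dprio p (Sum.inr b : (Fin k × Fin k) ⊕ Bool) (w n) = if b then 0 else 1 :=
    fun n => rfl
  simp only [this]
  rw [parAcc_const]
  cases b <;> simp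

theorem dstep_ne {m : Fin k} {a : Fin k × C} (h : a.1 ≠ m) :
    dstep (⟨q0, δ⟩ : Skeleton C k) δ (Sum.inl (m, m)) a = Sum.inr (decide (m < a.1)) := by
  obtain ⟨l, c⟩ := a
  exact if_neg h

theorem LD_le {m m' : Fin k} (h : m ≤ m') :
    LD δ p q0 (Sum.inl (m', m')) ⊆ LD δ p q0 (Sum.inl (m, m)) := by
  rcases h.lt_or_eq with h1 | h1
  · intro w hw
    unfold LD at hw ⊢
    rw [mem_der_tl, der_plang] at hw ⊢
    have h2 : (w 0).1 ≠ m := by
      intro h3
      rw [dstep_ne δ q0 (by rw [h3]; exact h1.ne)] at hw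
      have h4 := (LD_inr δ p q0 _ _).1 hw
      rw [decide_eq_true_iff, h3] at h4
      exact absurd h4 (not_lt.2 h1.le)
    rw [dstep_ne δ q0 h2]
    refine (LD_inr δ p q0 _ _).2 ?_
    rw [decide_eq_true_iff]
    by_cases h3 : (w 0).1 = m'
    · rw [h3]; exact h1
    · rw [dstep_ne δ q0 h3] at hw
      have h4 := (LD_inr δ p q0 _ _).1 hw
      rw [decide_eq_true_iff] at h4
      exact h1.trans h4
  · rw [h1]

theorem LD_total {s s' : (Fin k × Fin k) ⊕ Bool} (h : Diag s) (h' : Diag s') :
    LD δ p q0 s ⊆ LD δ p q0 s' ∨ LD δ p q0 s' ⊆ LD δ p q0 s := by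
  rcases h with ⟨m, rfl⟩ | ⟨b, rfl⟩
  · rcases h' with ⟨m', rfl⟩ | ⟨b, rfl⟩
    · rcases le_total m m' with h1 | h1
      · exact Or.inr (LD_le δ p q0 h1)
      · exact Or.inl (LD_le δ p q0 h1)
    · cases b
      · refine Or.inr fun w hw => ?_
        exact absurd ((LD_inr δ p q0 _ _).1 hw) (by simp)
      · exact Or.inl fun w _ => (LD_inr δ p q0 _ _).2 rfl
  · cases b
    · refine Or.inl fun w hw => ?_
      exact absurd ((LD_inr δ p q0 _ _).1 hw) (by simp)
    · exact Or.inr fun w _ => (LD_inr δ p q0 _ _).2 rfl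

theorem mem_LD_foldl (s : (Fin k × Fin k) ⊕ Bool) (u : List (Fin k × C)) (w : ℕ → Fin k × C) :
    app u w ∈ LD δ p q0 s ↔ w ∈ LD δ p q0 (u.foldl (dstep (⟨q0, δ⟩ : Skeleton C k) δ) s) := by
  unfold LD
  rw [← ders_plang, mem_ders]

theorem own_cond (m0 : Fin k) :
    Cond (LD δ p q0 (Sum.inl (m0, m0))) := by
  have hders : ∀ u, ∃ s, Diag s ∧ ders (LD δ p q0 (Sum.inl (m0, m0))) u = LD δ p q0 s := by
    intro u
    exact ⟨_, diag_foldl δ q0 (Or.inl ⟨m0, rfl⟩) u, ders_plang _ _ _ _⟩
  refine ⟨fun u v => ?_, fun u x hx hlt => ?_, fun u f γ hγ hf => ?_⟩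
  · obtain ⟨s, h1, h2⟩ := hders u
    obtain ⟨s', h3, h4⟩ := hders v
    rw [h2, h4]
    exact LD_total δ p q0 h1 h3
  · obtain ⟨s, h1, h2⟩ := hders u
    rw [h2] at hlt ⊢
    have h3 : ders (LD δ p q0 s) x =
        LD δ p q0 (x.foldl (dstep (⟨q0, δ⟩ : Skeleton C k) δ) s) := ders_plang _ _ _ _
    rw [h3] at hlt
    obtain ⟨γ, hγ⟩ := exists_pow hx
    have hγ2 := flat_const hx hγ
    refine ⟨γ, hγ, ?_⟩
    rcases h1 with ⟨m, rfl⟩ | ⟨b, rfl⟩
    · obtain ⟨a, x', rfl⟩ := List.exists_cons_of_ne_nil hx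
      have h4 := diag_foldl δ q0 (Or.inl ⟨m, rfl⟩) (a :: x')
      rcases h4 with ⟨m', h5⟩ | ⟨b, h5⟩
      · rw [h5] at hlt
        have h6 : m' < m := by
          by_contra h7
          exact hlt.2 (LD_le δ p q0 (not_lt.1 h7))
        have h7 : a.1 = m := by
          by_contra h8
          rw [List.foldl_cons, dstep_ne δ q0 h8, foldl_inr] at h5
          exact absurd h5 (by simp)
        rw [← hγ2, mem_LD_foldl, h5, ← hγ2, mem_LD_foldl, List.foldl_cons,
          dstep_ne δ q0 (by rw [h7]; exact h6.ne'), foldl_inr]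
        refine (LD_inr δ p q0 _ _).2 ?_
        rw [decide_eq_true_iff, h7]
        exact h6
      · cases b
        · rw [h5] at hlt
          exfalso
          refine hlt.2 fun w hw => ?_
          exact absurd ((LD_inr δ p q0 _ _).1 hw) (by simp)
        · rw [← hγ2, mem_LD_foldl, h5]
          exact (LD_inr δ p q0 _ _).2 rfl
    · rw [foldl_inr] at hlt
      exact absurd hlt (ssubset_irrefl _)
  · obtain ⟨s, h1, h2⟩ := hders u
    rw [h2] at hf ⊢
    have h3 : ∀ x s, ders (LD δ p q0 s) x =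
        LD δ p q0 (x.foldl (dstep (⟨q0, δ⟩ : Skeleton C k) δ) s) := fun x s =>
      ders_plang _ _ _ _
    intro hmem
    rcases h1 with ⟨m, rfl⟩ | ⟨b, rfl⟩
    · -- the blocks are cycles of the automaton
      have hcyc : ∀ j, (f j).foldl (dstep (⟨q0, δ⟩ : Skeleton C k) δ) (Sum.inl (m, m)) =
          Sum.inl (m, m) := by
        intro j
        obtain ⟨e1, e2, e3⟩ := hf j
        obtain ⟨γ', hγ'⟩ := exists_pow e1
        have e2' := e2
        rw [h3] at e2'
        have hnt : ¬ ∀ w, w ∈ LD δ p q0 (Sum.inl (m, m)) := fun h => e3 γ' hγ' (h γ')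
        have hnf : ¬ ∀ w, w ∉ LD δ p q0 (Sum.inl (m, m)) := fun h => h γ hmem
        have hb : ∀ b, LD δ p q0 (Sum.inr b) ≠ LD δ p q0 (Sum.inl (m, m)) := by
          intro b hb
          cases b
          · refine hnf fun w hw => ?_
            rw [← hb, LD_inr] at hw
            exact absurd hw (by simp)
          · refine hnt fun w => ?_
            rw [← hb, LD_inr]
        obtain ⟨a, x', hx⟩ := List.exists_cons_of_ne_nil e1
        rcases diag_foldl δ q0 (Or.inl ⟨m, rfl⟩) (f j) with ⟨m', h5⟩ | ⟨b, h5⟩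
        · rw [h5]
          rw [h5] at e2'
          by_contra hne
          have hne' : m ≠ m' := fun h => hne (by rw [h])
          have h7 : a.1 = m := by
            by_contra h8
            rw [hx, List.foldl_cons, dstep_ne δ q0 h8, foldl_inr] at h5
            exact absurd h5 (by simp)
          have h8 := e2
          rw [← e2', h3, hx, List.foldl_cons, dstep_ne δ q0 (by rw [h7]; exact hne'),
            foldl_inr] at h8
          rw [e2'] at h8
          exact hb _ h8
        · rw [h5] at e2'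
          exact absurd e2' (hb b)
      have h4 := mem_plang_flat (dstep (⟨q0, δ⟩ : Skeleton C k) δ) (dprio p)
        (Sum.inl (m, m)) f γ hγ (fun j => (hf j).1) (fun _ => Sum.inl (m, m)) rfl
        (fun j => (hcyc j).symm)
      have h5 := h4.1 hmem
      have h6 : ∀ j, ¬ Even (mp (dstep (⟨q0, δ⟩ : Skeleton C k) δ) (dprio p)
          (Sum.inl (m, m)) (f j)) := by
        intro j h7
        obtain ⟨e1, e2, e3⟩ := hf j
        obtain ⟨-, γ', h8, h9⟩ := (ac_cycle _ (dprio p) e1 (hcyc j)).2 h7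
        exact e3 γ' h8 h9
      obtain ⟨d, h7, h8, -⟩ := h5
      obtain ⟨j, hj⟩ := h8.exists
      beta_reduce at hj
      exact h6 j (by rw [hj]; exact h7)
    · cases b
      · exact absurd ((LD_inr δ p q0 _ _).1 hmem) (by simp)
      · obtain ⟨e1, e2, e3⟩ := hf 0
        obtain ⟨γ', hγ'⟩ := exists_pow e1
        exact e3 γ' hγ' ((LD_inr δ p q0 _ _).2 rfl)

end own

/-- some chromatic skeleton suffices for a regular objective -/
theorem exists_memLE [Finite C] {W : Set (ℕ → C)} (hW : OmegaRegular W) :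
    ∃ k, MemLE Arbitrary W k := by
  obtain ⟨Q, _, q, δ, p, B, hB, hW'⟩ := hW.plang
  obtain ⟨e⟩ : Nonempty (Q ≃ Fin (Fintype.card Q)) := ⟨Fintype.equivFin Q⟩
  generalize Fintype.card Q = k at e
  -- the automaton on `Fin k`
  let δ' : Fin k → C → Fin k := fun m c => e (δ (e.symm m) c)
  let p' : Fin k → C → ℕ := fun m c => p (e.symm m) c
  have hrun : ∀ γ n, run δ' (e q) γ n = e (run δ q γ n) := by
    intro γ n
    induction n with
    | zero => rfl
    | succ n ih =>
      change e (δ (e.symm (run δ' (e q) γ n)) (γ n)) = _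
      rw [ih, e.symm_apply_apply]
      rfl
  have hW2 : W = plang δ' p' (e q) := by
    rw [hW']
    ext γ
    change ParAcc _ ↔ ParAcc (fun n => p (e.symm (run δ' (e q) γ n)) (γ n))
    simp only [hrun, e.symm_apply_apply]
  have hc := own_cond δ' p' (e q) (e q)
  have hd : derived ⟨e q, δ'⟩ W = LD δ' p' (e q) (Sum.inl (e q, e q)) := by
    rw [hW2]
    exact derived_plang ⟨e q, δ'⟩ δ' p' (e q)
  refine ⟨k, memLE_of_suffices (S := ⟨e q, δ'⟩) ?_⟩
  refine suffices_of_derived (P := Arbitrary) (P' := Arbitrary) (fun _ _ => trivial) ?_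
  rw [hd]
  refine arbitrary_of_cond' hc (B := max B 1) (fun s a => ?_) rfl
  rcases s with ⟨m, q'⟩ | b
  · obtain ⟨l, c⟩ := a
    change (if l = m then p' q' c else if m < l then 0 else 1) ≤ _
    split_ifs
    · exact (hB _ _).trans (le_max_left _ _)
    · exact Nat.zero_le _
    · exact le_max_right _ _
  · change (if b then 0 else 1) ≤ _
    split_ifs
    · exact Nat.zero_le _
    · exact le_max_right _ _

theorem exists_isLeast {P : ℕ → Prop} (h : ∃ k, P k) : ∃ k, IsLeast {j | P j} k := by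
  classical
  exact ⟨Nat.find h, Nat.find_spec h, fun j hj => Nat.find_min' h hj⟩

end Q222.CM
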