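import Mathlib
import Pool.Agent.Q222.CM.Defs
import Pool.Agent.Q222.CM.Att

/-!
# Progress measures for Eve: ranks on the pairs (vertex, memory state)
-/

set_option autoImplicit false

open Filter

namespace Q222.CM

variable {C : Type}

/-- the first `n` letters of `γ`, followed by `γ'` -/
def splice {X : Type} (γ : ℕ → X) (n : ℕ) (γ' : ℕ → X) : ℕ → X :=
  fun i => if i < n then γ i else γ' (i - n)

theorem splice_lt {X : Type} (γ γ' : ℕ → X) {n i : ℕ} (h : i < n) : splice γ n γ' i = γ i := by
  simp [splice, h]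

theorem splice_add {X : Type} (γ γ' : ℕ → X) (n i : ℕ) : splice γ n γ' (n + i) = γ' i := by
  simp [splice]

/-- vertices: the first `n` steps of `ρ`, followed by `ρ'` (where `ρ' 0 = ρ n`) -/
theorem splice_vertex {X : Type} {ρ ρ' : ℕ → X} {n : ℕ} (h : ρ' 0 = ρ n) {i : ℕ} (hi : i ≤ n) :
    splice ρ n ρ' i = ρ i := by
  rcases Nat.lt_or_ge i n with h1 | h1
  · exact splice_lt _ _ h1
  · have : i = n + 0 := by omega
    rw [this, splice_add, h, Nat.add_zero]

theorem hist_splice {V : Type} {ρ ρ' : ℕ → V} {γ γ' : ℕ → C} {n : ℕ} (h : ρ' 0 = ρ n) (k : ℕ) :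
    hist (splice ρ n ρ') (splice γ n γ') (n + k) = hist ρ γ n ++ hist ρ' γ' k := by
  induction k with
  | zero =>
    rw [Nat.add_zero, hist_zero, List.append_nil]
    unfold hist
    apply List.map_congr_left
    intro i hi
    have hi' : i < n := by simpa using hi
    rw [splice_lt _ _ hi', splice_vertex h (by omega)]
  | succ k ih =>
    rw [← Nat.add_assoc, hist_succ, ih, hist_succ, splice_add, Nat.add_assoc, splice_add,
      List.append_assoc]

/-- the rest of a winning strategy is winning for the rest of the objective -/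
theorem eveWins_rest {G : Game C} {W : Set (ℕ → C)} {v : G.V} (s : Strategy G v)
    (hs : ∀ ρ γ, IsPlay G v ρ γ →
      (∀ n, G.eve (ρ n) → (γ n, ρ (n + 1)) = s.next (hist ρ γ n)) → γ ∈ W)
    {ρ : ℕ → G.V} {γ : ℕ → C} (n : ℕ) (h0 : ρ 0 = v)
    (hst : ∀ i, i < n → G.edge (ρ i) (γ i) (ρ (i + 1)))
    (hc : ∀ i, i < n → G.eve (ρ i) → (γ i, ρ (i + 1)) = s.next (hist ρ γ i)) :
    EveWins G {γ' | splice γ n γ' ∈ W} (ρ n) := by
  have hpath : ∀ (ρ' : ℕ → G.V) (γ' : ℕ → C) (k : ℕ), ρ' 0 = ρ n →
      (∀ i, i < k → G.edge (ρ' i) (γ' i) (ρ' (i + 1))) → ∀ i, i < n + k →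
      G.edge (splice ρ n ρ' i) (splice γ n γ' i) (splice ρ n ρ' (i + 1)) := by
    intro ρ' γ' k h1 h2 i hi
    rcases Nat.lt_or_ge i n with h3 | h3
    · rw [splice_vertex h1 h3.le, splice_lt _ _ h3, splice_vertex h1 (by omega)]
      exact hst i h3
    · obtain ⟨j, rfl⟩ := Nat.exists_eq_add_of_le h3
      rw [Nat.add_assoc, splice_add, splice_add, splice_add]
      exact h2 j (by omega)
  refine ⟨⟨fun l => s.next (hist ρ γ n ++ l), ?_⟩, ?_⟩
  · intro ρ' γ' k h1 h2 he
    have := s.legal (splice ρ n ρ') (splice γ n γ') (n + k)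
      (by rw [splice_vertex h1 (Nat.zero_le _), h0]) (hpath ρ' γ' k h1 h2)
      (by rw [splice_add]; exact he)
    rw [splice_add, hist_splice h1] at this
    exact this
  · intro ρ' γ' hp hc'
    refine hs (splice ρ n ρ') (splice γ n γ')
      ⟨by rw [splice_vertex hp.start (Nat.zero_le _), h0], fun i => ?_⟩ fun i he => ?_
    · exact hpath ρ' γ' (i + 1) hp.start (fun j _ => hp.step j) i (by omega)
    · rcases Nat.lt_or_ge i n with h3 | h3
      · rw [splice_vertex hp.start h3.le] at he
        rw [splice_lt _ _ h3, splice_vertex hp.start (by omega), hc i h3 he]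
        congr 1
        unfold hist
        apply List.map_congr_left
        intro j hj
        have hj' : j < i := by simpa using hj
        rw [splice_lt _ _ (by omega), splice_vertex hp.start (by omega)]
      · obtain ⟨j, rfl⟩ := Nat.exists_eq_add_of_le h3
        rw [splice_add] at he
        have := hc' j he
        rw [Nat.add_assoc, splice_add, splice_add, hist_splice hp.start]
        exact this

section progress

variable {M : Type} (upd : M → C → M) (R : M → Set (ℕ → C)) (gd : M → C → Prop)

theorem run_shift (m : M) (γ : ℕ → C) (n : ℕ) :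
    run upd (upd m (γ 0)) (fun i => γ (i + 1)) n = run upd m γ (n + 1) := by
  induction n with
  | zero => rfl
  | succ n ih =>
    change upd (run upd (upd m (γ 0)) (fun i => γ (i + 1)) n) (γ (n + 1)) =
      upd (run upd m γ (n + 1)) (γ (n + 1))
    rw [ih]

theorem splice_mem (ha : ∀ m γ, γ ∈ R m ↔ (fun i => γ (i + 1)) ∈ R (upd m (γ 0)))
    (m : M) (γ γ' : ℕ → C) (n : ℕ) : splice γ n γ' ∈ R m ↔ γ' ∈ R (run upd m γ n) := by
  induction n generalizing m γ with
  | zero =>
    have : splice γ 0 γ' = γ' := by funext i; simp [splice]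
    rw [this]; rfl
  | succ n ih =>
    rw [ha]
    have h1 : (fun i => splice γ (n + 1) γ' (i + 1)) = splice (fun i => γ (i + 1)) n γ' := by
      funext i
      simp [splice, Nat.add_sub_add_right]
    have h2 : splice γ (n + 1) γ' 0 = γ 0 := splice_lt _ _ (by omega)
    rw [h1, h2, ih, run_shift]

/-- Ranks which decrease until a good step is made, with a choice for Eve. -/
theorem exists_progress (ha : ∀ m γ, γ ∈ R m ↔ (fun i => γ (i + 1)) ∈ R (upd m (γ 0)))
    (hb : ∀ m γ, γ ∈ R m → ∃ n, gd (run upd m γ n) (γ n)) (G : Game C) :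
    ∃ r : G.V → M → Ordinal.{0}, ∀ v m, EveWins G (R m) v →
      (G.eve v → ∃ c v', G.edge v c v' ∧ EveWins G (R (upd m c)) v' ∧
        (gd m c ∨ r v' (upd m c) < r v m)) ∧
      (¬ G.eve v → ∀ c v', G.edge v c v' → EveWins G (R (upd m c)) v' ∧
        (gd m c ∨ r v' (upd m c) < r v m)) := by
  classical
  let F : Set (G.V × M) → Set (G.V × M) := fun Y => {x | EveWins G (R x.2) x.1 ∧
    (G.eve x.1 → ∃ c v', G.edge x.1 c v' ∧ EveWins G (R (upd x.2 c)) v' ∧
      (gd x.2 c ∨ (v', upd x.2 c) ∈ Y)) ∧
    (¬ G.eve x.1 → ∀ c v', G.edge x.1 c v' → (gd x.2 c ∨ (v', upd x.2 c) ∈ Y))}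
  have hF : ∀ X Y : Set (G.V × M), X ⊆ Y → F X ⊆ F Y := by
    rintro X Y h x ⟨h1, h2, h3⟩
    refine ⟨h1, fun he => ?_, fun he c v' hcv => (h3 he c v' hcv).imp id fun h4 => h h4⟩
    obtain ⟨c, v', e1, e2, e3⟩ := h2 he
    exact ⟨c, v', e1, e2, e3.imp id fun h4 => h h4⟩
  obtain ⟨A, r, hA, hr⟩ := exists_rank F hF
  -- Adam's steps keep the winning region
  have hadam : ∀ v m, EveWins G (R m) v → ¬ G.eve v → ∀ c v', G.edge v c v' →
      EveWins G (R (upd m c)) v' := by
    rintro v m ⟨s, hs⟩ hv c v' hcv
    obtain ⟨c', hc'⟩ : ∃ c' : ℕ → C, c' 0 = c := ⟨fun _ => c, rfl⟩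
    let ρ : ℕ → G.V := fun i => if i = 0 then v else v'
    have := eveWins_rest s hs (ρ := ρ) (γ := fun _ => c) 1 rfl
      (fun i hi => by
        have : i = 0 := by omega
        subst this
        exact hcv)
      (fun i hi he => by
        have : i = 0 := by omega
        subst this
        exact absurd he hv)
    have h2 : ({γ' | splice (fun _ => c) 1 γ' ∈ R m} : Set (ℕ → C)) = R (upd m c) := by
      ext γ'
      rw [Set.mem_setOf_eq, splice_mem upd R ha]
      rfl
    rw [h2] at this
    exact this
  have hsub : ∀ v m, EveWins G (R m) v → (v, m) ∈ A := by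
    intro v0 m0 hw
    by_contra hno
    obtain ⟨s, hs⟩ := hw
    let cv : List (C × G.V) → G.V := fun l => (l.getLast?.map Prod.snd).getD v0
    let cm : List (C × G.V) → M := fun l => l.foldl (fun m x => upd m x.1) m0
    have hcv : ∀ (ρ : ℕ → G.V) (γ : ℕ → C) (n : ℕ), ρ 0 = v0 → cv (hist ρ γ n) = ρ n := by
      intro ρ γ n h0
      cases n with
      | zero => simp [cv, hist_zero, h0]
      | succ n => simp [cv, hist_succ]
    have hcm : ∀ (ρ : ℕ → G.V) (γ : ℕ → C) (n : ℕ), cm (hist ρ γ n) = run upd m0 γ n := by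
      intro ρ γ n
      induction n with
      | zero => rfl
      | succ n ih =>
        simp only [cm] at ih ⊢
        rw [hist_succ, List.foldl_append, ih]
        rfl
    have htrap : ∀ (v : G.V) (m : M), ∃ x : C × G.V, (∃ c v', G.edge v c v' ∧ ¬ gd m c ∧
        (v', upd m c) ∉ A) → G.edge v x.1 x.2 ∧ ¬ gd m x.1 ∧ (x.2, upd m x.1) ∉ A := by
      intro v m
      by_cases h : ∃ c v', G.edge v c v' ∧ ¬ gd m c ∧ (v', upd m c) ∉ A
      · obtain ⟨c, v', h⟩ := h
        exact ⟨(c, v'), fun _ => h⟩
      · obtain ⟨c, v', -⟩ := G.total v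
        exact ⟨(c, v'), fun h' => absurd h' h⟩
    choose tr htr using htrap
    obtain ⟨ρ, γ, st, hρ0, hst0, hst1, hnx⟩ := exists_path v0
      (fun l => if G.eve (cv l) then s.next l else tr (cv l) (cm l))
    have hhist : ∀ n, st n = hist ρ γ n := by
      intro n
      induction n with
      | zero => exact hst0
      | succ n ih => rw [hst1, ih, hist_succ]
    have hstep : ∀ n, (γ n, ρ (n + 1)) = if G.eve (ρ n) then s.next (hist ρ γ n) else
        tr (ρ n) (run upd m0 γ n) := by
      intro n
      rw [hnx n, hhist n, hcv ρ γ n hρ0, hcm]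
    have main : ∀ n, (∀ i, i < n → G.edge (ρ i) (γ i) (ρ (i + 1)) ∧
        ¬ gd (run upd m0 γ i) (γ i)) ∧ (ρ n, run upd m0 γ n) ∉ A := by
      intro n
      induction n with
      | zero =>
        exact ⟨fun i hi => absurd hi (Nat.not_lt_zero _), by rw [hρ0]; exact hno⟩
      | succ n ih =>
        obtain ⟨ih1, ih2⟩ := ih
        have hX : EveWins G (R (run upd m0 γ n)) (ρ n) := by
          have := eveWins_rest s hs n hρ0 (fun i hi => (ih1 i hi).1) (fun i hi he => by
            have := hstep i
            rw [if_pos he] at this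
            exact this)
          have h2 : ({γ' | splice γ n γ' ∈ R m0} : Set (ℕ → C)) = R (run upd m0 γ n) := by
            ext γ'
            rw [Set.mem_setOf_eq, splice_mem upd R ha]
          rw [h2] at this
          exact this
        have hnF : (ρ n, run upd m0 γ n) ∉ F A := fun h => ih2 (hA h)
        have key : G.edge (ρ n) (γ n) (ρ (n + 1)) ∧ ¬ gd (run upd m0 γ n) (γ n) ∧
            (ρ (n + 1), upd (run upd m0 γ n) (γ n)) ∉ A := by
          by_cases he : G.eve (ρ n)
          · have h3 := hstep n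
            rw [if_pos he] at h3
            have h4 : G.edge (ρ n) (γ n) (ρ (n + 1)) := by
              have := s.legal ρ γ n hρ0 (fun i hi => (ih1 i hi).1) he
              rw [← h3] at this
              exact this
            have hX' : EveWins G (R (upd (run upd m0 γ n) (γ n))) (ρ (n + 1)) := by
              have := eveWins_rest s hs (n + 1) hρ0 (fun i hi => by
                rcases Nat.lt_succ_iff_lt_or_eq.1 hi with h5 | h5
                · exact (ih1 i h5).1
                · rw [h5]; exact h4) (fun i hi he => by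
                have := hstep i
                rw [if_pos he] at this
                exact this)
              have h2 : ({γ' | splice γ (n + 1) γ' ∈ R m0} : Set (ℕ → C)) =
                  R (upd (run upd m0 γ n) (γ n)) := by
                ext γ'
                rw [Set.mem_setOf_eq, splice_mem upd R ha]
                rfl
              rw [h2] at this
              exact this
            refine ⟨h4, ?_, ?_⟩
            · intro hg
              exact hnF ⟨hX, fun _ => ⟨γ n, ρ (n + 1), h4, hX', Or.inl hg⟩, fun h => absurd he h⟩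
            · intro hg
              exact hnF ⟨hX, fun _ => ⟨γ n, ρ (n + 1), h4, hX', Or.inr hg⟩, fun h => absurd he h⟩
          · have h3 := hstep n
            rw [if_neg he] at h3
            have h4 : ∃ c v', G.edge (ρ n) c v' ∧ ¬ gd (run upd m0 γ n) c ∧
                (v', upd (run upd m0 γ n) c) ∉ A := by
              by_contra h5
              push Not at h5
              refine hnF ⟨hX, fun h => absurd h he, fun _ c v' hcv' => ?_⟩
              by_cases hg : gd (run upd m0 γ n) c
              · exact Or.inl hg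
              · exact Or.inr (h5 c v' hcv' hg)
            have h6 := htr (ρ n) (run upd m0 γ n) h4
            rw [← h3] at h6
            exact h6
        refine ⟨fun i hi => ?_, key.2.2⟩
        rcases Nat.lt_succ_iff_lt_or_eq.1 hi with h5 | h5
        · exact ih1 i h5
        · rw [h5]; exact ⟨key.1, key.2.1⟩
    have hin : γ ∈ R m0 := by
      refine hs ρ γ ⟨hρ0, fun n => ((main (n + 1)).1 n (by omega)).1⟩ fun n he => ?_
      have := hstep n
      rw [if_pos he] at this
      exact this
    obtain ⟨n, hn⟩ := hb m0 γ hin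
    exact ((main (n + 1)).1 n (by omega)).2 hn
  refine ⟨fun v m => r (v, m), fun v m hw => ?_⟩
  obtain ⟨h1, h2, h3⟩ := hr (v, m) (hsub v m hw)
  refine ⟨fun he => ?_, fun he c v' hcv => ⟨hadam v m hw he c v' hcv, ?_⟩⟩
  · obtain ⟨c, v', e1, e2, e3⟩ := h2 he
    exact ⟨c, v', e1, e2, e3.imp id fun h => h.2⟩
  · exact (h3 he c v' hcv).imp id fun h => h.2

end progress

end Q222.CM
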