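import Mathlib
import Pool.Agent.Q222.CM.Progress
import Pool.Agent.Q222.CM.Marks
import Pool.Agent.Q222.CM.Reg

/-!
# Positional strategies for Büchi objectives which satisfy the conditions of one-player games
-/

set_option autoImplicit false

open Filter

namespace Q222.CM

variable {C : Type}

theorem residuals_finite {W : Set (ℕ → C)} (hB : BuchiRegular W) :
    {L : Set (ℕ → C) | ∃ u, L = ders W u}.Finite := by
  obtain ⟨Q, _, q0, δ, β, hQ⟩ := hB
  have hWl : W = lang δ β q0 := by ext γ; exact hQ γ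
  refine (Set.finite_range fun q : Q => lang δ β q).subset ?_
  rintro L ⟨u, rfl⟩
  exact ⟨u.foldl δ q0, by rw [hWl, ders_lang]⟩

/-- the least residual for which Eve wins -/
theorem exists_least {W : Set (ℕ → C)} (hW : Cond W) (hB : BuchiRegular W) (G : Game C) (v : G.V) :
    ∃ L : Set (ℕ → C), (∃ u, L = ders W u) ∧ ((∃ u, EveWins G (ders W u) v) →
      EveWins G L v ∧ ∀ u, EveWins G (ders W u) v → L ⊆ ders W u) := by
  classical
  by_cases h : ∃ u, EveWins G (ders W u) v
  · obtain ⟨u0, hu0⟩ := h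
    have hfin : {L : Set (ℕ → C) | (∃ u, L = ders W u) ∧ EveWins G L v}.Finite :=
      (residuals_finite hB).subset fun L hL => hL.1
    obtain ⟨L, hL, hmin⟩ := hfin.exists_minimal ⟨ders W u0, ⟨u0, rfl⟩, hu0⟩
    refine ⟨L, hL.1, fun _ => ⟨hL.2, fun u hu => ?_⟩⟩
    obtain ⟨u1, h1⟩ := hL.1
    rcases hW.total u1 u with h2 | h2
    · rw [h1]; exact h2
    · rw [← h1] at h2
      exact hmin (⟨⟨u, rfl⟩, hu⟩ : (∃ u', ders W u = ders W u') ∧ EveWins G (ders W u) v) h2
  · exact ⟨ders W [], ⟨[], rfl⟩, fun h' => absurd h' h⟩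

theorem arbitrary_of_cond {W : Set (ℕ → C)} (hW : Cond W) (hB : BuchiRegular W) :
    MemLE Arbitrary W 1 := by
  classical
  intro G _
  obtain ⟨r, hr⟩ := exists_progress der (fun L => L)
    (fun L c => (∃ u, L = ders W u) → ¬ U L c) (fun m γ => mem_der_tl m γ) (by
      intro m γ hγ
      by_cases hm : ∃ u, m = ders W u
      · obtain ⟨u, rfl⟩ := hm
        obtain ⟨n, hn⟩ := exists_marked hW hB hγ
        exact ⟨n, fun _ => hn⟩
      · exact ⟨0, fun h => absurd h hm⟩) G
  choose th hth1 hth2 using exists_least hW hB G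
  have hmv : ∀ v : G.V, ∃ x : C × G.V, (G.eve v → G.edge v x.1 x.2) ∧
      (G.eve v → EveWins G (th v) v → EveWins G (der (th v) x.1) x.2 ∧
        (¬ U (th v) x.1 ∨ r x.2 (der (th v) x.1) < r v (th v))) := by
    intro v
    by_cases h : G.eve v ∧ EveWins G (th v) v
    · obtain ⟨c, v', h1, h2, h3⟩ := (hr v (th v) h.2).1 h.1
      exact ⟨(c, v'), fun _ => h1, fun _ _ => ⟨h2, h3.imp (fun h4 => h4 (hth1 v)) id⟩⟩
    · obtain ⟨c, v', h1⟩ := G.total v
      exact ⟨(c, v'), fun _ => h1, fun h2 h3 => absurd ⟨h2, h3⟩ h⟩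
  choose mv hmv1 hmv2 using hmv
  refine ⟨⟨0, fun _ _ => 0⟩, ⟨fun v _ => mv v, fun v _ he => hmv1 v he⟩, fun v hv ρ γ hp hc => ?_⟩
  have hc' : ∀ n, G.eve (ρ n) → (γ n, ρ (n + 1)) = mv (ρ n) := hc
  have hstep : ∀ n, (∃ u, EveWins G (ders W u) (ρ n)) →
      EveWins G (der (th (ρ n)) (γ n)) (ρ (n + 1)) ∧
        (¬ U (th (ρ n)) (γ n) ∨
          r (ρ (n + 1)) (der (th (ρ n)) (γ n)) < r (ρ n) (th (ρ n))) := by
    intro n hn
    have h1 := (hth2 (ρ n) hn).1
    by_cases he : G.eve (ρ n)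
    · have h2 := hmv2 (ρ n) he h1
      rw [← hc' n he] at h2
      exact h2
    · obtain ⟨h2, h3⟩ := (hr (ρ n) (th (ρ n)) h1).2 he (γ n) (ρ (n + 1)) (hp.step n)
      exact ⟨h2, h3.imp (fun h4 => h4 (hth1 _)) id⟩
  have hder : ∀ n, ∃ u, der (th (ρ n)) (γ n) = ders W u := by
    intro n
    obtain ⟨u, hu⟩ := hth1 (ρ n)
    exact ⟨u ++ [γ n], by rw [ders_append, ← hu]; rfl⟩
  have hwin : ∀ n, ∃ u, EveWins G (ders W u) (ρ n) := by
    intro n
    induction n with
    | zero => exact ⟨[], by rw [hp.start]; exact hv⟩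
    | succ n ih =>
      obtain ⟨u, hu⟩ := hder n
      exact ⟨u, by rw [← hu]; exact (hstep n ih).1⟩
  have hsub : ∀ n, th (ρ (n + 1)) ⊆ der (th (ρ n)) (γ n) := by
    intro n
    obtain ⟨u, hu⟩ := hder n
    rw [hu]
    refine (hth2 (ρ (n + 1)) (hwin (n + 1))).2 u ?_
    rw [← hu]
    exact (hstep n (hwin n)).1
  have hev : ∃ᶠ n in atTop, ¬ U (th (ρ n)) (γ n) ∨ th (ρ (n + 1)) ≠ der (th (ρ n)) (γ n) := by
    by_contra hno
    rw [not_frequently, eventually_atTop] at hno
    obtain ⟨N, hN⟩ := hno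
    have hlt : ∀ i, r (ρ (N + (i + 1))) (th (ρ (N + (i + 1)))) <
        r (ρ (N + i)) (th (ρ (N + i))) := by
      intro i
      have h1 := hN (N + i) (by omega)
      push Not at h1
      have h2 := (hstep (N + i) (hwin _)).2
      rcases h2 with h2 | h2
      · exact absurd h1.1 h2
      · rw [← h1.2] at h2
        exact h2
    exact (RelEmbedding.natGT (fun i => r (ρ (N + i)) (th (ρ (N + i)))) hlt).not_wellFounded
      Ordinal.lt_wf
  have h0 := mem_of_theta hW hB (θ := fun n => th (ρ n)) (fun n => hth1 (ρ n)) hsub hev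
  have h1 := (hth2 (ρ 0) (hwin 0)).2 [] (by rw [hp.start]; exact hv)
  exact h1 h0

/-! ### the derived objective is a Büchi objective -/

/-- the marks -/
def dmark {k : ℕ} {Q : Type} (β : Q → C → Prop) : (Fin k × Q) ⊕ Bool → Fin k × C → Prop
  | Sum.inl (_, q), (_, a) => β q a
  | Sum.inr b, _ => b = true

theorem derived_buchi {k : ℕ} (S : Skeleton C k) {W : Set (ℕ → C)} (hW : BuchiRegular W) :
    BuchiRegular (derived S W) := by
  classical
  obtain ⟨Q, _, q, δ, β, h⟩ := hW
  refine ⟨(Fin k × Q) ⊕ Bool, inferInstance, Sum.inl (S.init, q), dstep S δ, dmark β,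
    fun w => ?_⟩
  by_cases hg : ∀ n, (w n).1 = S.mem (fun i => (w i).2) n
  · have hr : ∀ n, dmark β (run (dstep S δ) (Sum.inl (S.init, q)) w n) (w n) ↔
        β (run δ q (fun i => (w i).2) n) (w n).2 := by
      intro n
      rw [run_good S δ q w n fun j _ => hg j]
      exact Iff.rfl
    simp only [hr]
    rw [← h fun i => (w i).2]
    constructor
    · rintro (h1 | ⟨n, -, h2⟩)
      · exact h1.2
      · rw [hg n] at h2
        exact absurd h2 (lt_irrefl _)
    · intro h1
      exact Or.inl ⟨hg, h1⟩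
  · push Not at hg
    obtain ⟨n, hn, hmin⟩ : ∃ n, (w n).1 ≠ S.mem (fun i => (w i).2) n ∧
        ∀ j, j < n → (w j).1 = S.mem (fun i => (w i).2) j := by
      refine ⟨Nat.find hg, Nat.find_spec hg, fun j hj => ?_⟩
      by_contra h1
      exact Nat.find_min hg hj h1
    have hr : ∀ j, n + 1 ≤ j → (dmark β (run (dstep S δ) (Sum.inl (S.init, q)) w j) (w j) ↔
        S.mem (fun i => (w i).2) n < (w n).1) := by
      intro j hj
      obtain ⟨i, rfl⟩ := Nat.exists_eq_add_of_le hj
      rw [run_bad S δ q w n hmin hn i]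
      simp [dmark]
    have hmem : w ∈ derived S W ↔ S.mem (fun i => (w i).2) n < (w n).1 := by
      constructor
      · rintro (⟨h1, -⟩ | ⟨m, h1, h2⟩)
        · exact absurd (h1 n) hn
        · rcases lt_trichotomy m n with h3 | h3 | h3
          · rw [hmin m h3] at h2
            exact absurd h2 (lt_irrefl _)
          · rw [← h3]; exact h2
          · exact absurd (h1 n h3) hn
      · intro h1
        exact Or.inr ⟨n, hmin, h1⟩
    rw [hmem]
    constructor
    · intro h1
      refine Eventually.frequently ?_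
      filter_upwards [eventually_ge_atTop (n + 1)] with j hj
      exact (hr j hj).2 h1
    · intro h1
      obtain ⟨j, e1, e2⟩ := (h1.and_eventually (eventually_ge_atTop (n + 1))).exists
      exact (hr j e2).1 e1

end Q222.CM
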