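import Mathlib
import Pool.Agent.Q222.CM.Progress

/-!
# The objective: two different letters occur infinitely often
-/

set_option autoImplicit false

open Filter

namespace Q222.CM

section general

variable {C : Type}

/-- The chromatic memory with games with one initial vertex and with a skeleton which may depend on
the game and on the initial vertex is at most `k`. -/
def MemLEAt (P : Game C → Prop) (W : Set (ℕ → C)) (k : ℕ) : Prop :=
  ∀ G, P G → ∀ v, EveWins G W v → ∃ (S : Skeleton C k) (ch : Choice G k), ChromWins G W S ch v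

theorem run_eq_mem {k : ℕ} (S : Skeleton C k) (γ : ℕ → C) (n : ℕ) :
    run S.upd S.init γ n = S.mem γ n := by
  induction n with
  | zero => rfl
  | succ n ih => simp only [run, Skeleton.mem, ih]

/-- a play from `v` can be prolonged and restarted: if `G` has a choice function with decreasing
ranks then good steps are made infinitely often -/
theorem exists_choice {k : ℕ} (S : Skeleton C k) (R : Fin k → Set (ℕ → C))
    (gd : Fin k → C → Prop)
    (ha : ∀ m γ, γ ∈ R m ↔ (fun i => γ (i + 1)) ∈ R (S.upd m (γ 0)))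
    (hb : ∀ m γ, γ ∈ R m → ∃ n, gd (run S.upd m γ n) (γ n)) (G : Game C) :
    ∃ ch : Choice G k, ∀ v, EveWins G (R S.init) v → ∀ ρ γ, IsPlay G v ρ γ →
      (∀ n, G.eve (ρ n) → (γ n, ρ (n + 1)) = ch.next (ρ n) (S.mem γ n)) →
      ∃ᶠ n in atTop, gd (S.mem γ n) (γ n) := by
  classical
  obtain ⟨r, hr⟩ := exists_progress S.upd R gd ha hb G
  have hex : ∀ (v : G.V) (m : Fin k), ∃ x : C × G.V, G.edge v x.1 x.2 ∧
      (EveWins G (R m) v → G.eve v → EveWins G (R (S.upd m x.1)) x.2 ∧
        (gd m x.1 ∨ r x.2 (S.upd m x.1) < r v m)) := by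
    intro v m
    by_cases h : EveWins G (R m) v ∧ G.eve v
    · obtain ⟨c, v', h1, h2, h3⟩ := (hr v m h.1).1 h.2
      exact ⟨(c, v'), h1, fun _ _ => ⟨h2, h3⟩⟩
    · obtain ⟨c, v', h1⟩ := G.total v
      exact ⟨(c, v'), h1, fun h2 h3 => absurd ⟨h2, h3⟩ h⟩
  choose nx hnx1 hnx2 using hex
  refine ⟨⟨nx, fun v m _ => hnx1 v m⟩, fun v hv ρ γ hp hc => ?_⟩
  have hinv : ∀ n, EveWins G (R (S.mem γ n)) (ρ n) ∧ (gd (S.mem γ n) (γ n) ∨
      r (ρ (n + 1)) (S.mem γ (n + 1)) < r (ρ n) (S.mem γ n)) := by
    have step : ∀ n, EveWins G (R (S.mem γ n)) (ρ n) →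
        EveWins G (R (S.mem γ (n + 1))) (ρ (n + 1)) ∧ (gd (S.mem γ n) (γ n) ∨
        r (ρ (n + 1)) (S.mem γ (n + 1)) < r (ρ n) (S.mem γ n)) := by
      intro n hn
      by_cases he : G.eve (ρ n)
      · have h1 := hnx2 (ρ n) (S.mem γ n) hn he
        have h2 : (γ n, ρ (n + 1)) = nx (ρ n) (S.mem γ n) := hc n he
        rw [← h2] at h1
        exact h1
      · exact (hr (ρ n) (S.mem γ n) hn).2 he (γ n) (ρ (n + 1)) (hp.step n)
    have h0 : ∀ n, EveWins G (R (S.mem γ n)) (ρ n) := by
      intro n
      induction n with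
      | zero => rw [hp.start]; exact hv
      | succ n ih => exact (step n ih).1
    exact fun n => ⟨h0 n, (step n (h0 n)).2⟩
  by_contra hno
  rw [not_frequently, eventually_atTop] at hno
  obtain ⟨N, hN⟩ := hno
  have hdec : ∀ n, r (ρ (N + (n + 1))) (S.mem γ (N + (n + 1))) < r (ρ (N + n)) (S.mem γ (N + n)) := by
    intro n
    rcases (hinv (N + n)).2 with h | h
    · exact absurd h (hN _ (by omega))
    · exact h
  exact (RelEmbedding.natGT (r := ((· < ·) : Ordinal.{0} → Ordinal.{0} → Prop))
    (fun n => r (ρ (N + n)) (S.mem γ (N + n))) hdec).not_wellFounded Ordinal.lt_wf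

end general

/-- two different letters occur infinitely often -/
def TwoLetters (n : ℕ) : Set (ℕ → Fin n) :=
  {γ | ∃ a b, a ≠ b ∧ (∃ᶠ i in atTop, γ i = a) ∧ ∃ᶠ i in atTop, γ i = b}

variable {n : ℕ}

theorem two_iff (γ : ℕ → Fin n) : γ ∈ TwoLetters n ↔ ∃ᶠ i in atTop, γ i ≠ γ (i + 1) := by
  constructor
  · rintro ⟨a, b, hab, h1, h2⟩
    by_contra hno
    rw [not_frequently, eventually_atTop] at hno
    obtain ⟨N, hN⟩ := hno
    have hc : ∀ i, γ (N + i) = γ N := by
      intro i
      induction i with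
      | zero => rfl
      | succ i ih =>
        have := hN (N + i) (by omega)
        push Not at this
        rw [← Nat.add_assoc, ← this, ih]
    have hev : ∀ᶠ i in atTop, γ i = γ N := by
      filter_upwards [eventually_ge_atTop N] with i hi
      obtain ⟨j, rfl⟩ := Nat.exists_eq_add_of_le hi
      exact hc j
    obtain ⟨i, e1, e2⟩ := (h1.and_eventually hev).exists
    obtain ⟨j, e3, e4⟩ := (h2.and_eventually hev).exists
    exact hab (by rw [← e1, e2, ← e4, e3])
  · intro h
    have h1 : ∃ p : Fin n × Fin n, ∃ᶠ i in atTop, p.1 ≠ p.2 ∧ γ i = p.1 ∧ γ (i + 1) = p.2 := by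
      by_contra hno
      have h2 : ∀ p : Fin n × Fin n, ∀ᶠ i in atTop, ¬ (p.1 ≠ p.2 ∧ γ i = p.1 ∧ γ (i + 1) = p.2) :=
        fun p => not_frequently.1 fun h3 => hno ⟨p, h3⟩
      rw [← eventually_all] at h2
      obtain ⟨i, e1, e2⟩ := (h.and_eventually h2).exists
      exact e2 (γ i, γ (i + 1)) ⟨e1, rfl, rfl⟩
    obtain ⟨⟨a, b⟩, hp⟩ := h1
    obtain ⟨i, e1, -, -⟩ := hp.exists
    refine ⟨a, b, e1, hp.mono fun i hi => hi.2.1, ?_⟩
    exact (tendsto_add_atTop_nat 1).frequently (hp.mono fun i hi => hi.2.2)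

theorem freq_shift {p : ℕ → Prop} : (∃ᶠ i in atTop, p (i + 1)) ↔ ∃ᶠ i in atTop, p i := by
  constructor
  · intro h
    exact (tendsto_add_atTop_nat 1).frequently h
  · intro h
    rw [frequently_atTop] at h ⊢
    intro N
    obtain ⟨j, hj, hp⟩ := h (N + 1)
    refine ⟨j - 1, by omega, ?_⟩
    rwa [Nat.sub_add_cancel (by omega)]

theorem two_shift (γ : ℕ → Fin n) : γ ∈ TwoLetters n ↔ (fun i => γ (i + 1)) ∈ TwoLetters n := by
  rw [two_iff, two_iff]
  exact (freq_shift (p := fun i => γ i ≠ γ (i + 1))).symm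

/-! ### regularity -/

theorem two_regular : OmegaRegular (TwoLetters n) := by
  classical
  refine ⟨Option (Fin n), inferInstance, none, fun _ c => some c,
    fun q c => if q = some c then 1 else 2, fun γ => ?_⟩
  have hrun : ∀ i, run (fun (_ : Option (Fin n)) c => some c) none γ (i + 1) = some (γ i) :=
    fun i => rfl
  rw [two_iff]
  have hk : ∀ i, (if run (fun (_ : Option (Fin n)) c => some c) none γ (i + 1) = some (γ (i + 1))
      then 1 else 2) = 2 ↔ γ i ≠ γ (i + 1) := by
    intro i
    rw [hrun]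
    by_cases h : γ i = γ (i + 1) <;> simp [h]
  constructor
  · intro h
    refine ⟨2, by decide, ?_, Eventually.of_forall fun i => by beta_reduce; split_ifs <;> omega⟩
    rw [← freq_shift]
    exact h.mono fun i hi => (hk i).2 hi
  · rintro ⟨d, hd, h1, -⟩
    have hd2 : d = 2 := by
      obtain ⟨i, hi⟩ := h1.exists
      beta_reduce at hi
      split_ifs at hi
      · rw [← hi] at hd
        exact absurd hd (by decide)
      · exact hi.symm
    subst hd2
    rw [← freq_shift] at h1
    exact h1.mono fun i hi => (hk i).1 hi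

/-! ### arbitrary games: upper bound -/

theorem mem_arb_le (hn : 0 < n) (P : Game (Fin n) → Prop) : MemLEAt P (TwoLetters n) n := by
  intro G _ v hv
  let S : Skeleton (Fin n) n := ⟨⟨0, hn⟩, fun _ c => c⟩
  obtain ⟨ch, hch⟩ := exists_choice S (fun _ => TwoLetters n) (fun m c => m ≠ c)
    (fun m γ => two_shift γ) (fun m γ hγ => by
      rw [two_iff] at hγ
      obtain ⟨i, hi⟩ := hγ.exists
      exact ⟨i + 1, hi⟩) G
  refine ⟨S, ch, fun ρ γ hp hc => ?_⟩
  have := hch v hv ρ γ hp hc
  rw [← freq_shift] at this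
  rw [two_iff]
  exact this.mono fun i hi => hi

/-! ### one-player games: upper bound -/

theorem mem_one_le : MemLEAt OnePlayer (TwoLetters n) 2 := by
  intro G hG v hv
  obtain ⟨ρ, γ, hp, a, b, hab, h1, h2⟩ := (eveWins_one hG).1 hv
  classical
  let S : Skeleton (Fin n) 2 := ⟨0, fun m c => if m = 0 then (if c = a then 1 else 0) else
    (if c = b then 0 else 1)⟩
  let R : Set (ℕ → Fin n) := {γ | (∃ᶠ i in atTop, γ i = a) ∧ ∃ᶠ i in atTop, γ i = b}
  obtain ⟨ch, hch⟩ := exists_choice S (fun _ => R) (fun m c => if m = 0 then c = a else c = b)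
    (fun m γ => by
      change ((∃ᶠ i in atTop, γ i = a) ∧ ∃ᶠ i in atTop, γ i = b) ↔
        ((∃ᶠ i in atTop, γ (i + 1) = a) ∧ ∃ᶠ i in atTop, γ (i + 1) = b)
      rw [freq_shift (p := fun i => γ i = a), freq_shift (p := fun i => γ i = b)])
    (fun m γ hγ => by
      by_contra hno
      push Not at hno
      have hconst : ∀ i, run S.upd m γ i = m := by
        intro i
        induction i with
        | zero => rfl
        | succ i ih =>
          have h3 := hno i
          rw [ih] at h3
          simp only [run]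
          rw [ih]
          simp only [S]
          by_cases hm : m = 0
          · rw [if_pos hm] at h3 ⊢
            rw [if_neg h3, hm]
          · rw [if_neg hm] at h3 ⊢
            rw [if_neg h3]
            omega
      by_cases hm : m = 0
      · obtain ⟨i, hi⟩ := hγ.1.exists
        have := hno i
        rw [hconst i, if_pos hm] at this
        exact this hi
      · obtain ⟨i, hi⟩ := hγ.2.exists
        have := hno i
        rw [hconst i, if_neg hm] at this
        exact this hi) G
  refine ⟨S, ch, fun ρ' γ' hp' hc => ?_⟩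
  have hw : EveWins G R v := (eveWins_one hG).2 ⟨ρ, γ, hp, h1, h2⟩
  have hf := hch v hw ρ' γ' hp' hc
  -- each of the two letters occurs infinitely often
  have key : ∀ N, ∃ i, N ≤ i ∧ ((S.mem γ' i = 0 ∧ γ' i = a) ∨ (S.mem γ' i = 1 ∧ γ' i = b)) := by
    intro N
    obtain ⟨i, hi, h3⟩ := frequently_atTop.1 hf N
    refine ⟨i, hi, ?_⟩
    by_cases hm : S.mem γ' i = 0
    · rw [if_pos hm] at h3
      exact Or.inl ⟨hm, h3⟩
    · rw [if_neg hm] at h3
      exact Or.inr ⟨by omega, h3⟩
  have hupd0 : ∀ i, S.mem γ' i = 0 → γ' i = a → S.mem γ' (i + 1) = 1 := by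
    intro i e1 e2
    simp only [Skeleton.mem]
    rw [e1, e2]
    simp [S]
  have hupd1 : ∀ i, S.mem γ' i = 1 → γ' i = b → S.mem γ' (i + 1) = 0 := by
    intro i e1 e2
    simp only [Skeleton.mem]
    rw [e1, e2]
    simp [S]
  -- from state 1 the next good step has the letter b
  have stay : ∀ m : Fin 2, ∀ N, S.mem γ' N = m → ∃ i, N ≤ i ∧ S.mem γ' i = m ∧
      γ' i = if m = 0 then a else b := by
    intro m N hN
    by_contra hno
    push Not at hno
    have hconst : ∀ j, S.mem γ' (N + j) = m := by
      intro j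
      induction j with
      | zero => exact hN
      | succ j ih =>
        have h3 := hno (N + j) (by omega) ih
        rw [← Nat.add_assoc]
        simp only [Skeleton.mem]
        rw [ih]
        simp only [S]
        by_cases hm : m = 0
        · rw [if_pos hm] at h3 ⊢
          rw [if_neg h3, hm]
        · rw [if_neg hm] at h3 ⊢
          rw [if_neg h3]
          omega
    obtain ⟨i, hi, h4⟩ := key N
    obtain ⟨j, rfl⟩ := Nat.exists_eq_add_of_le hi
    have h5 := hno (N + j) hi (hconst j)
    rw [hconst j] at h4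
    rcases h4 with ⟨h6, h7⟩ | ⟨h6, h7⟩
    · rw [if_pos h6] at h5
      exact h5 h7
    · rw [if_neg (by rw [h6]; decide)] at h5
      exact h5 h7
  refine ⟨a, b, hab, ?_, ?_⟩
  · rw [frequently_atTop]
    intro N
    obtain ⟨i, hi, h3⟩ := key N
    rcases h3 with ⟨h3, h4⟩ | ⟨h3, h4⟩
    · exact ⟨i, hi, h4⟩
    · obtain ⟨j, hj, -, h6⟩ := stay 0 (i + 1) (hupd1 i h3 h4)
      exact ⟨j, by omega, by simpa using h6⟩
  · rw [frequently_atTop]
    intro N
    obtain ⟨i, hi, h3⟩ := key N
    rcases h3 with ⟨h3, h4⟩ | ⟨h3, h4⟩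
    · obtain ⟨j, hj, -, h6⟩ := stay 1 (i + 1) (hupd0 i h3 h4)
      exact ⟨j, by omega, by simpa using h6⟩
    · exact ⟨i, hi, h4⟩

/-! ### one-player games: lower bound -/

/-- one vertex with a loop of every colour -/
def loopG (hn : 0 < n) : Game (Fin n) where
  V := Unit
  edge _ _ _ := True
  eve _ := True
  total _ := ⟨⟨0, hn⟩, (), trivial⟩

theorem two_le_one (hn : 2 ≤ n) {k : ℕ} (h : MemLEAt OnePlayer (TwoLetters n) k) : 2 ≤ k := by
  have hw : EveWins (loopG (n := n) (by omega)) (TwoLetters n) () := by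
    rw [eveWins_one (fun _ => trivial)]
    refine ⟨fun _ => (), fun i => if i % 2 = 0 then ⟨0, by omega⟩ else ⟨1, by omega⟩,
      ⟨rfl, fun _ => trivial⟩, ?_⟩
    rw [two_iff]
    refine (Eventually.of_forall fun i => ?_).frequently
    rcases Nat.mod_two_eq_zero_or_one i with h1 | h1
    · have h2 : (i + 1) % 2 = 1 := by omega
      simp [h1, h2]
    · have h2 : (i + 1) % 2 = 0 := by omega
      simp [h1, h2]
  obtain ⟨S, ch, hc⟩ := h (loopG (n := n) (by omega)) (fun _ => trivial) () hw
  by_contra hk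
  have hk1 : k = 1 := by
    have := S.init.2
    omega
  subst hk1
  have := hc (fun _ => ()) (fun _ => (ch.next () 0).1) ⟨rfl, fun _ => trivial⟩ (fun i _ => by
    have e1 : S.mem (fun _ => (ch.next () 0).1) i = 0 := Subsingleton.elim _ _
    rw [e1]
    rfl)
  rw [two_iff] at this
  obtain ⟨i, hi⟩ := this.exists
  exact hi rfl

/-! ### arbitrary games: lower bound -/

/-- Adam chooses a colour and a pair which contains it, Eve chooses a colour of the pair. -/
def pairG (hn : 2 ≤ n) : Game (Fin n) where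
  V := Option {p : Fin n × Fin n // p.1 ≠ p.2}
  edge x c y := match x, y with
    | none, some p => c = p.1.1 ∨ c = p.1.2
    | some p, none => c = p.1.1 ∨ c = p.1.2
    | _, _ => False
  eve x := x ≠ none
  total x := by
    rcases x with _ | p
    · exact ⟨⟨0, by omega⟩, some ⟨(⟨0, by omega⟩, ⟨1, by omega⟩), by simp⟩, Or.inl rfl⟩
    · exact ⟨p.1.1, none, Or.inl rfl⟩

theorem arb_lower (hn : 2 ≤ n) {k : ℕ} (h : MemLEAt Arbitrary (TwoLetters n) k) : n ≤ k := by
  classical
  -- Eve wins: she chooses the colour of the pair which is not the last colour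
  have hw : EveWins (pairG hn) (TwoLetters n) none := by
    let nxt : List (Fin n × (pairG hn).V) → Fin n × (pairG hn).V := fun l =>
      match l.getLast? with
      | some (c, some p) => (if c = p.1.1 then p.1.2 else p.1.1, none)
      | _ => (⟨0, by omega⟩, none)
    have hnx : ∀ (ρ : ℕ → (pairG hn).V) (γ : ℕ → Fin n) (i : ℕ) (p), ρ (i + 1) = some p →
        nxt (hist ρ γ (i + 1)) = (if γ i = p.1.1 then p.1.2 else p.1.1, none) := by
      intro ρ γ i p hp
      simp only [nxt]
      rw [hist_succ, List.getLast?_append]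
      simp only [List.getLast?_singleton, Option.some_or]
      rw [hp]
      rfl
    refine ⟨⟨nxt, ?_⟩, ?_⟩
    · intro ρ γ i h0 hst he
      cases i with
      | zero => exact absurd h0 he
      | succ i =>
        obtain ⟨p, hp⟩ := Option.ne_none_iff_exists'.1 he
        rw [hnx ρ γ i p hp, hp]
        change (if γ i = p.1.1 then p.1.2 else p.1.1) = p.1.1 ∨ _
        by_cases h1 : γ i = p.1.1
        · right; rw [if_pos h1]
        · left; rw [if_neg h1]
    · intro ρ γ hp hc
      -- at least every second step changes the colour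
      have hpar : ∀ i, ρ (2 * i) = none ∧ ∃ p, ρ (2 * i + 1) = some p := by
        intro i
        have hs : ∀ j, ρ j = none → ∃ p, ρ (j + 1) = some p := by
          intro j hj
          have := hp.step j
          rw [hj] at this
          rcases hq : ρ (j + 1) with _ | p
          · rw [hq] at this; exact absurd this id
          · exact ⟨p, rfl⟩
        have ht : ∀ j p, ρ j = some p → ρ (j + 1) = none := by
          intro j p hj
          have := hp.step j
          rw [hj] at this
          rcases hq : ρ (j + 1) with _ | p'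
          · rfl
          · rw [hq] at this; exact absurd this id
        induction i with
        | zero => exact ⟨hp.start, hs 0 hp.start⟩
        | succ i ih =>
          obtain ⟨p, h1⟩ := ih.2
          have h2 := ht _ p h1
          exact ⟨h2, hs _ h2⟩
      rw [two_iff, frequently_atTop]
      intro N
      refine ⟨2 * N, by omega, ?_⟩
      obtain ⟨h1, p, h2⟩ := hpar N
      have h3 := hc (2 * N + 1) (by rw [h2]; exact Option.some_ne_none _)
      change (γ (2 * N + 1), ρ (2 * N + 1 + 1)) = nxt (hist ρ γ (2 * N + 1)) at h3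
      rw [hnx ρ γ (2 * N) p h2] at h3
      have h4 : γ (2 * N + 1) = if γ (2 * N) = p.1.1 then p.1.2 else p.1.1 :=
        congrArg Prod.fst h3
      rw [h4]
      by_cases h5 : γ (2 * N) = p.1.1
      · rw [if_pos h5, h5]; exact p.2
      · rw [if_neg h5]; exact h5
  obtain ⟨S, ch, hc⟩ := h (pairG hn) trivial none hw
  -- the colours avoided by a state
  by_contra hk
  have hav : ∃ c0 : Fin n, ∀ s : Fin k, ∃ p : {p : Fin n × Fin n // p.1 ≠ p.2},
      (c0 = p.1.1 ∨ c0 = p.1.2) ∧ (ch.next (some p) s).1 = c0 := by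
    by_contra hno
    push Not at hno
    choose f hf using hno
    have hinj : Function.Injective f := by
      intro c c' hcc
      by_contra hne
      have h1 := hf c ⟨(c, c'), hne⟩ (Or.inl rfl)
      have h2 := hf c' ⟨(c, c'), hne⟩ (Or.inr rfl)
      rw [← hcc] at h2
      have h3 := ch.legal (some ⟨(c, c'), hne⟩) (f c) (Option.some_ne_none _)
      rcases hq : (ch.next (some ⟨(c, c'), hne⟩) (f c)).2 with _ | p'
      · rw [hq] at h3
        rcases h3 with h3 | h3
        · exact h1 h3
        · exact h2 h3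
      · rw [hq] at h3
        exact absurd h3 id
    have := Fintype.card_le_of_injective f hinj
    simp at this
    omega
  obtain ⟨c0, hc0⟩ := hav
  choose pr hpr1 hpr2 using hc0
  let γ : ℕ → Fin n := fun _ => c0
  let ρ : ℕ → (pairG hn).V := fun i => if i % 2 = 0 then none else some (pr (S.mem γ i))
  have hρ0 : ∀ i, i % 2 = 0 → ρ i = none := fun i hi => by simp [ρ, hi]
  have hρ1 : ∀ i, i % 2 = 1 → ρ i = some (pr (S.mem γ i)) := fun i hi => by simp [ρ, hi]
  have := hc ρ γ ⟨hρ0 0 rfl, fun i => ?_⟩ (fun i he => ?_)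
  · rw [two_iff] at this
    obtain ⟨i, hi⟩ := this.exists
    exact hi rfl
  · rcases Nat.mod_two_eq_zero_or_one i with h1 | h1
    · rw [hρ0 i h1, hρ1 (i + 1) (by omega)]
      exact hpr1 _
    · rw [hρ1 i h1, hρ0 (i + 1) (by omega)]
      exact hpr1 _
  · rcases Nat.mod_two_eq_zero_or_one i with h1 | h1
    · exact absurd (hρ0 i h1) he
    · rw [hρ1 i h1, hρ0 (i + 1) (by omega)]
      refine Prod.ext (hpr2 _).symm ?_
      have h3 := ch.legal (some (pr (S.mem γ i))) (S.mem γ i) (Option.some_ne_none _)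
      rcases hq : (ch.next (some (pr (S.mem γ i))) (S.mem γ i)).2 with _ | p'
      · rfl
      · rw [hq] at h3
        exact absurd h3 id

end Q222.CM
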